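import Pool.Agent.Lib.MP_60829e_nt.HP.Main
import Pool.Agent.Lib.MP_60829e_nt.TV.Sub

/-! # Counting dimensions -/

open Module

namespace MP60829e.FD

open MP60829e.ST (Qa Lsp Lt)

private theorem smul_eq' (c : Qa) (z : ℂ) : c • z = (c : ℂ) * z := rfl

/-- `∑ t, b t * ∑ j, T t j • lam j` as a linear map. -/
noncomputable def bT {e r : ℕ} (lam : Fin r → ℂ) (b : Fin e → ℂ) :
    (Fin e → Fin r → Qa) →ₗ[Qa] ℂ where
  toFun T := ∑ t, b t * ∑ j, T t j • lam j
  map_add' S T := by
    simp only [Pi.add_apply, add_smul, Finset.sum_add_distrib, mul_add]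
  map_smul' c T := by
    simp only [Pi.smul_apply, smul_assoc, ← Finset.smul_sum, mul_smul_comm, RingHom.id_apply]

theorem bT_apply {e r : ℕ} (lam : Fin r → ℂ) (b : Fin e → ℂ) (T : Fin e → Fin r → Qa) :
    bT lam b T = ∑ t, b t * ∑ j, T t j • lam j := rfl

/-- the values -/
noncomputable def vT {e r : ℕ} (lam : Fin r → ℂ) :
    (Fin e → Fin r → Qa) →ₗ[Qa] (Fin e → ℂ) where
  toFun T := fun t => ∑ j, T t j • lam j
  map_add' S T := by
    funext t
    simp only [Pi.add_apply, add_smul, Finset.sum_add_distrib]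
  map_smul' c T := by
    funext t
    simp only [Pi.smul_apply, smul_assoc, ← Finset.smul_sum, RingHom.id_apply]

theorem vT_apply {e r : ℕ} (lam : Fin r → ℂ) (T : Fin e → Fin r → Qa) (t : Fin e) :
    vT lam T t = ∑ j, T t j • lam j := rfl

theorem vT_injective {e r : ℕ} (lam : Fin r → ℂ) (hli : LinearIndependent Qa lam) :
    Function.Injective (vT (e := e) lam) := by
  rw [← LinearMap.ker_eq_bot, LinearMap.ker_eq_bot']
  intro T hT
  funext t j
  have h1 := congrFun hT t
  rw [vT_apply, Pi.zero_apply] at h1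
  exact Fintype.linearIndependent_iff.1 hli _ h1 j

/-- The kernel has dimension at most `e (e + 1)`. -/
theorem finrank_ker_le {e r : ℕ} (lam : Fin r → ℂ) (hli : LinearIndependent Qa lam)
    (hlog : ∀ j, lam j ∈ Lsp) (b : Fin e → ℂ) (hb : LinearIndependent Qa b) :
    finrank Qa (LinearMap.ker (bT lam b)) ≤ e * (e + 1) := by
  obtain ⟨hfin, hle⟩ := HP.hp b hb ((LinearMap.ker (bT lam b)).map (vT lam))
    (by
      rintro _ ⟨T, -, rfl⟩ i
      rw [vT_apply]
      exact Submodule.sum_mem _ fun j _ => Lsp.smul_mem _ (hlog j))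
    (by
      rintro _ ⟨T, hT, rfl⟩
      have h1 : bT lam b T = 0 := hT
      rw [bT_apply] at h1
      simpa [vT_apply] using h1)
  rwa [LinearEquiv.finrank_eq (Submodule.equivMapOfInjective (vT lam) (vT_injective lam hli)
    (LinearMap.ker (bT lam b)))]

/-- For `e = 1` it is zero. -/
theorem finrank_ker_one {r : ℕ} (lam : Fin r → ℂ) (hli : LinearIndependent Qa lam)
    (b : Fin 1 → ℂ) (hb : LinearIndependent Qa b) :
    finrank Qa (LinearMap.ker (bT lam b)) = 0 := by
  have h1 : LinearMap.ker (bT lam b) = ⊥ := by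
    rw [LinearMap.ker_eq_bot']
    intro T hT
    apply vT_injective lam hli
    rw [map_zero]
    funext t
    rw [bT_apply, Fin.sum_univ_one] at hT
    have hb0 : b 0 ≠ 0 := hb.ne_zero 0
    rw [Subsingleton.elim t 0, vT_apply]
    exact (mul_eq_zero.1 hT).resolve_left hb0
  rw [h1, finrank_bot]

theorem finrank_comap_le {V W : Type*} [AddCommGroup V] [Module Qa V] [AddCommGroup W]
    [Module Qa W] [FiniteDimensional Qa V] (f : V →ₗ[Qa] W) (S : Submodule Qa W)
    [FiniteDimensional Qa S] :
    finrank Qa (S.comap f) ≤ finrank Qa S + finrank Qa (LinearMap.ker f) := by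
  let g : S.comap f →ₗ[Qa] S := (f.domRestrict (S.comap f)).codRestrict S fun x => x.2
  have h1 := LinearMap.finrank_range_add_finrank_ker g
  have h2 : finrank Qa (LinearMap.range g) ≤ finrank Qa S := Submodule.finrank_le _
  have h3 : finrank Qa (LinearMap.ker g) ≤ finrank Qa (LinearMap.ker f) := by
    let k : LinearMap.ker g →ₗ[Qa] LinearMap.ker f :=
      ((S.comap f).subtype.domRestrict (LinearMap.ker g)).codRestrict (LinearMap.ker f)
        (by
          rintro ⟨x, hx⟩
          have h4 : g x = 0 := hx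
          have h5 := congrArg Subtype.val h4
          exact h5)
    refine LinearMap.finrank_le_finrank_of_injective (f := k) ?_
    intro x y hxy
    have h4 := congrArg Subtype.val hxy
    exact Subtype.ext (Subtype.ext h4)
  omega

/-- The count, for any bound `C e` of the kernels. -/
theorem count_gen {N n m r : ℕ} (C : ℕ → ℕ) (lam : Fin r → ℂ)
    (hC : ∀ e, e ≤ n → ∀ b : Fin e → ℂ, LinearIndependent Qa b →
      finrank Qa (LinearMap.ker (bT lam b)) ≤ C e)
    (h2 : ∀ e, 1 ≤ e → e ≤ n → N + C e < m * e)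
    (Φ : Fin m × Fin r → Qa) (g : Fin n → ℂ) (p : Fin N → ℂ) (hg : g ≠ 0)
    (h : ∀ χ : Fin n → Fin m → Qa, ∃ (T : Fin n × Fin r → Qa) (y : Fin N → Qa),
      (∀ i s, ∑ j, T (i, j) * Φ (s, j) = χ i s) ∧
      ∑ l, p l * (y l : ℂ) + ∑ i, g i * TV.pt lam T i = 0) : False := by
  classical
  set G : Submodule Qa ℂ := Submodule.span Qa (Set.range g) with hG
  have hfin : FiniteDimensional Qa G := FiniteDimensional.span_of_finite Qa (Set.finite_range g)
  set S : Submodule Qa ℂ := Submodule.span Qa (Set.range p) with hS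
  have hfinS : FiniteDimensional Qa S :=
    FiniteDimensional.span_of_finite Qa (Set.finite_range p)
  have hSN : finrank Qa S ≤ N := by
    have := finrank_range_le_card (R := Qa) p
    rwa [Fintype.card_fin] at this
  have hle : finrank Qa G ≤ n := by
    have := finrank_range_le_card (R := Qa) g
    rwa [Fintype.card_fin] at this
  have hpos : 1 ≤ finrank Qa G := by
    rw [Nat.one_le_iff_ne_zero]
    intro h0
    have h3 : G = ⊥ := Submodule.finrank_eq_zero.1 h0
    apply hg
    funext i
    have h4 : g i ∈ G := Submodule.subset_span ⟨i, rfl⟩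
    rw [h3, Submodule.mem_bot] at h4
    exact h4
  obtain ⟨e, he⟩ : ∃ e, e = finrank Qa G := ⟨_, rfl⟩
  let B : Basis (Fin e) Qa G := (finBasis Qa G).reindex (finCongr he.symm)
  set b : Fin e → ℂ := fun t => (B t : ℂ) with hb
  have hbli : LinearIndependent Qa b :=
    B.linearIndependent.map' G.subtype (Submodule.ker_subtype G)
  have hmem : ∀ i, g i ∈ G := fun i => Submodule.subset_span ⟨i, rfl⟩
  let ρ : Fin n → Fin e → Qa := fun i t => B.repr ⟨g i, hmem i⟩ t
  have hρ : ∀ i, g i = ∑ t, ρ i t • b t := by
    intro i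
    have h3 := congrArg G.subtype (B.sum_repr ⟨g i, hmem i⟩)
    rw [map_sum] at h3
    simp only [map_smul, Submodule.subtype_apply] at h3
    exact h3.symm
  have hq : ∀ t, ∃ q : Fin n → Qa, ∑ i, q i • g i = b t := by
    intro t
    exact (Submodule.mem_span_range_iff_exists_fun Qa).1 (B t).2
  choose q hq using hq
  have hqρ : ∀ t t', ∑ i, q t i * ρ i t' = if t' = t then 1 else 0 := by
    intro t t'
    have h3 : ∑ t', (∑ i, q t i * ρ i t') • b t' = ∑ t', (if t' = t then (1 : Qa) else 0) • b t' := by
      calc ∑ t', (∑ i, q t i * ρ i t') • b t' = ∑ i, q t i • ∑ t', ρ i t' • b t' := by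
            simp only [Finset.sum_smul, Finset.smul_sum, mul_smul]
            exact Finset.sum_comm
        _ = ∑ i, q t i • g i := Finset.sum_congr rfl fun i _ => by rw [← hρ]
        _ = b t := hq t
        _ = _ := by simp [ite_smul]
    have h4 : ∑ t', ((∑ i, q t i * ρ i t') - (if t' = t then (1 : Qa) else 0)) • b t' = 0 := by
      simp only [sub_smul, Finset.sum_sub_distrib]
      rw [h3, sub_self]
    exact sub_eq_zero.1 (Fintype.linearIndependent_iff.1 hbli _ h4 t')
  -- the space
  set V : Submodule Qa (Fin e → Fin r → Qa) := S.comap (bT lam b) with hV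
  have hVle : finrank Qa V ≤ N + finrank Qa (LinearMap.ker (bT lam b)) :=
    (finrank_comap_le (bT lam b) S).trans (by omega)
  -- the map to the values
  let F : (Fin e → Fin r → Qa) →ₗ[Qa] (Fin e → Fin m → Qa) :=
    { toFun := fun T t s => ∑ j, T t j * Φ (s, j)
      map_add' := fun T T' => by
        funext t s
        simp only [Pi.add_apply, add_mul, Finset.sum_add_distrib]
      map_smul' := fun c T => by
        funext t s
        simp only [Pi.smul_apply, smul_eq_mul, mul_assoc, ← Finset.mul_sum, RingHom.id_apply] }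
  have hF : ∀ T t s, F T t s = ∑ j, T t j * Φ (s, j) := fun _ _ _ => rfl
  have hsurj : Function.Surjective (F.domRestrict V) := by
    intro χ
    obtain ⟨T, y, hT, hTy⟩ := h fun i s => ∑ t, q t i * χ t s
    set T' : Fin e → Fin r → Qa := fun t j => ∑ i, ρ i t * T (i, j) with hT'
    have hmemV : T' ∈ V := by
      rw [hV, Submodule.mem_comap]
      have h3 : bT lam b T' = ∑ i, g i * TV.pt lam T i := by
        rw [bT_apply]
        calc ∑ t, b t * ∑ j, T' t j • lam j
            = ∑ t, ∑ i, b t * ((ρ i t : ℂ) * TV.pt lam T i) := by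
              refine Finset.sum_congr rfl fun t _ => ?_
              rw [← Finset.mul_sum]
              congr 1
              have h5 : ∀ j, T' t j • lam j = ∑ i, (ρ i t : ℂ) * (T (i, j) • lam j) := by
                intro j
                rw [hT', Finset.sum_smul]
                refine Finset.sum_congr rfl fun i _ => ?_
                rw [mul_smul, smul_eq']
              rw [Finset.sum_congr rfl fun j _ => h5 j, Finset.sum_comm]
              refine Finset.sum_congr rfl fun i _ => ?_
              rw [← Finset.mul_sum]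
              rfl
          _ = ∑ i, ∑ t, b t * ((ρ i t : ℂ) * TV.pt lam T i) := Finset.sum_comm
          _ = ∑ i, g i * TV.pt lam T i := by
              refine Finset.sum_congr rfl fun i _ => ?_
              conv_rhs => rw [hρ i, Finset.sum_mul]
              refine Finset.sum_congr rfl fun t _ => ?_
              rw [smul_eq']
              ring
      have h4 : bT lam b T' = -∑ l, p l * (y l : ℂ) := by
        rw [h3]
        linear_combination hTy
      rw [h4]
      refine S.neg_mem (Submodule.sum_mem _ fun l _ => ?_)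
      rw [mul_comm, ← smul_eq']
      exact S.smul_mem _ (Submodule.subset_span ⟨l, rfl⟩)
    refine ⟨⟨T', hmemV⟩, ?_⟩
    funext t s
    rw [LinearMap.domRestrict_apply, hF]
    calc ∑ j, T' t j * Φ (s, j) = ∑ i, ρ i t * ∑ j, T (i, j) * Φ (s, j) := by
          simp only [hT', Finset.sum_mul, Finset.mul_sum, mul_assoc]
          exact Finset.sum_comm
      _ = ∑ i, ρ i t * ∑ t', q t' i * χ t' s := Finset.sum_congr rfl fun i _ => by rw [hT]
      _ = ∑ t', (∑ i, q t' i * ρ i t) * χ t' s := by
          simp only [Finset.sum_mul, Finset.mul_sum]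
          rw [Finset.sum_comm]
          exact Finset.sum_congr rfl fun t' _ => Finset.sum_congr rfl fun i _ => by ring
      _ = χ t s := by
          simp [hqρ]
  have hme : e * m ≤ finrank Qa V := by
    have h3 := LinearMap.finrank_le_finrank_of_surjective (f := F.domRestrict V) hsurj
    have h4 : finrank Qa (Fin e → Fin m → Qa) = e * m := by
      rw [Module.finrank_pi_fintype]
      simp
    rwa [h4] at h3
  have h3 := h2 e (by omega) (by omega)
  have h4 := hC e (by omega) b hbli
  have h5 : e * m = m * e := mul_comm _ _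
  omega

/-- The constants of the hyperplane theorem, `0` for `e ≤ 1`. -/
theorem kernels {r : ℕ} (lam : Fin r → ℂ) (hli : LinearIndependent Qa lam)
    (hlog : ∀ j, lam j ∈ Lsp) (e : ℕ) (b : Fin e → ℂ) (hb : LinearIndependent Qa b) :
    finrank Qa (LinearMap.ker (bT lam b)) ≤ if e ≤ 1 then 0 else e * (e + 1) := by
  split_ifs with he
  · interval_cases e
    · have h1 := finrank_ker_le lam hli hlog b hb
      omega
    · exact (finrank_ker_one lam hli b hb).le
  · exact finrank_ker_le lam hli hlog b hb

/-- The count. -/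
theorem count {N n m r : ℕ} (lam : Fin r → ℂ) (hli : LinearIndependent Qa lam)
    (hlog : ∀ j, lam j ∈ Lsp) (h1 : N < m)
    (h2 : ∀ e, 2 ≤ e → e ≤ n → N + e * (e + 1) < m * e)
    (Φ : Fin m × Fin r → Qa) (g : Fin n → ℂ) (p : Fin N → ℂ) (hg : g ≠ 0)
    (h : ∀ χ : Fin n → Fin m → Qa, ∃ (T : Fin n × Fin r → Qa) (y : Fin N → Qa),
      (∀ i s, ∑ j, T (i, j) * Φ (s, j) = χ i s) ∧
      ∑ l, p l * (y l : ℂ) + ∑ i, g i * TV.pt lam T i = 0) : False := by
  refine count_gen (fun e => if e ≤ 1 then 0 else e * (e + 1)) lam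
    (fun e _ b hb => kernels lam hli hlog e b hb) (fun e he1 hen => ?_) Φ g p hg h
  split_ifs with he
  · have : e = 1 := by omega
    subst this
    omega
  · exact h2 e (by omega) hen

end MP60829e.FD
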