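import Pool.Agent.Lib.MP_60829e_nt.FD.LI

/-! # The dimension of the exceptional set of tuples -/

open MvPolynomial Module

namespace MP60829e.FD

open MP60829e.ST (Qa Lsp Lt)
open MP60829e.FC (forms gs_gen)
open MP60829e.FR

private theorem smul_eq' (c : Qa) (z : ℂ) : c • z = (c : ℂ) * z := rfl

private theorem ev_eq_eval {K : Type} [Field K] {σ : Type} (c : σ → K) (p : MvPolynomial σ K) :
    TV.ev c p = eval c p := by
  induction p using MvPolynomial.induction_on with
  | C a => rw [TV.ev_C, eval_C]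
  | add p q hp hq => rw [map_add, map_add, hp, hq]
  | mul_X p i hp =>
    rw [TV.ev_mul, hp, TV.ev_X, map_mul, eval_X]
    rfl

private theorem dv_eq_sum {K : Type} [Field K] {σ : Type} [Fintype σ] (c v : σ → K)
    (p : MvPolynomial σ K) : TV.dv c v p = ∑ s, v s * eval c (pderiv s p) := by
  unfold TV.dv
  exact Finset.sum_congr rfl fun s _ => by rw [ev_eq_eval, smul_eq_mul]

private theorem ev_rename {K R : Type} [Field K] [CommRing R] [Algebra K R] {σ τ : Type}
    (f : σ → τ) (c : τ → K) (p : MvPolynomial σ R) :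
    TV.ev c (rename f p) = TV.ev (fun s => c (f s)) p := by
  induction p using MvPolynomial.induction_on with
  | C a => rw [rename_C, TV.ev_C, TV.ev_C]
  | add p q hp hq => rw [map_add, map_add, map_add, hp, hq]
  | mul_X p i hp => rw [map_mul, TV.ev_mul, TV.ev_mul, hp, rename_X, TV.ev_X, TV.ev_X]

private theorem dv_rename {K R : Type} [Field K] [CommRing R] [Algebra K R] {σ τ : Type}
    [Fintype σ] [Fintype τ] (f : σ → τ) (c v : τ → K) (p : MvPolynomial σ R) :
    TV.dv c v (rename f p) = TV.dv (fun s => c (f s)) (fun s => v (f s)) p := by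
  induction p using MvPolynomial.induction_on with
  | C a => rw [rename_C, TV.dv_C, TV.dv_C]
  | add p q hp hq => rw [map_add, TV.dv_add, TV.dv_add, hp, hq]
  | mul_X p i hp =>
    rw [map_mul, TV.dv_mul, TV.dv_mul, hp, rename_X, TV.dv_X, TV.dv_X, ev_rename, TV.ev_X,
      TV.ev_X]

/-- The motions of `U` which are compensated by motions of `A` and `z`, as a space. -/
noncomputable def mot {N n d r : ℕ} (L : Submodule Qa ℂ) (lam : Fin r → ℂ)
    (U : Fin d × Fin r → Qa) (A : Fin n × Fin d → Qa) (g : Fin n → ℂ) (p : Fin N → ℂ) :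
    Submodule Qa (Fin d × Fin r → Qa) where
  carrier := {V | ∃ (B : Fin n × Fin d → Qa) (y : Fin N → Qa),
    ∑ l, p l * (y l : ℂ) +
      ∑ i, g i * TV.pt lam (fun q => mul2 B U q + mul2 A V q) i ∈ L}
  zero_mem' := by
    refine ⟨0, 0, ?_⟩
    have h : ∀ i, TV.pt lam (fun q => mul2 (0 : Fin n × Fin d → Qa) U q +
        mul2 A (0 : Fin d × Fin r → Qa) q) i = 0 := by
      intro i
      simp [TV.pt, mul2]
    simp only [h]
    simp
  add_mem' := by
    rintro V V' ⟨B, y, h⟩ ⟨B', y', h'⟩
    refine ⟨B + B', y + y', ?_⟩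
    have e1 : ∀ i, TV.pt lam (fun q => mul2 (B + B') U q + mul2 A (V + V') q) i =
        TV.pt lam (fun q => mul2 B U q + mul2 A V q) i +
          TV.pt lam (fun q => mul2 B' U q + mul2 A V' q) i := by
      intro i
      simp only [TV.pt, mul2, Pi.add_apply, add_mul, mul_add, Finset.sum_add_distrib, add_smul]
      ring
    have e2 : ∑ l, p l * (((y + y') l : Qa) : ℂ) +
        ∑ i, g i * TV.pt lam (fun q => mul2 (B + B') U q + mul2 A (V + V') q) i =
        (∑ l, p l * (y l : ℂ) + ∑ i, g i * TV.pt lam (fun q => mul2 B U q + mul2 A V q) i) +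
        (∑ l, p l * (y' l : ℂ) + ∑ i, g i * TV.pt lam (fun q => mul2 B' U q + mul2 A V' q) i) := by
      simp only [e1, mul_add, Finset.sum_add_distrib, Pi.add_apply]
      push_cast
      simp only [mul_add, Finset.sum_add_distrib]
      ring
    rw [e2]
    exact L.add_mem h h'
  smul_mem' := by
    rintro c V ⟨B, y, h⟩
    refine ⟨c • B, c • y, ?_⟩
    have e1 : ∀ i, TV.pt lam (fun q => mul2 (c • B) U q + mul2 A (c • V) q) i =
        c • TV.pt lam (fun q => mul2 B U q + mul2 A V q) i := by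
      intro i
      simp only [TV.pt, mul2, Pi.smul_apply, smul_eq_mul, Finset.smul_sum, smul_smul]
      refine Finset.sum_congr rfl fun j _ => ?_
      congr 1
      rw [mul_add, Finset.mul_sum, Finset.mul_sum]
      congr 1
      · exact Finset.sum_congr rfl fun a _ => by ring
      · exact Finset.sum_congr rfl fun a _ => by ring
    have e2 : ∑ l, p l * (((c • y) l : Qa) : ℂ) +
        ∑ i, g i * TV.pt lam (fun q => mul2 (c • B) U q + mul2 A (c • V) q) i =
        c • (∑ l, p l * (y l : ℂ) +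
          ∑ i, g i * TV.pt lam (fun q => mul2 B U q + mul2 A V q) i) := by
      simp only [e1, Pi.smul_apply, smul_eq_mul, smul_add, Finset.smul_sum, smul_eq']
      push_cast
      congr 1
      · exact Finset.sum_congr rfl fun l _ => by ring
      · exact Finset.sum_congr rfl fun i _ => by ring
    rw [e2]
    exact L.smul_mem c h

theorem mem_mot {N n d r : ℕ} {L : Submodule Qa ℂ} {lam : Fin r → ℂ}
    {U : Fin d × Fin r → Qa} {A : Fin n × Fin d → Qa} {g : Fin n → ℂ} {p : Fin N → ℂ}
    {V : Fin d × Fin r → Qa} : V ∈ mot L lam U A g p ↔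
      ∃ (B : Fin n × Fin d → Qa) (y : Fin N → Qa), ∑ l, p l * (y l : ℂ) +
        ∑ i, g i * TV.pt lam (fun q => mul2 B U q + mul2 A V q) i ∈ L := Iff.rfl

/-- The tangent directions at a point of a family whose coordinates in `J` are generic. -/
theorem tangentJ {N n d r : ℕ} {I : Type} (L : Submodule Qa ℂ) (J : Finset (Fin d × Fin r))
    (Y : I → Fin d × Fin r → Qa) (W : Ultrafilter I)
    (hW : ∀ D : MvPolynomial J Qa, D ≠ 0 →
      ∀ᶠ a in (W : Filter I), eval (fun s : J => Y a s) D ≠ 0)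
    (lam : Fin r → ℂ) (G : MvPolynomial (Fin N ⊕ Fin n) ℂ)
    (A : I → Fin n × Fin d → Qa) (z : I → Fin N → Qa)
    (h2 : ∀ᶠ a in (W : Filter I), eval (pt2 lam (mul2 (A a) (Y a)) (z a)) G ∈ L) :
    ∀ᶠ a in (W : Filter I), J.card ≤ finrank Qa (mot L lam (Y a) (A a)
      (fun i => eval (pt2 lam (mul2 (A a) (Y a)) (z a)) (pderiv (Sum.inr i) G))
      (fun l => eval (pt2 lam (mul2 (A a) (Y a)) (z a)) (pderiv (Sum.inl l) G))) := by
  classical
  obtain ⟨q, P', hP1, hP2⟩ := forms L
    (sub3 lam G : MvPolynomial ((Fin d × Fin r) ⊕ ((Fin n × Fin d) ⊕ Fin N)) ℂ)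
  let P : J ⊕ Fin q → MvPolynomial (J ⊕ ((Fin d × Fin r) ⊕ ((Fin n × Fin d) ⊕ Fin N))) Qa :=
    Sum.elim (fun s => X (Sum.inl s) - X (Sum.inr (Sum.inl s.1)))
      (fun j => rename Sum.inr (P' j))
  have h3 : ∀ᶠ a in (W : Filter I), ∀ j,
      eval (Sum.elim (fun s : J => Y a s) (Sum.elim (Y a) (Sum.elim (A a) (z a)))) (P j) = 0 := by
    filter_upwards [h2] with a ha2
    rintro (s | j)
    · simp only [P, Sum.elim_inl, map_sub, eval_X, Sum.elim_inr, sub_self]
    · have h5 := hP1 (Sum.elim (Y a) (Sum.elim (A a) (z a))) (by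
        rw [ev_sub3]
        exact ha2) j
      rw [← h5]
      simp only [P, Sum.elim_inr]
      rw [← ev_eq_eval, ev_rename, ev_eq_eval]
      rfl
  have h4 := gs_gen W (fun a (s : J) => Y a s) hW P
    (fun a => Sum.elim (Y a) (Sum.elim (A a) (z a))) h3
  filter_upwards [h4] with a ha
  choose η hη using ha
  have hη' : ∀ ψ j, TV.dv (Sum.elim (fun s : J => Y a s)
      (Sum.elim (Y a) (Sum.elim (A a) (z a)))) (Sum.elim ψ (η ψ)) (P j) = 0 := by
    intro ψ j
    rw [dv_eq_sum, Fintype.sum_sum_type]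
    exact hη ψ j
  -- the motions
  have hmem : ∀ ψ, (fun s => η ψ (Sum.inl s)) ∈ mot L lam (Y a) (A a)
      (fun i => eval (pt2 lam (mul2 (A a) (Y a)) (z a)) (pderiv (Sum.inr i) G))
      (fun l => eval (pt2 lam (mul2 (A a) (Y a)) (z a)) (pderiv (Sum.inl l) G)) := by
    intro ψ
    rw [mem_mot]
    refine ⟨fun p => η ψ (Sum.inr (Sum.inl p)), fun l => η ψ (Sum.inr (Sum.inr l)), ?_⟩
    have h5 : TV.dv (Sum.elim (Y a) (Sum.elim (A a) (z a))) (η ψ) (sub3 lam G) ∈ L := by
      refine hP2 _ _ fun j => ?_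
      have h6 := hη' ψ (Sum.inr j)
      simp only [P, Sum.elim_inr] at h6
      rw [dv_rename, dv_eq_sum] at h6
      exact h6
    have h6 : η ψ = Sum.elim (fun s => η ψ (Sum.inl s))
        (Sum.elim (fun p => η ψ (Sum.inr (Sum.inl p))) (fun l => η ψ (Sum.inr (Sum.inr l)))) := by
      funext t
      rcases t with t | t | t <;> rfl
    rw [h6, dv_sub3] at h5
    exact h5
  have hrestr : ∀ ψ (s : J), η ψ (Sum.inl s.1) = ψ s := by
    intro ψ s
    have h6 := hη' ψ (Sum.inl s)
    simp only [P, Sum.elim_inl] at h6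
    have h7 : TV.dv (Sum.elim (fun s : J => Y a s) (Sum.elim (Y a) (Sum.elim (A a) (z a))))
        (Sum.elim ψ (η ψ)) (X (Sum.inl s) - X (Sum.inr (Sum.inl s.1)) :
          MvPolynomial (J ⊕ ((Fin d × Fin r) ⊕ ((Fin n × Fin d) ⊕ Fin N))) Qa) =
        ψ s - η ψ (Sum.inl s.1) := by
      have h8 : (X (Sum.inl s) : MvPolynomial
          (J ⊕ ((Fin d × Fin r) ⊕ ((Fin n × Fin d) ⊕ Fin N))) Qa) =
          (X (Sum.inl s) - X (Sum.inr (Sum.inl s.1))) + X (Sum.inr (Sum.inl s.1)) := by ring
      have h9 := TV.dv_add (Sum.elim (fun s : J => Y a s)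
        (Sum.elim (Y a) (Sum.elim (A a) (z a)))) (Sum.elim ψ (η ψ))
        (X (Sum.inl s) - X (Sum.inr (Sum.inl s.1)) :
          MvPolynomial (J ⊕ ((Fin d × Fin r) ⊕ ((Fin n × Fin d) ⊕ Fin N))) Qa)
        (X (Sum.inr (Sum.inl s.1)))
      rw [← h8, TV.dv_X, TV.dv_X] at h9
      simp only [Sum.elim_inl, Sum.elim_inr, Algebra.algebraMap_self, RingHom.id_apply] at h9
      rw [h9]
      ring
    rw [h7] at h6
    exact (sub_eq_zero.1 h6).symm
  -- the restriction to `J` is onto
  let Rs : mot L lam (Y a) (A a)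
      (fun i => eval (pt2 lam (mul2 (A a) (Y a)) (z a)) (pderiv (Sum.inr i) G))
      (fun l => eval (pt2 lam (mul2 (A a) (Y a)) (z a)) (pderiv (Sum.inl l) G)) →ₗ[Qa]
        (J → Qa) :=
    { toFun := fun V s => V.1 s
      map_add' := fun _ _ => rfl
      map_smul' := fun _ _ => rfl }
  have hsurj : Function.Surjective Rs := by
    intro ψ
    exact ⟨⟨_, hmem ψ⟩, funext fun s => hrestr ψ s⟩
  have h5 := LinearMap.finrank_le_finrank_of_surjective (f := Rs) hsurj
  rwa [Module.finrank_fintype_fun_eq_card, Fintype.card_coe] at h5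

/-- The bound for the space of the motions. -/
theorem finrank_mot {N n d r e : ℕ} (L K0 : Submodule Qa ℂ) (lam : Fin r → ℂ)
    (U : Fin d × Fin r → Qa) (A : Fin n → Fin d → Qa) (hA : LinearIndependent Qa A)
    (g : Fin n → ℂ) (p : Fin N → ℂ) (h : Fin e → ℂ) (ρ : Fin n → Fin e → Qa) (γ : Fin n → ℂ)
    (q : Fin e → Fin n → Qa) (hγ : ∀ i, γ i ∈ K0)
    (hK : ∀ c ∈ K0, ∀ j, c * lam j ∈ L)
    (hg : ∀ i, g i = ∑ s, (ρ i s : ℂ) * h s + γ i)
    (hq : ∀ s t, ∑ i, q s i * ρ i t = if t = s then 1 else 0) :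
    finrank Qa (mot L lam U (fun x => A x.1 x.2) g p) + e * r ≤
      N + e * d + finrank Qa (L.comap (bT lam h)) + d * r := by
  classical
  set u : Fin d → ℂ := fun a => ∑ j, U (a, j) • lam j with hu
  set S1 : Submodule Qa ℂ := Submodule.span Qa (Set.range p) with hS1
  set S2 : Submodule Qa ℂ := Submodule.span Qa
    (Set.range fun x : Fin e × Fin d => h x.1 * u x.2) with hS2
  have hf1 : FiniteDimensional Qa S1 := FiniteDimensional.span_of_finite Qa (Set.finite_range p)
  have hf2 : FiniteDimensional Qa S2 :=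
    FiniteDimensional.span_of_finite Qa (Set.finite_range _)
  have hS1N : finrank Qa S1 ≤ N := by
    have := finrank_range_le_card (R := Qa) p
    rwa [Fintype.card_fin] at this
  have hS2N : finrank Qa S2 ≤ e * d := by
    have := finrank_range_le_card (R := Qa) (fun x : Fin e × Fin d => h x.1 * u x.2)
    rwa [Fintype.card_prod, Fintype.card_fin, Fintype.card_fin] at this
  have hfS : FiniteDimensional Qa (S1 ⊔ S2 : Submodule Qa ℂ) :=
    Submodule.finiteDimensional_sup _ _
  have hSN : finrank Qa (S1 ⊔ S2 : Submodule Qa ℂ) ≤ N + e * d :=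
    (Submodule.finrank_add_le_finrank_add_finrank S1 S2).trans (by omega)
  have hKu : ∀ c ∈ K0, ∀ f : Fin r → Qa, c * ∑ j, f j • lam j ∈ L := by
    intro c hc f
    rw [Finset.mul_sum]
    refine Submodule.sum_mem _ fun j _ => ?_
    rw [mul_smul_comm]
    exact L.smul_mem _ (hK c hc j)
  -- the map `V ↦ A' V`
  let A' : Fin e → Fin d → Qa := fun t a => ∑ i, ρ i t * A i a
  have hA' : LinearIndependent Qa A' := by
    rw [Fintype.linearIndependent_iff]
    intro c hc s
    have h1 : ∑ i, (∑ t, c t * ρ i t) • A i = 0 := by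
      rw [← hc]
      funext a
      simp only [Finset.sum_apply, Pi.smul_apply, smul_eq_mul, A', Finset.sum_mul,
        Finset.mul_sum]
      rw [Finset.sum_comm]
      exact Finset.sum_congr rfl fun t _ => Finset.sum_congr rfl fun i _ => by ring
    have h2 := Fintype.linearIndependent_iff.1 hA _ h1
    have h3 : ∑ t, c t * (∑ i, q s i * ρ i t) = ∑ i, q s i * ∑ t, c t * ρ i t := by
      simp only [Finset.mul_sum]
      rw [Finset.sum_comm]
      exact Finset.sum_congr rfl fun t _ => Finset.sum_congr rfl fun i _ => by ring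
    simp only [hq, h2, mul_zero, Finset.sum_const_zero, mul_ite, mul_one,
      Finset.sum_ite_eq', Finset.mem_univ, if_true] at h3
    exact h3
  let Ψ : (Fin d × Fin r → Qa) →ₗ[Qa] (Fin e → Fin r → Qa) :=
    { toFun := fun V t j => ∑ a, A' t a * V (a, j)
      map_add' := fun V V' => by
        funext t j
        simp only [Pi.add_apply, mul_add, Finset.sum_add_distrib]
      map_smul' := fun c V => by
        funext t j
        simp only [Pi.smul_apply, smul_eq_mul, RingHom.id_apply, Finset.mul_sum]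
        exact Finset.sum_congr rfl fun a _ => by ring }
  have hΨ : ∀ V t j, Ψ V t j = ∑ a, A' t a * V (a, j) := fun _ _ _ => rfl
  have hΨs : Function.Surjective Ψ := by
    intro χ
    obtain ⟨ψ, hψ⟩ := exists_psi A' hA' χ
    refine ⟨fun x => ψ (x.2, x.1), ?_⟩
    funext t j
    rw [hΨ]
    exact hψ t j
  have hker : finrank Qa (LinearMap.ker Ψ) + e * r = d * r := by
    have h1 := LinearMap.finrank_range_add_finrank_ker Ψ
    rw [LinearMap.range_eq_top.2 hΨs, finrank_top, Module.finrank_pi_fintype] at h1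
    simp only [Finset.sum_const, Finset.card_univ, Fintype.card_fin,
      smul_eq_mul, Module.finrank_fintype_fun_eq_card, Fintype.card_prod] at h1
    omega
  have hle : mot L lam U (fun x => A x.1 x.2) g p ≤
      (((S1 ⊔ S2) ⊔ L).comap (bT lam h)).comap Ψ := by
    intro V hV
    obtain ⟨B, y, hBy⟩ := hV
    rw [Submodule.mem_comap, Submodule.mem_comap]
    have e1 : ∀ i, TV.pt lam (fun x => mul2 B U x + mul2 (fun x => A x.1 x.2) V x) i =
        ∑ a, (B (i, a) : ℂ) * u a + ∑ j, (∑ a, A i a * V (a, j)) • lam j := by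
      intro i
      unfold TV.pt
      simp only [add_smul, Finset.sum_add_distrib]
      congr 1
      simp only [mul2, Finset.sum_smul, hu, Finset.mul_sum]
      rw [Finset.sum_comm]
      refine Finset.sum_congr rfl fun a _ => Finset.sum_congr rfl fun j _ => ?_
      rw [mul_smul, smul_eq']
    have e2 : ∑ i, g i * ∑ j, (∑ a, A i a * V (a, j)) • lam j =
        bT lam h (Ψ V) + ∑ i, γ i * ∑ j, (∑ a, A i a * V (a, j)) • lam j := by
      rw [bT_apply]
      have h1 : ∑ t, h t * ∑ j, Ψ V t j • lam j =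
          ∑ i, (∑ s, (ρ i s : ℂ) * h s) * ∑ j, (∑ a, A i a * V (a, j)) • lam j := by
        simp only [Finset.sum_mul]
        rw [Finset.sum_comm]
        refine Finset.sum_congr rfl fun t _ => ?_
        have h2 : ∀ j, Ψ V t j = ∑ i, ρ i t * ∑ a, A i a * V (a, j) := by
          intro j
          rw [hΨ]
          simp only [A', Finset.sum_mul, Finset.mul_sum]
          rw [Finset.sum_comm]
          exact Finset.sum_congr rfl fun i _ => Finset.sum_congr rfl fun a _ => by ring
        have h3 : ∀ j, h t * (Ψ V t j • lam j) =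
            ∑ i, (ρ i t : ℂ) * h t * ((∑ a, A i a * V (a, j)) • lam j) := by
          intro j
          rw [h2, Finset.sum_smul, Finset.mul_sum]
          refine Finset.sum_congr rfl fun i _ => ?_
          rw [smul_eq', smul_eq']
          push_cast
          ring
        rw [Finset.mul_sum, Finset.sum_congr rfl fun j _ => h3 j, Finset.sum_comm]
        refine Finset.sum_congr rfl fun i _ => ?_
        rw [Finset.mul_sum]
      rw [h1, ← Finset.sum_add_distrib]
      refine Finset.sum_congr rfl fun i _ => ?_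
      rw [← add_mul, ← hg]
    have e3 : ∑ i, g i * ∑ a, (B (i, a) : ℂ) * u a ∈ S2 ⊔ L := by
      refine Submodule.sum_mem _ fun i _ => ?_
      rw [hg i, add_mul]
      refine Submodule.add_mem _ (Submodule.mem_sup_left ?_) (Submodule.mem_sup_right ?_)
      · rw [Finset.sum_mul]
        refine Submodule.sum_mem _ fun t _ => ?_
        rw [Finset.mul_sum]
        refine Submodule.sum_mem _ fun a _ => ?_
        have h4 : (ρ i t : ℂ) * h t * ((B (i, a) : ℂ) * u a) =
            (ρ i t * B (i, a)) • (h t * u a) := by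
          rw [smul_eq']
          push_cast
          ring
        rw [h4]
        exact Submodule.smul_mem _ _ (Submodule.subset_span ⟨(t, a), rfl⟩)
      · have h4 : ∑ a, (B (i, a) : ℂ) * u a = ∑ j, (∑ a, B (i, a) * U (a, j)) • lam j := by
          simp only [hu, Finset.mul_sum, Finset.sum_smul]
          rw [Finset.sum_comm]
          refine Finset.sum_congr rfl fun j _ => Finset.sum_congr rfl fun a _ => ?_
          rw [mul_smul, smul_eq' (B (i, a))]
        rw [h4]
        exact hKu _ (hγ i) _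
    have e4 : ∑ l, p l * (y l : ℂ) ∈ S1 := by
      refine Submodule.sum_mem _ fun l _ => ?_
      rw [mul_comm, ← smul_eq']
      exact S1.smul_mem _ (Submodule.subset_span ⟨l, rfl⟩)
    have e5 : ∑ i, γ i * ∑ j, (∑ a, A i a * V (a, j)) • lam j ∈ L :=
      Submodule.sum_mem _ fun i _ => hKu _ (hγ i) _
    simp only [e1, mul_add, Finset.sum_add_distrib] at hBy
    rw [e2] at hBy
    obtain ⟨y0, hy0⟩ : ∃ y0, y0 = ∑ l, p l * (y l : ℂ) +
      (∑ i, g i * ∑ a, (B (i, a) : ℂ) * u a +
        (bT lam h (Ψ V) + ∑ i, γ i * ∑ j, (∑ a, A i a * V (a, j)) • lam j)) := ⟨_, rfl⟩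
    rw [← hy0] at hBy
    have h5 : bT lam h (Ψ V) = y0 - ∑ l, p l * (y l : ℂ) -
        ∑ i, g i * ∑ a, (B (i, a) : ℂ) * u a -
          ∑ i, γ i * ∑ j, (∑ a, A i a * V (a, j)) • lam j := by
      rw [hy0]
      ring
    rw [h5]
    refine Submodule.sub_mem _ (Submodule.sub_mem _ (Submodule.sub_mem _ ?_ ?_) ?_) ?_
    · exact Submodule.mem_sup_right hBy
    · exact Submodule.mem_sup_left (Submodule.mem_sup_left e4)
    · rw [sup_assoc]
      exact Submodule.mem_sup_right e3
    · exact Submodule.mem_sup_right e5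
  have h6 := Submodule.finrank_mono hle
  have h7 := finrank_comap_le Ψ (((S1 ⊔ S2) ⊔ L).comap (bT lam h))
  have h8 := finrank_comap_sup_le (bT lam h) (S1 ⊔ S2) L
  omega

end MP60829e.FD
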