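import Pool.Agent.Lib.MP_60829e_nt.FD.MainJ
import Pool.Agent.Lib.MP_60829e_nt.SB.Count
import Pool.Agent.Lib.MP_60829e_nt.BBaker

/-! # Spaces of finite dimension: the final form -/

open MvPolynomial Module

namespace MP60829e.FD

open MP60829e.ST (Qa Lsp Lt)
open MP60829e.FR

private theorem smul_eq' (c : Qa) (z : ℂ) : c • z = (c : ℂ) * z := rfl

/-- The span of the combinations `∑ j, U (a, j) lam j`. -/
noncomputable def LU {d r : ℕ} (lam : Fin r → ℂ) (U : Fin d × Fin r → Qa) : Submodule Qa ℂ :=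
  Submodule.span Qa (Set.range fun a : Fin d => ∑ j, (U (a, j) : ℂ) * lam j)

/-- Relations between elements of `LU lam U` are consequences of the linear ones. -/
def GoodU {N n d r : ℕ} (c : ℕ) (lam : Fin r → ℂ) (P : MvPolynomial (Fin N ⊕ Fin n) ℂ)
    (U : Fin d × Fin r → Qa) : Prop :=
  ∀ (z : Fin N → Qa) (w : Fin n → ℂ), (∀ i, w i ∈ LU lam U) →
    (N + (n - finrank Qa (Submodule.span Qa (Set.range w))) *
        finrank Qa (Submodule.span Qa (Set.range w)) + c + d ≤ r →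
      eval (Sum.elim (fun l => (z l : ℂ)) w) P = 0 →
      ∀ x : Fin n → ℂ, Rels w x → eval (Sum.elim (fun l => (z l : ℂ)) x) P = 0) ∧
    (N + (n - finrank Qa (Submodule.span Qa (Set.range w))) *
        finrank Qa (Submodule.span Qa (Set.range w)) + c + d + 3 ≤ r → d + n + 2 ≤ r →
      eval (Sum.elim (fun l => (z l : ℂ)) w) P ∈ Lt →
      ∃ (b : ℂ) (γ : Fin n → Qa), ∀ x : Fin n → ℂ, Rels w x →
        eval (Sum.elim (fun l => (z l : ℂ)) x) P = b + ∑ i, (γ i : ℂ) * x i)

private theorem ar0 {n N d r c k e J : ℕ} (hnr : d + n ≤ r) (hkn : k ≤ n)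
    (h : N + c + d ≤ r) (hJ : d * r < J + c) (he : 1 ≤ e) (hek : e ≤ k) :
    N + e * d + e * (e - 1) + d * r < J + e * r := by
  obtain ⟨f, rfl⟩ := Nat.exists_eq_add_of_le he
  rw [Nat.add_sub_cancel_left]
  obtain ⟨m, rfl⟩ := Nat.exists_eq_add_of_le (le_trans (Nat.le_add_right d n) hnr)
  have h1 : 1 + f ≤ m := by omega
  have h2 : N + c ≤ m := by omega
  have h3 : f * (1 + f) ≤ f * m := Nat.mul_le_mul_left _ h1
  nlinarith

private theorem arL {n N d r c k e J : ℕ} (hnr : d + n + 2 ≤ r) (hkn : k ≤ n)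
    (h : N + c + d + 3 ≤ r) (hJ : d * r < J + c) (he : 1 ≤ e) (hek : e ≤ k) :
    N + e * d + ((e + 1) * e + 1) + d * r < J + e * r := by
  obtain ⟨f, rfl⟩ := Nat.exists_eq_add_of_le he
  obtain ⟨m, rfl⟩ := Nat.exists_eq_add_of_le (show d ≤ r by omega)
  have h1 : 1 + f + 2 ≤ m := by omega
  have h2 : N + c + 3 ≤ m := by omega
  have h3 : f * (1 + f + 2) ≤ f * m := Nat.mul_le_mul_left _ h1
  nlinarith

/-- The dimension of the exceptional set. -/
theorem dim_form {n N d r c : ℕ} (hnr : d + n ≤ r) (lam : Fin r → ℂ)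
    (hli : LinearIndependent Qa lam) (hlog : ∀ j, lam j ∈ Lsp)
    (P : MvPolynomial (Fin N ⊕ Fin n) ℂ) (J : Finset (Fin d × Fin r))
    (hJ : d * r < J.card + c) :
    ∃ D : MvPolynomial (Fin d × Fin r) Qa, D ≠ 0 ∧ D.vars ⊆ J ∧
      ∀ U : Fin d × Fin r → Qa, eval U D ≠ 0 → GoodU c lam P U := by
  classical
  let T : Type := Σ k : Fin (n + 1), (Fin (k : ℕ) ↪ Fin n)
  have key1 : ∀ t : T, ∃ D : MvPolynomial (Fin d × Fin r) Qa, D ≠ 0 ∧ D.vars ⊆ J ∧
      (N + (n - t.1) * t.1 + c + d ≤ r → ∀ U : Fin d × Fin r → Qa, eval U D ≠ 0 →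
        ∀ (z : Fin (N + kp t.2) → Qa) (A : Fin (t.1 : ℕ) → Fin d → Qa),
          LinearIndependent Qa A →
          eval (Sum.elim (fun l => (z l : ℂ))
            (fun i => ∑ a, (A i a : ℂ) * ∑ j, (U (a, j) : ℂ) * lam j)) (PT t.2 P) = 0 →
          ∀ v : Fin (t.1 : ℕ) → ℂ, eval (Sum.elim (fun l => (z l : ℂ)) v) (PT t.2 P) = 0) := by
    intro t
    by_cases ht : N + (n - t.1) * t.1 + c + d ≤ r
    · obtain ⟨D, hD, hv, h⟩ := mainJ J lam hli hlog (PT t.2 P) (fun e he1 he2 => by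
        rw [kp_eq]
        exact ar0 hnr (le_of_emb t.2) ht hJ he1 he2)
      exact ⟨D, hD, hv, fun _ => h⟩
    · exact ⟨1, one_ne_zero, by rw [vars_one]; exact Finset.empty_subset _,
        fun h => absurd h ht⟩
  have key2 : ∀ t : T, ∃ D : MvPolynomial (Fin d × Fin r) Qa, D ≠ 0 ∧ D.vars ⊆ J ∧
      (N + (n - t.1) * t.1 + c + d + 3 ≤ r → d + n + 2 ≤ r →
        ∀ U : Fin d × Fin r → Qa, eval U D ≠ 0 →
        ∀ (z : Fin (N + kp t.2) → Qa) (A : Fin (t.1 : ℕ) → Fin d → Qa),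
          LinearIndependent Qa A →
          eval (Sum.elim (fun l => (z l : ℂ))
            (fun i => ∑ a, (A i a : ℂ) * ∑ j, (U (a, j) : ℂ) * lam j)) (PT t.2 P) ∈ Lt →
          ∃ (b : ℂ) (γ : Fin (t.1 : ℕ) → Qa), ∀ v : Fin (t.1 : ℕ) → ℂ,
            eval (Sum.elim (fun l => (z l : ℂ)) v) (PT t.2 P) = b + ∑ i, (γ i : ℂ) * v i) := by
    intro t
    by_cases ht : N + (n - t.1) * t.1 + c + d + 3 ≤ r ∧ d + n + 2 ≤ r
    · obtain ⟨D, hD, hv, h⟩ := mainLJ J lam hli hlog (PT t.2 P) (fun e he1 he2 => by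
        rw [kp_eq]
        exact arL ht.2 (le_of_emb t.2) ht.1 hJ he1 he2)
      exact ⟨D, hD, hv, fun _ _ => h⟩
    · exact ⟨1, one_ne_zero, by rw [vars_one]; exact Finset.empty_subset _,
        fun h h' => absurd ⟨h, h'⟩ ht⟩
  choose D1 hD1 hv1 h1 using key1
  choose D2 hD2 hv2 h2 using key2
  refine ⟨(∏ t, D1 t) * ∏ t, D2 t, mul_ne_zero (Finset.prod_ne_zero_iff.2 fun t _ => hD1 t)
    (Finset.prod_ne_zero_iff.2 fun t _ => hD2 t), ?_, ?_⟩
  · refine (vars_mul _ _).trans (Finset.union_subset ?_ ?_)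
    · refine (vars_prod _).trans (Finset.biUnion_subset.2 fun t _ => hv1 t)
    · refine (vars_prod _).trans (Finset.biUnion_subset.2 fun t _ => hv2 t)
  intro U hU z w hw
  rw [map_mul, map_prod, map_prod] at hU
  have hU1 := fun t => Finset.prod_ne_zero_iff.1 (left_ne_zero_of_mul hU) t (Finset.mem_univ t)
  have hU2 := fun t => Finset.prod_ne_zero_iff.1 (right_ne_zero_of_mul hU) t (Finset.mem_univ t)
  obtain ⟨k, ι, A, hwli, hA⟩ := exists_basis w
  -- the rank
  have hspan : Submodule.span Qa (Set.range w) =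
      Submodule.span Qa (Set.range fun j => w (ι j)) := by
    apply le_antisymm
    · rw [Submodule.span_le]
      rintro _ ⟨i, rfl⟩
      rw [hA w (fun q hq => hq) i]
      exact Submodule.sum_mem _ fun j _ => Submodule.smul_mem _ _
        (Submodule.subset_span ⟨j, rfl⟩)
    · refine Submodule.span_mono ?_
      rintro _ ⟨j, rfl⟩
      exact ⟨ι j, rfl⟩
  have hrank : finrank Qa (Submodule.span Qa (Set.range w)) = k := by
    rw [hspan, finrank_span_eq_card hwli, Fintype.card_fin]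
  rw [hrank]
  -- the coordinates
  have hM : ∀ j, ∃ M : Fin d → Qa,
      ∑ a, M a • ∑ j', (U (a, j') : ℂ) * lam j' = w (ι j) := fun j =>
    (Submodule.mem_span_range_iff_exists_fun Qa).1 (hw (ι j))
  choose M hM using hM
  have hMli : LinearIndependent Qa M := by
    rw [Fintype.linearIndependent_iff]
    intro a ha
    refine Fintype.linearIndependent_iff.1 hwli a ?_
    calc ∑ j, a j • w (ι j)
        = ∑ b, (∑ j, a j • M j) b • ∑ j', (U (b, j') : ℂ) * lam j' := by
          simp only [Finset.sum_apply, Pi.smul_apply, smul_eq_mul, Finset.sum_smul]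
          rw [Finset.sum_comm]
          refine Finset.sum_congr rfl fun j _ => ?_
          rw [← hM, Finset.smul_sum]
          refine Finset.sum_congr rfl fun b _ => ?_
          rw [mul_smul]
      _ = 0 := by
          rw [ha]
          simp
  have hpt : (fun j => ∑ a, (M j a : ℂ) * ∑ j', (U (a, j') : ℂ) * lam j') =
      fun j => w (ι j) := funext fun j => hM j
  let t : T := ⟨⟨k, by have := le_of_emb ι; omega⟩, ι⟩
  refine ⟨fun hk h0 x hx => ?_, fun hk hn2 h0 => ?_⟩
  · have h3 := h1 t hk U (hU1 t) (za ι z A) M hMli (by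
      rw [hpt]
      exact (eval_PT ι P z A w (hA w fun q hq => hq)).trans h0)
    rw [← eval_PT ι P z A x (hA x hx)]
    exact h3 _
  · obtain ⟨b, γ, hγ⟩ := h2 t hk hn2 U (hU2 t) (za ι z A) M hMli (by
      rw [hpt]
      have h3 : eval (Sum.elim (fun l => (za ι z A l : ℂ)) (fun j => w (ι j))) (PT ι P) ∈ Lt := by
        rw [eval_PT ι P z A w (hA w fun q hq => hq)]
        exact h0
      exact h3)
    refine ⟨b, fun i => ∑ j, if ι j = i then γ j else 0, fun x hx => ?_⟩
    rw [← eval_PT ι P z A x (hA x hx)]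
    refine (hγ _).trans ?_
    congr 1
    push_cast
    simp only [Finset.sum_mul]
    rw [Finset.sum_comm]
    refine Finset.sum_congr rfl fun j _ => ?_
    rw [Finset.sum_eq_single (ι j)]
    · rw [if_pos rfl]
    · intro i _ hi
      rw [if_neg (Ne.symm hi), ZeroMemClass.coe_zero, zero_mul]
    · intro hh
      exact absurd (Finset.mem_univ _) hh

/-- Baker: independence over the algebraic numbers -/
theorem baker_fin {r : ℕ} (lam : Fin r → ℂ)
    (hl : ∀ i, IsAlgebraic ℚ (Complex.exp (lam i))) (hli : LinearIndependent ℚ lam) :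
    LinearIndependent Qa lam := by
  rw [Fintype.linearIndependent_iff]
  intro g hg i
  have h1 : ∑ i, lam i * ((g i : Qa) : ℂ) = 0 := by
    rw [← hg]
    refine Finset.sum_congr rfl fun i _ => ?_
    rw [mul_comm]
    rfl
  have h2 := Pool.Agent.Lib.MP_60829e_nt.Bk.baker_hom lam hl hli (fun i => ((g i : Qa) : ℂ))
    (fun i => (mem_algebraicClosure_iff.1 (g i).2)) h1 i
  exact Subtype.ext h2

end MP60829e.FD
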