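import Pool.Agent.Lib.MP_60829e_nt.FD.Fin

/-! # Spaces of finite dimension: the final form in Mathlib words -/

open MvPolynomial Module

namespace MP60829e.FD

open MP60829e.ST (Qa Lsp Lt)
open MP60829e.FR

private theorem rels_of {n : ℕ} {w x : Fin n → ℂ} (h : ∀ q : Fin n → ℂ,
    (∀ j, IsAlgebraic ℚ (q j)) → ∑ j, q j * w j = 0 → ∑ j, q j * x j = 0) : Rels w x := by
  intro q hq
  exact h (fun j => (q j : ℂ)) (fun j => mem_algebraicClosure_iff.1 (q j).2) hq

/-- A finite set of polynomials with the property of `dim_form` and its zeros in grids. -/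
theorem exists_G {d r c : ℕ}
    (F : Finset (Fin d × Fin r) → MvPolynomial (Fin d × Fin r) Qa)
    (hF : ∀ J : Finset (Fin d × Fin r), d * r < J.card + c → F J ≠ 0 ∧ (F J).vars ⊆ J) :
    ∃ G : Finset (MvPolynomial (Fin d × Fin r) ℂ),
      (∀ D ∈ G, ∃ J : Finset (Fin d × Fin r), d * r < J.card + c ∧
        D = map (algebraMap Qa ℂ) (F J)) ∧
      (∀ D ∈ G, ∀ a, IsAlgebraic ℚ (coeff a D)) ∧
      (∀ J : Finset (Fin d × Fin r), d * r < J.card + c → ∃ D ∈ G, D ≠ 0 ∧ D.vars ⊆ J) ∧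
      ∃ K : ℕ, ∀ S : Finset ℂ, S.Nonempty →
        {U : Fin d × Fin r → ℂ | (∀ D ∈ G, eval U D = 0) ∧ ∀ p, U p ∈ S}.ncard ≤
          K * S.card ^ (d * r - c) := by
  classical
  have hinj : Function.Injective (map (σ := Fin d × Fin r) (algebraMap Qa ℂ)) :=
    map_injective _ (algebraMap Qa ℂ).injective
  set G : Finset (MvPolynomial (Fin d × Fin r) ℂ) :=
    (Finset.univ.filter fun J : Finset (Fin d × Fin r) => d * r < J.card + c).image
      fun J => map (algebraMap Qa ℂ) (F J) with hG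
  have hmem : ∀ D, D ∈ G ↔ ∃ J : Finset (Fin d × Fin r), d * r < J.card + c ∧
      map (algebraMap Qa ℂ) (F J) = D := by
    intro D
    rw [hG, Finset.mem_image]
    refine exists_congr fun J => ?_
    rw [Finset.mem_filter]
    simp
  have h2 : ∀ J : Finset (Fin d × Fin r), d * r < J.card + c →
      map (algebraMap Qa ℂ) (F J) ≠ 0 ∧ (map (algebraMap Qa ℂ) (F J)).vars ⊆ J := by
    intro J hJ
    refine ⟨fun h0 => (hF J hJ).1 (hinj (by rw [h0, map_zero])), ?_⟩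
    rw [vars_map_of_injective _ (algebraMap Qa ℂ).injective]
    exact (hF J hJ).2
  refine ⟨G, fun D hD => ?_, fun D hD a => ?_, fun J hJ => ?_, ?_⟩
  · obtain ⟨J, hJ, rfl⟩ := (hmem D).1 hD
    exact ⟨J, hJ, rfl⟩
  · obtain ⟨J, -, rfl⟩ := (hmem D).1 hD
    rw [coeff_map]
    exact mem_algebraicClosure_iff.mp (Subtype.mem _)
  · exact ⟨_, (hmem _).2 ⟨J, hJ, rfl⟩, h2 J hJ⟩
  · set e : Fin d × Fin r ≃ Fin (d * r) := finProdFinEquiv with he
    set B : Set (Fin (d * r) → ℂ) := {x | ∀ D ∈ G, eval (x ∘ e) D = 0} with hB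
    obtain ⟨K, hK⟩ := SB.grid_count (d * r - c) B (by
      intro J hJ
      have hJ' : d * r < (J.map e.symm.toEmbedding).card + c := by
        rw [Finset.card_map]
        omega
      obtain ⟨h3, h4⟩ := h2 _ hJ'
      refine ⟨rename e (map (algebraMap Qa ℂ) (F (J.map e.symm.toEmbedding))), ?_, ?_, ?_⟩
      · intro h0
        exact h3 (rename_injective _ e.injective (by rw [h0, map_zero]))
      · refine (vars_rename _ _).trans fun x hx => ?_
        obtain ⟨y, hy, rfl⟩ := Finset.mem_image.1 hx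
        obtain ⟨w, hw, hwy⟩ := Finset.mem_map.1 (h4 hy)
        rw [← hwy]
        simpa using hw
      · intro x hx
        rw [eval_rename]
        exact hx _ ((hmem _).2 ⟨_, hJ', rfl⟩))
    refine ⟨K, fun S hS => le_trans (le_of_eq ?_) (hK S hS)⟩
    refine Set.ncard_congr (fun M _ => M ∘ e.symm) ?_ ?_ ?_
    · rintro M ⟨h3, h4⟩
      refine ⟨fun D hD => ?_, fun i => h4 _⟩
      have h5 : (M ∘ e.symm) ∘ e = M := by
        funext p
        simp
      rw [h5]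
      exact h3 D hD
    · intro M M' _ _ h3
      funext p
      have := congrFun h3 (e p)
      simpa using this
    · rintro x ⟨h3, h4⟩
      refine ⟨x ∘ e, ⟨fun D hD => h3 D hD, fun p => h4 _⟩, ?_⟩
      funext i
      simp

/-- THEOREM. The span of a generic tuple of combinations of given logarithms. -/
theorem final {n N d r c : ℕ} (hnr : d + n ≤ r) (lam : Fin r → ℂ)
    (halg : ∀ j, IsAlgebraic ℚ (Complex.exp (lam j))) (hli : LinearIndependent ℚ lam)
    (P : MvPolynomial (Fin N ⊕ Fin n) ℂ) :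
    ∃ G : Finset (MvPolynomial (Fin d × Fin r) ℂ),
      (∀ D ∈ G, ∀ a, IsAlgebraic ℚ (coeff a D)) ∧
      (∀ J : Finset (Fin d × Fin r), d * r < J.card + c → ∃ D ∈ G, D ≠ 0 ∧ D.vars ⊆ J) ∧
      (∃ K : ℕ, ∀ S : Finset ℂ, S.Nonempty →
        {U : Fin d × Fin r → ℂ | (∀ D ∈ G, eval U D = 0) ∧ ∀ p, U p ∈ S}.ncard ≤
          K * S.card ^ (d * r - c)) ∧
      ∀ U : Fin d × Fin r → ℂ, (∀ p, IsAlgebraic ℚ (U p)) → (∃ D ∈ G, eval U D ≠ 0) →
        ∀ (z : Fin N → ℂ) (w : Fin n → ℂ) (k : ℕ), (∀ l, IsAlgebraic ℚ (z l)) →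
          (∀ i, w i ∈ Submodule.span (algebraicClosure ℚ ℂ)
            (Set.range fun a : Fin d => ∑ j, U (a, j) * lam j)) →
          finrank (algebraicClosure ℚ ℂ)
            (Submodule.span (algebraicClosure ℚ ℂ) (Set.range w)) = k →
          (d + N + k * (n - k) + c ≤ r → eval (Sum.elim z w) P = 0 →
            ∀ x : Fin n → ℂ, (∀ q : Fin n → ℂ, (∀ j, IsAlgebraic ℚ (q j)) →
              ∑ j, q j * w j = 0 → ∑ j, q j * x j = 0) → eval (Sum.elim z x) P = 0) ∧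
          (d + N + k * (n - k) + c + 3 ≤ r → d + n + 2 ≤ r →
            eval (Sum.elim z w) P ∈ Submodule.span (algebraicClosure ℚ ℂ)
              ({1} ∪ {l : ℂ | IsAlgebraic ℚ (Complex.exp l)}) →
            ∃ (b : ℂ) (a : Fin n → ℂ), (∀ j, IsAlgebraic ℚ (a j)) ∧
              ∀ x : Fin n → ℂ, (∀ q : Fin n → ℂ, (∀ j, IsAlgebraic ℚ (q j)) →
                ∑ j, q j * w j = 0 → ∑ j, q j * x j = 0) →
                eval (Sum.elim z x) P = b + ∑ j, a j * x j) := by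
  classical
  have hlam := baker_fin lam halg hli
  have hlog : ∀ j, lam j ∈ Lsp := fun j => Submodule.subset_span (halg j)
  have hex : ∀ J : Finset (Fin d × Fin r), ∃ D : MvPolynomial (Fin d × Fin r) Qa,
      d * r < J.card + c → (D ≠ 0 ∧ D.vars ⊆ J) ∧
        ∀ U : Fin d × Fin r → Qa, eval U D ≠ 0 → GoodU c lam P U := by
    intro J
    by_cases hJ : d * r < J.card + c
    · obtain ⟨D, h1, h2, h3⟩ := dim_form hnr lam hlam hlog P J hJ
      exact ⟨D, fun _ => ⟨⟨h1, h2⟩, h3⟩⟩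
    · exact ⟨0, fun h => absurd h hJ⟩
  choose F hF using hex
  obtain ⟨G, hG1, hG2, hG3, hG4⟩ := exists_G (c := c) F fun J hJ => (hF J hJ).1
  refine ⟨G, hG2, hG3, hG4, ?_⟩
  rintro U hU ⟨D, hD, hDU⟩ z w k hz hw hk
  obtain ⟨J, hJ, rfl⟩ := hG1 D hD
  obtain ⟨U', rfl⟩ : ∃ U' : Fin d × Fin r → Qa, U = fun p => (U' p : ℂ) :=
    ⟨fun p => ⟨U p, mem_algebraicClosure_iff.2 (hU p)⟩, rfl⟩
  obtain ⟨z', rfl⟩ : ∃ z' : Fin N → Qa, z = fun l => (z' l : ℂ) :=
    ⟨fun l => ⟨z l, mem_algebraicClosure_iff.2 (hz l)⟩, rfl⟩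
  have h1 : eval U' (F J) ≠ 0 := by
    intro h0
    apply hDU
    have h2 : eval (fun p => ((U' p : Qa) : ℂ)) (map (algebraMap Qa ℂ) (F J)) =
        algebraMap Qa ℂ (eval U' (F J)) := by
      rw [eval_map]
      exact (eval₂_comp_left (algebraMap Qa ℂ) (RingHom.id _) U' (F J)).symm
    rw [h2, h0, map_zero]
  obtain ⟨h2, h3⟩ := (hF J hJ).2 U' h1 z' w hw
  rw [hk] at h2 h3
  refine ⟨fun hkr h0 x hx => h2 ?_ h0 x (rels_of hx), fun hkr hn2 h0 => ?_⟩
  · rw [mul_comm (n - k) k]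
    omega
  · obtain ⟨b, γ, hγ⟩ := h3 (by rw [mul_comm (n - k) k]; omega) hn2 h0
    exact ⟨b, fun j => γ j, fun j => mem_algebraicClosure_iff.1 (γ j).2,
      fun x hx => hγ x (rels_of hx)⟩

end MP60829e.FD
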