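import Pool.Agent.Lib.MP_60829e_nt.FD.Sharp

/-! # Values which are linear forms in logarithms, at the span of a generic tuple -/

open MvPolynomial Module

namespace MP60829e.FD

open MP60829e.ST (Qa Lsp Lt)
open MP60829e.FC (forms gs_gen)
open MP60829e.FR

private theorem smul_eq' (c : Qa) (z : ℂ) : c • z = (c : ℂ) * z := rfl

/-- The tangent directions at a generic tuple, for a value in a space `L`. -/
theorem tangentL {N n d r : ℕ} {I : Type} (L : Submodule Qa ℂ)
    (Y : I → Fin d × Fin r → Qa) (W : Ultrafilter I)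
    (hW : ∀ D : MvPolynomial (Fin d × Fin r) Qa, D ≠ 0 →
      ∀ᶠ a in (W : Filter I), eval (Y a) D ≠ 0)
    (lam : Fin r → ℂ) (G : MvPolynomial (Fin N ⊕ Fin n) ℂ)
    (A : I → Fin n × Fin d → Qa) (z : I → Fin N → Qa)
    (h2 : ∀ᶠ a in (W : Filter I), eval (pt2 lam (mul2 (A a) (Y a)) (z a)) G ∈ L) :
    ∀ᶠ a in (W : Filter I), ∀ V : Fin d × Fin r → Qa,
      ∃ (B : Fin n × Fin d → Qa) (h : Fin N → Qa),
        ∑ l, eval (pt2 lam (mul2 (A a) (Y a)) (z a)) (pderiv (Sum.inl l) G) * (h l : ℂ) +
          ∑ i, eval (pt2 lam (mul2 (A a) (Y a)) (z a)) (pderiv (Sum.inr i) G) *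
            TV.pt lam (fun p => mul2 B (Y a) p + mul2 (A a) V p) i ∈ L := by
  classical
  obtain ⟨q, P', hP1, hP2⟩ := forms L
    (sub3 lam G : MvPolynomial ((Fin d × Fin r) ⊕ ((Fin n × Fin d) ⊕ Fin N)) ℂ)
  have h3 : ∀ᶠ a in (W : Filter I), ∀ j,
      eval (Sum.elim (Y a) (Sum.elim (A a) (z a))) (P' j) = 0 := by
    filter_upwards [h2] with a ha2 j
    refine hP1 _ ?_ j
    rw [ev_sub3]
    exact ha2
  have h4 := gs_gen W Y hW P' (fun a => Sum.elim (A a) (z a)) h3
  filter_upwards [h4] with a ha V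
  obtain ⟨η, hη⟩ := ha V
  have h5 : TV.dv (Sum.elim (Y a) (Sum.elim (A a) (z a))) (Sum.elim V η)
      (sub3 lam G) ∈ L := by
    refine hP2 _ _ fun j => ?_
    rw [Fintype.sum_sum_type]
    exact hη j
  refine ⟨fun p => η (Sum.inl p), fun l => η (Sum.inr l), ?_⟩
  have h6 : η = Sum.elim (fun p => η (Sum.inl p)) (fun j => η (Sum.inr j)) := by
    funext t
    rcases t with t | t <;> rfl
  rw [h6, dv_sub3] at h5
  exact h5

/-- The count with values in `L`. The numbers `h s` and the algebraic numbers generate the `g i`; the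
products of the constants with the linear forms in `lam` are in `L`. -/
theorem countL {N n d r e : ℕ} (L K0 : Submodule Qa ℂ) (lam : Fin r → ℂ)
    (U : Fin d × Fin r → Qa) (A : Fin n → Fin d → Qa) (hA : LinearIndependent Qa A)
    (g : Fin n → ℂ) (p : Fin N → ℂ) (h : Fin e → ℂ) (ρ : Fin n → Fin e → Qa) (γ : Fin n → ℂ)
    (q : Fin e → Fin n → Qa) (δ : Fin e → ℂ) (hγ : ∀ i, γ i ∈ K0) (hδ : ∀ s, δ s ∈ K0)
    (hK : ∀ c ∈ K0, ∀ j, c * lam j ∈ L)
    (hg : ∀ i, g i = ∑ s, (ρ i s : ℂ) * h s + γ i)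
    (hq : ∀ s, ∑ i, (q s i : ℂ) * g i = h s + δ s)
    (hT : ∀ V : Fin d × Fin r → Qa, ∃ (B : Fin n × Fin d → Qa) (y : Fin N → Qa),
      ∑ l, p l * (y l : ℂ) +
        ∑ i, g i * TV.pt lam (fun q => mul2 B U q + mul2 (fun q => A q.1 q.2) V q) i ∈ L) :
    e * r ≤ N + e * d + finrank Qa (L.comap (bT lam h)) := by
  classical
  -- the numbers `u`
  set u : Fin d → ℂ := fun a => ∑ j, U (a, j) • lam j with hu
  set S1 : Submodule Qa ℂ := Submodule.span Qa (Set.range p) with hS1
  set S2 : Submodule Qa ℂ := Submodule.span Qa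
    (Set.range fun x : Fin e × Fin d => h x.1 * u x.2) with hS2
  have hf1 : FiniteDimensional Qa S1 := FiniteDimensional.span_of_finite Qa (Set.finite_range p)
  have hf2 : FiniteDimensional Qa S2 :=
    FiniteDimensional.span_of_finite Qa (Set.finite_range _)
  have hS1N : finrank Qa S1 ≤ N := by
    have := finrank_range_le_card (R := Qa) p
    rwa [Fintype.card_fin] at this
  have hS2N : finrank Qa S2 ≤ e * d := by
    have := finrank_range_le_card (R := Qa) (fun x : Fin e × Fin d => h x.1 * u x.2)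
    rwa [Fintype.card_prod, Fintype.card_fin, Fintype.card_fin] at this
  have hfS : FiniteDimensional Qa (S1 ⊔ S2 : Submodule Qa ℂ) :=
    Submodule.finiteDimensional_sup _ _
  have hSN : finrank Qa (S1 ⊔ S2 : Submodule Qa ℂ) ≤ N + e * d :=
    (Submodule.finrank_add_le_finrank_add_finrank S1 S2).trans (by omega)
  have hKu : ∀ c ∈ K0, ∀ f : Fin r → Qa, c * ∑ j, f j • lam j ∈ L := by
    intro c hc f
    rw [Finset.mul_sum]
    refine Submodule.sum_mem _ fun j _ => ?_
    rw [mul_smul_comm]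
    exact L.smul_mem _ (hK c hc j)
  have htop : ((S1 ⊔ S2) ⊔ L).comap (bT lam h) = ⊤ := by
    rw [eq_top_iff]
    intro T' _
    rw [Submodule.mem_comap]
    obtain ⟨ψ, hψ⟩ := exists_psi A hA (fun i j => ∑ t, q t i * T' t j)
    obtain ⟨B, y, hBy⟩ := hT (fun x => ψ (x.2, x.1))
    have e1 : ∀ i, TV.pt lam (fun x => mul2 B U x +
        mul2 (fun x => A x.1 x.2) (fun x => ψ (x.2, x.1)) x) i =
        ∑ a, (B (i, a) : ℂ) * u a + ∑ t, (q t i : ℂ) * ∑ j, T' t j • lam j := by
      intro i
      have h3 : ∀ j, mul2 (fun x => A x.1 x.2) (fun x => ψ (x.2, x.1)) (i, j) =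
          ∑ t, q t i * T' t j := by
        intro j
        rw [← hψ i j]
        rfl
      unfold TV.pt
      simp only [h3, add_smul, Finset.sum_add_distrib]
      congr 1
      · simp only [mul2, Finset.sum_smul, hu, Finset.mul_sum]
        rw [Finset.sum_comm]
        refine Finset.sum_congr rfl fun a _ => Finset.sum_congr rfl fun j _ => ?_
        rw [mul_smul, smul_eq']
      · simp only [Finset.sum_smul, Finset.mul_sum]
        rw [Finset.sum_comm]
        refine Finset.sum_congr rfl fun t _ => Finset.sum_congr rfl fun j _ => ?_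
        rw [mul_smul, smul_eq']
    have e2 : ∑ i, g i * ∑ t, (q t i : ℂ) * ∑ j, T' t j • lam j =
        bT lam h T' + ∑ t, δ t * ∑ j, T' t j • lam j := by
      rw [bT_apply, ← Finset.sum_add_distrib]
      simp only [← add_mul]
      simp only [← hq, Finset.sum_mul, Finset.mul_sum]
      rw [Finset.sum_comm]
      refine Finset.sum_congr rfl fun t _ => ?_
      rw [Finset.sum_comm]
      refine Finset.sum_congr rfl fun j _ => Finset.sum_congr rfl fun i _ => ?_
      ring
    have e3 : ∑ i, g i * ∑ a, (B (i, a) : ℂ) * u a ∈ S2 ⊔ L := by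
      refine Submodule.sum_mem _ fun i _ => ?_
      rw [hg i, add_mul]
      refine Submodule.add_mem _ (Submodule.mem_sup_left ?_) (Submodule.mem_sup_right ?_)
      · rw [Finset.sum_mul]
        refine Submodule.sum_mem _ fun t _ => ?_
        rw [Finset.mul_sum]
        refine Submodule.sum_mem _ fun a _ => ?_
        have h4 : (ρ i t : ℂ) * h t * ((B (i, a) : ℂ) * u a) =
            (ρ i t * B (i, a)) • (h t * u a) := by
          rw [smul_eq']
          push_cast
          ring
        rw [h4]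
        exact Submodule.smul_mem _ _ (Submodule.subset_span ⟨(t, a), rfl⟩)
      · have h4 : ∑ a, (B (i, a) : ℂ) * u a = ∑ j, (∑ a, B (i, a) * U (a, j)) • lam j := by
          simp only [hu, Finset.mul_sum, Finset.sum_smul]
          rw [Finset.sum_comm]
          refine Finset.sum_congr rfl fun j _ => Finset.sum_congr rfl fun a _ => ?_
          rw [mul_smul, smul_eq' (B (i, a))]
        rw [h4]
        exact hKu _ (hγ i) _
    have e4 : ∑ l, p l * (y l : ℂ) ∈ S1 := by
      refine Submodule.sum_mem _ fun l _ => ?_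
      rw [mul_comm, ← smul_eq']
      exact S1.smul_mem _ (Submodule.subset_span ⟨l, rfl⟩)
    have e5 : ∑ t, δ t * ∑ j, T' t j • lam j ∈ L :=
      Submodule.sum_mem _ fun t _ => hKu _ (hδ t) _
    simp only [e1, mul_add, Finset.sum_add_distrib] at hBy
    rw [e2] at hBy
    obtain ⟨y0, hy0⟩ : ∃ y0, y0 = ∑ l, p l * (y l : ℂ) +
      (∑ i, g i * ∑ a, (B (i, a) : ℂ) * u a +
        (bT lam h T' + ∑ t, δ t * ∑ j, T' t j • lam j)) := ⟨_, rfl⟩
    rw [← hy0] at hBy
    have h5 : bT lam h T' = y0 - ∑ l, p l * (y l : ℂ) -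
        ∑ i, g i * ∑ a, (B (i, a) : ℂ) * u a - ∑ t, δ t * ∑ j, T' t j • lam j := by
      rw [hy0]
      ring
    rw [h5]
    refine Submodule.sub_mem _ (Submodule.sub_mem _ (Submodule.sub_mem _ ?_ ?_) ?_) ?_
    · exact Submodule.mem_sup_right hBy
    · exact Submodule.mem_sup_left (Submodule.mem_sup_left e4)
    · rw [sup_assoc]
      exact Submodule.mem_sup_right e3
    · exact Submodule.mem_sup_right e5
  have h3 := finrank_comap_sup_le (bT lam h) (S1 ⊔ S2) L
  rw [htop, finrank_top, Module.finrank_pi_fintype] at h3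
  simp only [Module.finrank_fin_fun, Finset.sum_const, Finset.card_univ, Fintype.card_fin,
    smul_eq_mul] at h3
  omega

/-- Case A: the gradient is algebraic. -/
theorem caseA {N n d r : ℕ} (lam : Fin r → ℂ) (hli : LinearIndependent Qa lam)
    (hlog : ∀ j, lam j ∈ Lsp)
    (h2 : ∀ e, 1 ≤ e → e ≤ n → N + ((e + 1) * e + 1) + e * d < r * e)
    (U : Fin d × Fin r → Qa) (A : Fin n → Fin d → Qa) (hA : LinearIndependent Qa A)
    (g : Fin n → ℂ) (p : Fin N → ℂ)
    (hT : ∀ V : Fin d × Fin r → Qa, ∃ (B : Fin n × Fin d → Qa) (y : Fin N → Qa),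
      ∑ l, p l * (y l : ℂ) +
        ∑ i, g i * TV.pt lam (fun q => mul2 B U q + mul2 (fun q => A q.1 q.2) V q) i ∈ Lt) :
    ∀ i, ∃ γ : Qa, g i = (γ : ℂ) := by
  obtain ⟨e, h, ρ, γ, q, δ, hen, hh, hg, hq⟩ := exists_h g
  have hmem : ∀ c : Qa, (c : ℂ) ∈ Submodule.span Qa {(1 : ℂ)} := by
    intro c
    rw [Submodule.mem_span_singleton]
    exact ⟨c, by rw [smul_eq', mul_one]⟩
  have h1 := countL Lt (Submodule.span Qa {(1 : ℂ)}) lam U A hA g p h ρ (fun i => (γ i : ℂ)) q
    (fun s => (δ s : ℂ)) (fun i => hmem _) (fun s => hmem _) (by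
      intro c hc j
      rw [Submodule.mem_span_singleton] at hc
      obtain ⟨c, rfl⟩ := hc
      rw [smul_mul_assoc, one_mul]
      refine Lt.smul_mem _ ?_
      rw [Lt_eq]
      exact Submodule.mem_sup_right (hlog j)) hg hq hT
  have h3 := finrank_comap_Lt lam hli hlog h hh
  by_cases he : e = 0
  · subst he
    intro i
    refine ⟨γ i, ?_⟩
    rw [hg i]
    simp
  · exfalso
    have h4 := h2 e (by omega) hen
    have h5 : e * r = r * e := mul_comm _ _
    omega

/-- Case B: a value which is algebraic has vanishing gradient. -/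
theorem caseB {N n d r : ℕ} (lam : Fin r → ℂ) (hli : LinearIndependent Qa lam)
    (hlog : ∀ j, lam j ∈ Lsp)
    (h2 : ∀ e, 1 ≤ e → e ≤ n → N + ((e + 1) * e + 1) + e * d < r * e)
    (U : Fin d × Fin r → Qa) (A : Fin n → Fin d → Qa) (hA : LinearIndependent Qa A)
    (g : Fin n → ℂ) (p : Fin N → ℂ)
    (hT : ∀ V : Fin d × Fin r → Qa, ∃ (B : Fin n × Fin d → Qa) (y : Fin N → Qa),
      ∑ l, p l * (y l : ℂ) +
        ∑ i, g i * TV.pt lam (fun q => mul2 B U q + mul2 (fun q => A q.1 q.2) V q) i ∈
          Submodule.span Qa {(1 : ℂ)}) :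
    g = 0 := by
  classical
  set G : Submodule Qa ℂ := Submodule.span Qa (Set.range g) with hG
  have hfin : FiniteDimensional Qa G := FiniteDimensional.span_of_finite Qa (Set.finite_range g)
  have hle : finrank Qa G ≤ n := by
    have := finrank_range_le_card (R := Qa) g
    rwa [Fintype.card_fin] at this
  by_cases h0 : finrank Qa G = 0
  · have h3 : G = ⊥ := Submodule.finrank_eq_zero.1 h0
    funext i
    have h4 : g i ∈ G := Submodule.subset_span ⟨i, rfl⟩
    rw [h3, Submodule.mem_bot] at h4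
    exact h4
  exfalso
  let B0 : Basis (Fin (finrank Qa G)) Qa G := finBasis Qa G
  set b : Fin (finrank Qa G) → ℂ := fun t => (B0 t : ℂ) with hb
  have hbli : LinearIndependent Qa b :=
    B0.linearIndependent.map' G.subtype (Submodule.ker_subtype G)
  have hmem : ∀ i, g i ∈ G := fun i => Submodule.subset_span ⟨i, rfl⟩
  have hρ : ∀ i, g i = ∑ t, (B0.repr ⟨g i, hmem i⟩ t : ℂ) * b t + (0 : ℂ) := by
    intro i
    have h3 := congrArg G.subtype (B0.sum_repr ⟨g i, hmem i⟩)
    rw [map_sum] at h3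
    simp only [map_smul, Submodule.subtype_apply] at h3
    rw [add_zero]
    exact h3.symm
  have hq : ∀ t, ∃ q : Fin n → Qa, ∑ i, q i • g i = b t := by
    intro t
    exact (Submodule.mem_span_range_iff_exists_fun Qa).1 (B0 t).2
  choose q hq using hq
  have h1 := countL (Submodule.span Qa {(1 : ℂ)}) ⊥ lam U A hA g p b
    (fun i t => B0.repr ⟨g i, hmem i⟩ t) (fun _ => 0) q (fun _ => 0)
    (fun i => Submodule.zero_mem _) (fun s => Submodule.zero_mem _) (by
      intro c hc j
      rw [Submodule.mem_bot] at hc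
      rw [hc, zero_mul]
      exact Submodule.zero_mem _) hρ (by
      intro s
      rw [add_zero, ← hq s]
      rfl) hT
  have h3 := finrank_comap_one lam hli hlog b hbli
  have h4 := h2 (finrank Qa G) (by omega) hle
  have h5 : finrank Qa G * r = r * finrank Qa G := mul_comm _ _
  have h6 : finrank Qa G * (finrank Qa G - 1) ≤ (finrank Qa G + 1) * finrank Qa G := by
    rw [mul_comm]
    exact Nat.mul_le_mul_right _ (by omega)
  omega

/-- A value with algebraic gradient and vanishing higher derivatives: the polynomial is affine. -/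
theorem affine_of {N n : ℕ} (P : MvPolynomial (Fin N ⊕ Fin n) ℂ) (z : Fin N → ℂ)
    (w : Fin n → ℂ) (γ : Fin n → ℂ)
    (hγ : ∀ i, eval (Sum.elim z w) (pderiv (Sum.inr i) P) = γ i)
    (h : ∀ js : List (Fin n), 2 ≤ js.length → eval (Sum.elim z w) (ders js P) = 0)
    (x : Fin n → ℂ) : eval (Sum.elim z x) P =
      (eval (Sum.elim z w) P - ∑ i, γ i * w i) + ∑ i, γ i * x i := by
  classical
  set c : ℂ := eval (Sum.elim z w) P - ∑ i, γ i * w i with hc
  set Q : MvPolynomial (Fin N ⊕ Fin n) ℂ := P - (C c + ∑ i, C (γ i) * X (Sum.inr i)) with hQ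
  have hevQ : ∀ y : Fin n → ℂ, eval (Sum.elim z y) Q =
      eval (Sum.elim z y) P - (c + ∑ i, γ i * y i) := by
    intro y
    rw [hQ]
    simp only [map_sub, map_add, map_sum, map_mul, eval_C, eval_X, Sum.elim_inr]
  have hd1 : ∀ i, pderiv (Sum.inr i) Q = pderiv (Sum.inr i) P - C (γ i) := by
    intro i
    rw [hQ, map_sub, map_add, pderiv_C, zero_add, map_sum]
    congr 1
    rw [Finset.sum_eq_single i]
    · rw [Derivation.leibniz, pderiv_X_self, pderiv_C, smul_eq_mul, mul_one, smul_zero,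
        add_zero]
    · intro j _ hj
      rw [Derivation.leibniz, pderiv_C, smul_zero, add_zero, pderiv_X_of_ne (by
        intro h
        exact hj (Sum.inr_injective h)), smul_zero]
    · intro hh
      exact absurd (Finset.mem_univ _) hh
  have hd2 : ∀ (js : List (Fin n)), js ≠ [] → ∀ i, ders js (pderiv (Sum.inr i) Q) =
      ders js (pderiv (Sum.inr i) P) := by
    intro js
    induction js with
    | nil => exact fun h => absurd rfl h
    | cons j js ih =>
      intro _ i
      rw [ders_cons, ders_cons]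
      by_cases hjs : js = []
      · subst hjs
        rw [ders_nil, ders_nil, hd1, map_sub, pderiv_C, sub_zero]
      · rw [ih hjs]
  have hQ0 : ∀ js : List (Fin n), eval (Sum.elim z w) (ders js Q) = 0 := by
    intro js
    rcases List.eq_nil_or_concat js with rfl | ⟨js, i, rfl⟩
    · rw [ders_nil, hevQ, hc]
      ring
    · rw [List.concat_eq_append, ← ders_append]
      by_cases hjs : js = []
      · subst hjs
        rw [ders_nil, hd1, map_sub, eval_C, hγ, sub_self]
      · rw [hd2 js hjs, ders_append]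
        apply h
        rw [List.length_append, List.length_singleton]
        have := List.length_pos_iff.2 hjs
        omega
  have h3 := taylor z w _ Q le_rfl hQ0 x
  rw [hevQ] at h3
  linear_combination h3

/-- THEOREM (values in `Lt`, span of a generic tuple). -/
theorem mainL {n N d r : ℕ} (lam : Fin r → ℂ) (hli : LinearIndependent Qa lam)
    (hlog : ∀ j, lam j ∈ Lsp) (P : MvPolynomial (Fin N ⊕ Fin n) ℂ)
    (h2 : ∀ e, 1 ≤ e → e ≤ n → N + ((e + 1) * e + 1) + e * d < r * e) :
    ∃ D : MvPolynomial (Fin d × Fin r) Qa, D ≠ 0 ∧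
      ∀ U : Fin d × Fin r → Qa, eval U D ≠ 0 →
        ∀ (z : Fin N → Qa) (A : Fin n → Fin d → Qa), LinearIndependent Qa A →
          eval (Sum.elim (fun l => (z l : ℂ))
            (fun i => ∑ a, (A i a : ℂ) * ∑ j, (U (a, j) : ℂ) * lam j)) P ∈ Lt →
          ∃ (c : ℂ) (γ : Fin n → Qa), ∀ v : Fin n → ℂ,
            eval (Sum.elim (fun l => (z l : ℂ)) v) P = c + ∑ i, (γ i : ℂ) * v i := by
  classical
  by_contra hcon
  push Not at hcon
  have hpt : ∀ (U : Fin d × Fin r → Qa) (A : Fin n → Fin d → Qa) (z : Fin N → Qa),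
      pt2 lam (mul2 (fun q => A q.1 q.2) U) z = Sum.elim (fun l => (z l : ℂ))
        (fun i => ∑ a, (A i a : ℂ) * ∑ j, (U (a, j) : ℂ) * lam j) := by
    intro U A z
    unfold pt2
    congr 1
    funext i
    simp only [TV.pt, mul2, Finset.sum_smul, Finset.mul_sum]
    rw [Finset.sum_comm]
    refine Finset.sum_congr rfl fun a _ => Finset.sum_congr rfl fun j _ => ?_
    rw [mul_smul, smul_eq', smul_eq']
  set Bad : Set (Fin d × Fin r → Qa) := {U | ∃ (z : Fin N → Qa) (A : Fin n → Fin d → Qa),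
    LinearIndependent Qa A ∧ eval (pt2 lam (mul2 (fun q => A q.1 q.2) U) z) P ∈ Lt ∧
    ∀ (c : ℂ) (γ : Fin n → Qa), ∃ v : Fin n → ℂ,
      eval (Sum.elim (fun l => (z l : ℂ)) v) P ≠ c + ∑ i, (γ i : ℂ) * v i} with hBad
  obtain ⟨W, hWB, hW⟩ := FC.exists_ultra (fun U : Fin d × Fin r → Qa => U) Bad (by
    intro D hD
    obtain ⟨U, hU, z, A, hA, h0, hv⟩ := hcon D hD
    refine ⟨U, ⟨z, A, hA, ?_, hv⟩, hU⟩
    rw [hpt]
    exact h0)
  have hch : ∀ U : Fin d × Fin r → Qa, ∃ (z : Fin N → Qa) (A : Fin n → Fin d → Qa), U ∈ Bad →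
      LinearIndependent Qa A ∧ eval (pt2 lam (mul2 (fun q => A q.1 q.2) U) z) P ∈ Lt ∧
      ∀ (c : ℂ) (γ : Fin n → Qa), ∃ v : Fin n → ℂ,
        eval (Sum.elim (fun l => (z l : ℂ)) v) P ≠ c + ∑ i, (γ i : ℂ) * v i := by
    intro U
    by_cases hU : U ∈ Bad
    · obtain ⟨z, A, h⟩ := hU
      exact ⟨z, A, fun _ => h⟩
    · exact ⟨0, 0, fun h => absurd h hU⟩
  choose z A hzA using hch
  -- the gradient is algebraic
  have hgrad : ∀ᶠ U in (W : Filter (Fin d × Fin r → Qa)), ∀ i, ∃ γ : Qa,
      eval (pt2 lam (mul2 (fun q => A U q.1 q.2) U) (z U)) (pderiv (Sum.inr i) P) =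
        (γ : ℂ) := by
    have htan := tangentL Lt (fun U : Fin d × Fin r → Qa => U) W hW lam P
      (fun U q => A U q.1 q.2) z (hWB.mono fun U hU => (hzA U hU).2.1)
    filter_upwards [hWB, htan] with U hU hT
    exact caseA lam hli hlog h2 U (A U) (hzA U hU).1 _ _ hT
  -- higher derivatives
  have hnext : ∀ js : List (Fin n), (∀ᶠ U in (W : Filter (Fin d × Fin r → Qa)),
      eval (pt2 lam (mul2 (fun q => A U q.1 q.2) U) (z U)) (ders js P) ∈
        Submodule.span Qa {(1 : ℂ)}) →
      ∀ᶠ U in (W : Filter (Fin d × Fin r → Qa)), ∀ i,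
        eval (pt2 lam (mul2 (fun q => A U q.1 q.2) U) (z U)) (ders (i :: js) P) = 0 := by
    intro js hjs
    have htan := tangentL (Submodule.span Qa {(1 : ℂ)}) (fun U : Fin d × Fin r → Qa => U) W hW
      lam (ders js P) (fun U q => A U q.1 q.2) z hjs
    filter_upwards [hWB, htan] with U hU hT i
    have h3 := caseB lam hli hlog h2 U (A U) (hzA U hU).1 _ _ hT
    exact congrFun h3 i
  have hmem : ∀ c : Qa, (c : ℂ) ∈ Submodule.span Qa {(1 : ℂ)} := by
    intro c
    rw [Submodule.mem_span_singleton]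
    exact ⟨c, by rw [smul_eq', mul_one]⟩
  have hall : ∀ js : List (Fin n), 1 ≤ js.length →
      ∀ᶠ U in (W : Filter (Fin d × Fin r → Qa)), ∀ i,
        eval (pt2 lam (mul2 (fun q => A U q.1 q.2) U) (z U)) (ders (i :: js) P) = 0 := by
    intro js
    induction js with
    | nil =>
      intro h
      simp at h
    | cons j js ih =>
      intro _
      apply hnext
      rcases Nat.lt_or_ge js.length 1 with h | h
      · have h3 : js = [] := List.length_eq_zero_iff.1 (by omega)
        subst h3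
        filter_upwards [hgrad] with U hU
        obtain ⟨γ, hγ⟩ := hU j
        rw [ders_cons, ders_nil, hγ]
        exact hmem γ
      · filter_upwards [ih h] with U hU
        rw [hU j]
        exact Submodule.zero_mem _
  have hfin : ∀ᶠ U in (W : Filter (Fin d × Fin r → Qa)),
      ∀ js ∈ {js : List (Fin n) | js.length ≤ P.totalDegree}, 2 ≤ js.length →
        eval (pt2 lam (mul2 (fun q => A U q.1 q.2) U) (z U)) (ders js P) = 0 := by
    rw [Filter.eventually_all_finite (List.finite_length_le _ _)]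
    intro js _
    rcases Nat.lt_or_ge js.length 2 with h | h
    · exact Filter.Eventually.of_forall fun U h' => absurd h' (by omega)
    · cases js with
      | nil => simp at h
      | cons j js =>
        rw [List.length_cons] at h
        filter_upwards [hall js (by omega)] with U hU _
        exact hU j
  obtain ⟨U, ⟨hB, hg⟩, hf⟩ := ((hWB.and hgrad).and hfin).exists
  obtain ⟨-, -, hbad⟩ := hzA U hB
  choose γ hγ using hg
  have h3 := affine_of P (fun l => (z U l : ℂ))
    (TV.pt lam (mul2 (fun q => A U q.1 q.2) U)) (fun i => (γ i : ℂ)) hγ (by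
      intro js hjs
      by_cases hlen : js.length ≤ P.totalDegree
      · exact hf js hlen hjs
      · have h4 : ders js P = 0 := by
          by_contra hne
          have := length_le js P hne
          omega
        rw [h4, map_zero])
  obtain ⟨v, hv⟩ := hbad _ γ
  exact hv (h3 v)

end MP60829e.FD
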