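import Pool.Agent.Lib.MP_60829e_nt.FD.Tan
import Pool.Agent.Lib.MP_60829e_nt.FD.Cnt

/-! # Spaces of logarithms of finite dimension: almost every subspace of codimension `N + 1` -/

open MvPolynomial Module

namespace MP60829e.FD

open MP60829e.ST (Qa Lsp Lt)

/-- A finite choice is constant on a large set. -/
theorem eventually_fix {I J : Type*} (U : Ultrafilter I) (s : Set J) (hs : s.Finite)
    (p : I → J → Prop) (h : ∀ᶠ a in (U : Filter I), ∃ j ∈ s, p a j) :
    ∃ j ∈ s, ∀ᶠ a in (U : Filter I), p a j := by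
  have h1 : (⋃ j ∈ s, {a | p a j}) ∈ U := by
    filter_upwards [h] with a ha
    obtain ⟨j, hj, hp⟩ := ha
    simp only [Set.mem_iUnion]
    exact ⟨j, hj, hp⟩
  rw [Ultrafilter.finite_biUnion_mem_iff hs] at h1
  exact h1

/-- Solving for the values. -/
theorem exists_psi {n m r : ℕ} (M : Fin n → Fin r → Qa) (hM : LinearIndependent Qa M)
    (χ : Fin n → Fin m → Qa) : ∃ ψ : Fin m × Fin r → Qa,
      ∀ i s, ∑ j, M i j * ψ (s, j) = χ i s := by
  classical
  have h1 : ∀ s : Fin m, ∃ v : Fin r → Qa, ∀ i, ∑ j, M i j * v j = χ i s := by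
    intro s
    -- a linear form on the span of the rows
    obtain ⟨f, hf⟩ : ∃ f : (Fin r → Qa) →ₗ[Qa] Qa, ∀ i, f (M i) = χ i s := by
      obtain ⟨f, hf⟩ := LinearMap.exists_extend
        (p := Submodule.span Qa (Set.range M)) ((Basis.span hM).constr Qa fun i => χ i s)
      refine ⟨f, fun i => ?_⟩
      have h2 := congrArg (fun g => g (Basis.span hM i)) hf
      simp only [LinearMap.comp_apply, Submodule.subtype_apply, Basis.constr_basis] at h2
      rw [Basis.span_apply] at h2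
      exact h2
    refine ⟨fun j => f (Pi.single j 1), fun i => ?_⟩
    rw [← hf i]
    conv_rhs => rw [← Finset.univ_sum_single (M i), map_sum]
    refine Finset.sum_congr rfl fun j _ => ?_
    have h3 : (Pi.single j (M i j) : Fin r → Qa) = M i j • Pi.single j 1 := by
      rw [← Pi.single_smul, smul_eq_mul, mul_one]
    rw [h3, map_smul, smul_eq_mul]
  choose v hv using h1
  exact ⟨fun p => v p.1 p.2, fun i s => hv s i⟩

/-- THEOREM, for any bound `C e` of the kernels. Let `lam` be any complex numbers, `P` any polynomial in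
`N + n` variables. If `m e > N + C e` for `1 ≤ e ≤ n` then for all functionals with values in `m`
dimensional space outside the zeros of a nonzero polynomial: if `M` has independent rows in the kernel
and `P (z, M lam) = 0` then `P (z, -) = 0`. -/
theorem main_gen {n N m r : ℕ} (C : ℕ → ℕ) (lam : Fin r → ℂ)
    (hC : ∀ e, e ≤ n → ∀ b : Fin e → ℂ, LinearIndependent Qa b →
      finrank Qa (LinearMap.ker (bT lam b)) ≤ C e)
    (P : MvPolynomial (Fin N ⊕ Fin n) ℂ) (h2 : ∀ e, 1 ≤ e → e ≤ n → N + C e < m * e) :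
    ∃ D : MvPolynomial (Fin m × Fin r) Qa, D ≠ 0 ∧
      ∀ Φ : Fin m × Fin r → Qa, eval Φ D ≠ 0 →
        ∀ (z : Fin N → Qa) (M : Fin n → Fin r → Qa), LinearIndependent Qa M →
          (∀ i s, ∑ j, M i j * Φ (s, j) = 0) →
          eval (Sum.elim (fun l => (z l : ℂ)) (fun i => ∑ j, (M i j : ℂ) * lam j)) P = 0 →
          ∀ v : Fin n → ℂ, eval (Sum.elim (fun l => (z l : ℂ)) v) P = 0 := by
  classical
  by_contra hcon
  push Not at hcon
  set Bad : Set (Fin m × Fin r → Qa) := {Φ | ∃ (z : Fin N → Qa) (M : Fin n × Fin r → Qa),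
    LinearIndependent Qa (fun i j => M (i, j)) ∧
    (∀ i s, ∑ j, M (i, j) * Φ (s, j) = 0) ∧ eval (pt2 lam M z) P = 0 ∧
    ∃ v : Fin n → ℂ, eval (Sum.elim (fun l => (z l : ℂ)) v) P ≠ 0} with hBad
  obtain ⟨U, hUB, hU⟩ := FC.exists_ultra (fun Φ : Fin m × Fin r → Qa => Φ) Bad (by
    intro D hD
    obtain ⟨Φ, hΦ, z, M, hM, hker, h0, v, hv⟩ := hcon D hD
    refine ⟨Φ, ⟨z, fun p => M p.1 p.2, hM, hker, ?_, v, hv⟩, hΦ⟩
    rw [← h0]
    congr 1)
  -- the choices
  have hch : ∀ Φ : Fin m × Fin r → Qa, ∃ (z : Fin N → Qa) (M : Fin n × Fin r → Qa), Φ ∈ Bad →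
      LinearIndependent Qa (fun i j => M (i, j)) ∧
      (∀ i s, ∑ j, M (i, j) * Φ (s, j) = 0) ∧ eval (pt2 lam M z) P = 0 ∧
      ∃ v : Fin n → ℂ, eval (Sum.elim (fun l => (z l : ℂ)) v) P ≠ 0 := by
    intro Φ
    by_cases hΦ : Φ ∈ Bad
    · obtain ⟨z, M, h⟩ := hΦ
      exact ⟨z, M, fun _ => h⟩
    · exact ⟨0, 0, fun h => absurd h hΦ⟩
  choose z M hzM using hch
  -- the multiplicity
  have hmul : ∀ᶠ Φ in (U : Filter (Fin m × Fin r → Qa)),
      ∃ x ∈ ({js : List (Fin n) | js.length ≤ P.totalDegree} ×ˢ (Set.univ : Set (Fin n))),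
        eval (pt2 lam (M Φ) (z Φ)) (ders x.1 P) = 0 ∧
        eval (pt2 lam (M Φ) (z Φ)) (pderiv (Sum.inr x.2) (ders x.1 P)) ≠ 0 := by
    filter_upwards [hUB] with Φ hΦ
    obtain ⟨-, -, h0, v, hv⟩ := hzM Φ hΦ
    obtain ⟨js, i, hlen, h3, h4⟩ := exists_list P _ _ v h0 hv
    exact ⟨(js, i), ⟨hlen, Set.mem_univ _⟩, h3, h4⟩
  obtain ⟨⟨js, i0⟩, -, hji⟩ := eventually_fix U _
    ((List.finite_length_le _ _).prod Set.finite_univ) _ hmul
  have htan := tangent (fun Φ : Fin m × Fin r → Qa => Φ) U hU lam (ders js P) M z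
    (hUB.mono fun Φ hΦ => (hzM Φ hΦ).2.1) (hji.mono fun Φ hΦ => hΦ.1)
  obtain ⟨Φ, ⟨hB, hj⟩, hT⟩ := ((hUB.and hji).and htan).exists
  obtain ⟨hM, -, -, -⟩ := hzM Φ hB
  refine count_gen C lam hC h2 Φ
    (fun i => eval (pt2 lam (M Φ) (z Φ)) (pderiv (Sum.inr i) (ders js P)))
    (fun l => eval (pt2 lam (M Φ) (z Φ)) (pderiv (Sum.inl l) (ders js P))) ?_ ?_
  · intro h0
    exact hj.2 (congrFun h0 i0)
  · intro χ
    obtain ⟨ψ, hψ⟩ := exists_psi (fun i j => M Φ (i, j)) hM (fun i s => -χ i s)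
    obtain ⟨T, y, hT1, hT2⟩ := hT ψ
    refine ⟨T, y, fun i s => ?_, hT2⟩
    rw [hT1, hψ, neg_neg]

/-- THEOREM. Let `lam` be logarithms (combinations of logarithms) which are linearly independent,
`P` any polynomial in `N + n` variables. If `m > N` and `m e > N + e (e + 1)` for `2 ≤ e ≤ n` then
for all functionals with values in `m` dimensional space outside the zeros of a nonzero polynomial:
if `M` has independent rows in the kernel and `P (z, M lam) = 0` then `P (z, -) = 0`. -/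
theorem main {n N m r : ℕ} (lam : Fin r → ℂ) (hli : LinearIndependent Qa lam)
    (hlog : ∀ j, lam j ∈ Lsp) (P : MvPolynomial (Fin N ⊕ Fin n) ℂ) (h1 : N < m)
    (h2 : ∀ e, 2 ≤ e → e ≤ n → N + e * (e + 1) < m * e) :
    ∃ D : MvPolynomial (Fin m × Fin r) Qa, D ≠ 0 ∧
      ∀ Φ : Fin m × Fin r → Qa, eval Φ D ≠ 0 →
        ∀ (z : Fin N → Qa) (M : Fin n → Fin r → Qa), LinearIndependent Qa M →
          (∀ i s, ∑ j, M i j * Φ (s, j) = 0) →
          eval (Sum.elim (fun l => (z l : ℂ)) (fun i => ∑ j, (M i j : ℂ) * lam j)) P = 0 →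
          ∀ v : Fin n → ℂ, eval (Sum.elim (fun l => (z l : ℂ)) v) P = 0 := by
  refine main_gen (fun e => if e ≤ 1 then 0 else e * (e + 1)) lam
    (fun e _ b hb => kernels lam hli hlog e b hb) P (fun e he1 hen => ?_)
  split_ifs with he
  · have : e = 1 := by omega
    subst this
    omega
  · exact h2 e (by omega) hen

end MP60829e.FD
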