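import Pool.Agent.Lib.MP_60829e_nt.FD.Tan

/-! # The tangent space at a generic tuple `u = U lam`, relations between combinations `A u` -/

open MvPolynomial Module

namespace MP60829e.FD

open MP60829e.ST (Qa Lsp Lt)
open MP60829e.FC (forms gs_gen)

/-- The matrix product. -/
noncomputable def mul2 {n d r : ℕ} (A : Fin n × Fin d → Qa) (U : Fin d × Fin r → Qa) (p : Fin n × Fin r) : Qa :=
  ∑ a, A (p.1, a) * U (a, p.2)

/-- The polynomial in `(U, A, z)` obtained by substituting `z` for the first group and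
`A U lam` for the second group of variables. -/
noncomputable def sub3 {N n d r : ℕ} (lam : Fin r → ℂ) (G : MvPolynomial (Fin N ⊕ Fin n) ℂ) :
    MvPolynomial ((Fin d × Fin r) ⊕ ((Fin n × Fin d) ⊕ Fin N)) ℂ :=
  aeval (Sum.elim (fun l => X (Sum.inr (Sum.inr l)))
    (fun i => ∑ j, C (lam j) * ∑ a, X (Sum.inr (Sum.inl (i, a))) * X (Sum.inl (a, j)))) G

theorem ev_sub3 {N n d r : ℕ} (lam : Fin r → ℂ) (G : MvPolynomial (Fin N ⊕ Fin n) ℂ)
    (U : Fin d × Fin r → Qa) (A : Fin n × Fin d → Qa) (z : Fin N → Qa) :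
    TV.ev (Sum.elim U (Sum.elim A z)) (sub3 lam G) = eval (pt2 lam (mul2 A U) z) G := by
  induction G using MvPolynomial.induction_on with
  | C a =>
    unfold sub3
    rw [algHom_C, algebraMap_eq, TV.ev_C, eval_C]
  | add p q hp hq =>
    have h1 : (sub3 lam (p + q) : MvPolynomial ((Fin d × Fin r) ⊕ ((Fin n × Fin d) ⊕ Fin N)) ℂ) =
      sub3 lam p + sub3 lam q := map_add _ _ _
    rw [h1, map_add, hp, hq, map_add]
  | mul_X p i hp =>
    have h1 : (sub3 lam (p * X i) :
        MvPolynomial ((Fin d × Fin r) ⊕ ((Fin n × Fin d) ⊕ Fin N)) ℂ) =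
      sub3 lam p * sub3 lam (X i) := map_mul _ _ _
    rw [h1, TV.ev_mul, hp, map_mul, eval_X]
    congr 1
    rcases i with l | i
    · have h2 : (sub3 lam (X (Sum.inl l) : MvPolynomial (Fin N ⊕ Fin n) ℂ) :
          MvPolynomial ((Fin d × Fin r) ⊕ ((Fin n × Fin d) ⊕ Fin N)) ℂ) =
        X (Sum.inr (Sum.inr l)) := aeval_X _ _
      rw [h2, TV.ev_X]
      rfl
    · have h2 : (sub3 lam (X (Sum.inr i) : MvPolynomial (Fin N ⊕ Fin n) ℂ) :
          MvPolynomial ((Fin d × Fin r) ⊕ ((Fin n × Fin d) ⊕ Fin N)) ℂ) =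
        ∑ j, C (lam j) * ∑ a, X (Sum.inr (Sum.inl (i, a))) * X (Sum.inl (a, j)) :=
          aeval_X _ _
      rw [h2, map_sum]
      unfold pt2 TV.pt mul2
      rw [Sum.elim_inr]
      refine Finset.sum_congr rfl fun j _ => ?_
      rw [TV.ev_mul, TV.ev_C, map_sum, Algebra.smul_def, mul_comm, map_sum]
      congr 1
      refine Finset.sum_congr rfl fun a _ => ?_
      rw [TV.ev_mul, TV.ev_X, TV.ev_X, map_mul]
      rfl

theorem dv_sub3 {N n d r : ℕ} (lam : Fin r → ℂ) (G : MvPolynomial (Fin N ⊕ Fin n) ℂ)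
    (U V : Fin d × Fin r → Qa) (A B : Fin n × Fin d → Qa) (z h : Fin N → Qa) :
    TV.dv (Sum.elim U (Sum.elim A z)) (Sum.elim V (Sum.elim B h)) (sub3 lam G) =
      ∑ l, eval (pt2 lam (mul2 A U) z) (pderiv (Sum.inl l) G) * (h l : ℂ) +
        ∑ i, eval (pt2 lam (mul2 A U) z) (pderiv (Sum.inr i) G) *
          TV.pt lam (fun p => mul2 B U p + mul2 A V p) i := by
  classical
  -- the direction
  set u : Fin N ⊕ Fin n → ℂ := Sum.elim (fun l => (h l : ℂ))
    (TV.pt lam (fun p => mul2 B U p + mul2 A V p)) with hu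
  have key : TV.dv (Sum.elim U (Sum.elim A z)) (Sum.elim V (Sum.elim B h)) (sub3 lam G) =
      ∑ s, eval (pt2 lam (mul2 A U) z) (pderiv s G) * u s := by
    induction G using MvPolynomial.induction_on with
    | C a =>
      have h1 : (sub3 lam (C a : MvPolynomial (Fin N ⊕ Fin n) ℂ) :
        MvPolynomial ((Fin d × Fin r) ⊕ ((Fin n × Fin d) ⊕ Fin N)) ℂ) = C a := algHom_C _ a
      rw [h1, TV.dv_C]
      symm
      refine Finset.sum_eq_zero fun i _ => ?_
      rw [pderiv_C, map_zero, zero_mul]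
    | add p q hp hq =>
      have h1 : (sub3 lam (p + q) :
        MvPolynomial ((Fin d × Fin r) ⊕ ((Fin n × Fin d) ⊕ Fin N)) ℂ) =
        sub3 lam p + sub3 lam q := map_add _ _ _
      rw [h1, TV.dv_add, hp, hq, ← Finset.sum_add_distrib]
      refine Finset.sum_congr rfl fun i _ => ?_
      rw [map_add, map_add, add_mul]
    | mul_X p i hp =>
      have h1 : (sub3 lam (p * X i) :
        MvPolynomial ((Fin d × Fin r) ⊕ ((Fin n × Fin d) ⊕ Fin N)) ℂ) =
        sub3 lam p * sub3 lam (X i) := map_mul _ _ _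
      have h3 : TV.dv (Sum.elim U (Sum.elim A z)) (Sum.elim V (Sum.elim B h))
          (sub3 lam (X i)) = u i := by
        rcases i with l | i
        · have h2 : (sub3 lam (X (Sum.inl l) : MvPolynomial (Fin N ⊕ Fin n) ℂ) :
              MvPolynomial ((Fin d × Fin r) ⊕ ((Fin n × Fin d) ⊕ Fin N)) ℂ) =
            X (Sum.inr (Sum.inr l)) := aeval_X _ _
          rw [h2, TV.dv_X]
          rfl
        · have h2 : (sub3 lam (X (Sum.inr i) : MvPolynomial (Fin N ⊕ Fin n) ℂ) :
              MvPolynomial ((Fin d × Fin r) ⊕ ((Fin n × Fin d) ⊕ Fin N)) ℂ) =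
            ∑ j, C (lam j) * ∑ a, X (Sum.inr (Sum.inl (i, a))) * X (Sum.inl (a, j)) :=
              aeval_X _ _
          rw [h2, TV.dv_sum, hu, Sum.elim_inr]
          unfold TV.pt mul2
          refine Finset.sum_congr rfl fun j _ => ?_
          rw [TV.dv_mul, TV.dv_C, zero_mul, zero_add, TV.ev_C, TV.dv_sum, Algebra.smul_def,
            mul_comm]
          congr 1
          dsimp only
          rw [← Finset.sum_add_distrib, map_sum]
          refine Finset.sum_congr rfl fun a _ => ?_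
          rw [TV.dv_mul, TV.dv_X, TV.ev_X, TV.dv_X, TV.ev_X, map_add, map_mul, map_mul]
          rfl
      have h5 : ∀ i', eval (pt2 lam (mul2 A U) z) (pderiv i' (p * X i)) * u i' =
          eval (pt2 lam (mul2 A U) z) (pderiv i' p) * u i' * pt2 lam (mul2 A U) z i +
            (if i' = i then eval (pt2 lam (mul2 A U) z) p * u i' else 0) := by
        intro i'
        rw [pderiv_mul, map_add, map_mul, map_mul, eval_X]
        split_ifs with h
        · subst h
          rw [pderiv_X_self, map_one]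
          ring
        · rw [pderiv_X_of_ne (Ne.symm h), map_zero]
          ring
      rw [h1, TV.dv_mul, hp, h3, ev_sub3, ev_sub3, eval_X,
        Finset.sum_congr rfl fun i' _ => h5 i', Finset.sum_add_distrib, Finset.sum_ite_eq',
        if_pos (Finset.mem_univ i), Finset.sum_mul]
  rw [key, Fintype.sum_sum_type]
  rfl

private theorem ev_eq_eval {K : Type} [Field K] {σ : Type} (c : σ → K) (p : MvPolynomial σ K) :
    TV.ev c p = eval c p := by
  induction p using MvPolynomial.induction_on with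
  | C a => rw [TV.ev_C, eval_C]
  | add p q hp hq => rw [map_add, map_add, hp, hq]
  | mul_X p i hp =>
    rw [TV.ev_mul, hp, TV.ev_X, map_mul, eval_X]
    rfl

/-- The tangent directions at a generic tuple: every motion `V` of the generic matrix `U` is
compensated by motions of `A` and `z`. -/
theorem tangentI {N n d r : ℕ} {I : Type} (Y : I → Fin d × Fin r → Qa) (W : Ultrafilter I)
    (hW : ∀ D : MvPolynomial (Fin d × Fin r) Qa, D ≠ 0 →
      ∀ᶠ a in (W : Filter I), eval (Y a) D ≠ 0)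
    (lam : Fin r → ℂ) (G : MvPolynomial (Fin N ⊕ Fin n) ℂ)
    (A : I → Fin n × Fin d → Qa) (z : I → Fin N → Qa)
    (h2 : ∀ᶠ a in (W : Filter I), eval (pt2 lam (mul2 (A a) (Y a)) (z a)) G = 0) :
    ∀ᶠ a in (W : Filter I), ∀ V : Fin d × Fin r → Qa,
      ∃ (B : Fin n × Fin d → Qa) (h : Fin N → Qa),
        ∑ l, eval (pt2 lam (mul2 (A a) (Y a)) (z a)) (pderiv (Sum.inl l) G) * (h l : ℂ) +
          ∑ i, eval (pt2 lam (mul2 (A a) (Y a)) (z a)) (pderiv (Sum.inr i) G) *
            TV.pt lam (fun p => mul2 B (Y a) p + mul2 (A a) V p) i = 0 := by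
  classical
  obtain ⟨q, P', hP1, hP2⟩ := forms (⊥ : Submodule Qa ℂ)
    (sub3 lam G : MvPolynomial ((Fin d × Fin r) ⊕ ((Fin n × Fin d) ⊕ Fin N)) ℂ)
  have h3 : ∀ᶠ a in (W : Filter I), ∀ j,
      eval (Sum.elim (Y a) (Sum.elim (A a) (z a))) (P' j) = 0 := by
    filter_upwards [h2] with a ha2 j
    refine hP1 _ ?_ j
    rw [ev_sub3, Submodule.mem_bot]
    exact ha2
  have h4 := gs_gen W Y hW P' (fun a => Sum.elim (A a) (z a)) h3
  filter_upwards [h4] with a ha V
  obtain ⟨η, hη⟩ := ha V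
  have h5 : TV.dv (Sum.elim (Y a) (Sum.elim (A a) (z a))) (Sum.elim V η)
      (sub3 lam G) ∈ (⊥ : Submodule Qa ℂ) := by
    refine hP2 _ _ fun j => ?_
    rw [Fintype.sum_sum_type]
    exact hη j
  refine ⟨fun p => η (Sum.inl p), fun l => η (Sum.inr l), ?_⟩
  have h6 : η = Sum.elim (fun p => η (Sum.inl p)) (fun j => η (Sum.inr j)) := by
    funext t
    rcases t with t | t <;> rfl
  rw [h6, dv_sub3, Submodule.mem_bot] at h5
  exact h5

end MP60829e.FD
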