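import Pool.Agent.Lib.MP_60829e_nt.FD.Main
import Pool.Agent.Lib.MP_60829e_nt.FD.TanI
import Pool.Agent.Lib.MP_60829e_nt.FR.Dep

/-! # The span of a generic tuple of logarithms -/

open MvPolynomial Module

namespace MP60829e.FD

open MP60829e.ST (Qa Lsp Lt)
open MP60829e.FR

private theorem smul_eq' (c : Qa) (z : ℂ) : c • z = (c : ℂ) * z := rfl

/-- The count for the span of a generic tuple, for any bound `C e` of the kernels. -/
theorem countI {N n d r : ℕ} (C : ℕ → ℕ) (lam : Fin r → ℂ)
    (hC : ∀ e, e ≤ n → ∀ b : Fin e → ℂ, LinearIndependent Qa b →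
      finrank Qa (LinearMap.ker (bT lam b)) ≤ C e)
    (h2 : ∀ e, 1 ≤ e → e ≤ n → N + C e + e * d < r * e)
    (U : Fin d × Fin r → Qa) (A : Fin n → Fin d → Qa) (hA : LinearIndependent Qa A)
    (g : Fin n → ℂ) (p : Fin N → ℂ) (hg : g ≠ 0)
    (h : ∀ V : Fin d × Fin r → Qa, ∃ (B : Fin n × Fin d → Qa) (y : Fin N → Qa),
      ∑ l, p l * (y l : ℂ) +
        ∑ i, g i * TV.pt lam (fun q => mul2 B U q + mul2 (fun q => A q.1 q.2) V q) i = 0) :
    False := by
  classical
  set G : Submodule Qa ℂ := Submodule.span Qa (Set.range g) with hG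
  have hfin : FiniteDimensional Qa G := FiniteDimensional.span_of_finite Qa (Set.finite_range g)
  have hle : finrank Qa G ≤ n := by
    have := finrank_range_le_card (R := Qa) g
    rwa [Fintype.card_fin] at this
  have hpos : 1 ≤ finrank Qa G := by
    rw [Nat.one_le_iff_ne_zero]
    intro h0
    have h3 : G = ⊥ := Submodule.finrank_eq_zero.1 h0
    apply hg
    funext i
    have h4 : g i ∈ G := Submodule.subset_span ⟨i, rfl⟩
    rw [h3, Submodule.mem_bot] at h4
    exact h4
  obtain ⟨e, he⟩ : ∃ e, e = finrank Qa G := ⟨_, rfl⟩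
  let B0 : Basis (Fin e) Qa G := (finBasis Qa G).reindex (finCongr he.symm)
  set b : Fin e → ℂ := fun t => (B0 t : ℂ) with hb
  have hbli : LinearIndependent Qa b :=
    B0.linearIndependent.map' G.subtype (Submodule.ker_subtype G)
  have hmem : ∀ i, g i ∈ G := fun i => Submodule.subset_span ⟨i, rfl⟩
  let ρ : Fin n → Fin e → Qa := fun i t => B0.repr ⟨g i, hmem i⟩ t
  have hρ : ∀ i, g i = ∑ t, ρ i t • b t := by
    intro i
    have h3 := congrArg G.subtype (B0.sum_repr ⟨g i, hmem i⟩)
    rw [map_sum] at h3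
    simp only [map_smul, Submodule.subtype_apply] at h3
    exact h3.symm
  have hq : ∀ t, ∃ q : Fin n → Qa, ∑ i, q i • g i = b t := by
    intro t
    exact (Submodule.mem_span_range_iff_exists_fun Qa).1 (B0 t).2
  choose q hq using hq
  -- the numbers `u`
  set u : Fin d → ℂ := fun a => ∑ j, U (a, j) • lam j with hu
  set S1 : Submodule Qa ℂ := Submodule.span Qa (Set.range p) with hS1
  set S2 : Submodule Qa ℂ := Submodule.span Qa
    (Set.range fun x : Fin e × Fin d => b x.1 * u x.2) with hS2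
  have hf1 : FiniteDimensional Qa S1 := FiniteDimensional.span_of_finite Qa (Set.finite_range p)
  have hf2 : FiniteDimensional Qa S2 :=
    FiniteDimensional.span_of_finite Qa (Set.finite_range _)
  have hS1N : finrank Qa S1 ≤ N := by
    have := finrank_range_le_card (R := Qa) p
    rwa [Fintype.card_fin] at this
  have hS2N : finrank Qa S2 ≤ e * d := by
    have := finrank_range_le_card (R := Qa) (fun x : Fin e × Fin d => b x.1 * u x.2)
    rwa [Fintype.card_prod, Fintype.card_fin, Fintype.card_fin] at this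
  have hfS : FiniteDimensional Qa (S1 ⊔ S2 : Submodule Qa ℂ) :=
    Submodule.finiteDimensional_sup _ _
  have hSN : finrank Qa (S1 ⊔ S2 : Submodule Qa ℂ) ≤ N + e * d :=
    (Submodule.finrank_add_le_finrank_add_finrank S1 S2).trans (by omega)
  -- everything is mapped to `S1 + S2`
  have htop : (S1 ⊔ S2).comap (bT lam b) = ⊤ := by
    rw [eq_top_iff]
    intro T' _
    rw [Submodule.mem_comap]
    obtain ⟨ψ, hψ⟩ := exists_psi A hA (fun i j => ∑ t, q t i * T' t j)
    obtain ⟨B, y, hBy⟩ := h (fun x => ψ (x.2, x.1))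
    -- the two parts
    have e1 : ∀ i, TV.pt lam (fun x => mul2 B U x +
        mul2 (fun x => A x.1 x.2) (fun x => ψ (x.2, x.1)) x) i =
        ∑ a, (B (i, a) : ℂ) * u a + ∑ t, (q t i : ℂ) * ∑ j, T' t j • lam j := by
      intro i
      have h3 : ∀ j, mul2 (fun x => A x.1 x.2) (fun x => ψ (x.2, x.1)) (i, j) =
          ∑ t, q t i * T' t j := by
        intro j
        rw [← hψ i j]
        rfl
      unfold TV.pt
      simp only [h3, add_smul, Finset.sum_add_distrib]
      congr 1
      · simp only [mul2, Finset.sum_smul, hu, Finset.mul_sum]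
        rw [Finset.sum_comm]
        refine Finset.sum_congr rfl fun a _ => Finset.sum_congr rfl fun j _ => ?_
        rw [mul_smul, smul_eq']
      · simp only [Finset.sum_smul, Finset.mul_sum]
        rw [Finset.sum_comm]
        refine Finset.sum_congr rfl fun t _ => Finset.sum_congr rfl fun j _ => ?_
        rw [mul_smul, smul_eq']
    have e2 : ∑ i, g i * ∑ t, (q t i : ℂ) * ∑ j, T' t j • lam j = bT lam b T' := by
      rw [bT_apply]
      simp only [Finset.mul_sum]
      rw [Finset.sum_comm]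
      refine Finset.sum_congr rfl fun t _ => ?_
      rw [Finset.sum_comm]
      refine Finset.sum_congr rfl fun j _ => ?_
      rw [← hq t, Finset.sum_mul]
      refine Finset.sum_congr rfl fun i _ => ?_
      rw [smul_eq' (q t i)]
      ring
    have e3 : ∑ i, g i * ∑ a, (B (i, a) : ℂ) * u a ∈ S2 := by
      refine Submodule.sum_mem _ fun i _ => ?_
      rw [Finset.mul_sum]
      refine Submodule.sum_mem _ fun a _ => ?_
      have h4 : g i * ((B (i, a) : ℂ) * u a) = ∑ t, (B (i, a) * ρ i t) • (b t * u a) := by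
        conv_lhs => rw [hρ i, Finset.sum_mul]
        refine Finset.sum_congr rfl fun t _ => ?_
        rw [smul_eq', smul_eq']
        push_cast
        ring
      rw [h4]
      exact Submodule.sum_mem _ fun t _ => Submodule.smul_mem _ _
        (Submodule.subset_span ⟨(t, a), rfl⟩)
    have e4 : ∑ l, p l * (y l : ℂ) ∈ S1 := by
      refine Submodule.sum_mem _ fun l _ => ?_
      rw [mul_comm, ← smul_eq']
      exact S1.smul_mem _ (Submodule.subset_span ⟨l, rfl⟩)
    simp only [e1, mul_add, Finset.sum_add_distrib] at hBy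
    rw [e2] at hBy
    have h5 : bT lam b T' = -(∑ l, p l * (y l : ℂ) + ∑ i, g i * ∑ a, (B (i, a) : ℂ) * u a) := by
      linear_combination hBy
    rw [h5]
    exact Submodule.neg_mem _ (Submodule.add_mem _ (Submodule.mem_sup_left e4)
      (Submodule.mem_sup_right e3))
  have h3 := finrank_comap_le (bT lam b) (S1 ⊔ S2)
  rw [htop, finrank_top, Module.finrank_pi_fintype] at h3
  simp only [Module.finrank_fin_fun, Finset.sum_const, Finset.card_univ, Fintype.card_fin,
    smul_eq_mul] at h3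
  have h4 := hC e (by omega) b hbli
  have h5 := h2 e (by omega) (by omega)
  have h6 : e * r = r * e := mul_comm _ _
  omega

/-- THEOREM (span of a generic tuple), for any bound `C e` of the kernels. If
`(r - d) e > N + C e` for `1 ≤ e ≤ n` then for all `d` by `r` matrices `U` outside the zeros of a
nonzero polynomial: if `A` has independent rows and `P (z, A U lam) = 0` then `P (z, -) = 0`. -/
theorem mainI {n N d r : ℕ} (C : ℕ → ℕ) (lam : Fin r → ℂ)
    (hC : ∀ e, e ≤ n → ∀ b : Fin e → ℂ, LinearIndependent Qa b →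
      finrank Qa (LinearMap.ker (bT lam b)) ≤ C e)
    (P : MvPolynomial (Fin N ⊕ Fin n) ℂ)
    (h2 : ∀ e, 1 ≤ e → e ≤ n → N + C e + e * d < r * e) :
    ∃ D : MvPolynomial (Fin d × Fin r) Qa, D ≠ 0 ∧
      ∀ U : Fin d × Fin r → Qa, eval U D ≠ 0 →
        ∀ (z : Fin N → Qa) (A : Fin n → Fin d → Qa), LinearIndependent Qa A →
          eval (Sum.elim (fun l => (z l : ℂ))
            (fun i => ∑ a, (A i a : ℂ) * ∑ j, (U (a, j) : ℂ) * lam j)) P = 0 →
          ∀ v : Fin n → ℂ, eval (Sum.elim (fun l => (z l : ℂ)) v) P = 0 := by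
  classical
  by_contra hcon
  push Not at hcon
  have hpt : ∀ (U : Fin d × Fin r → Qa) (A : Fin n → Fin d → Qa) (z : Fin N → Qa),
      pt2 lam (mul2 (fun q => A q.1 q.2) U) z = Sum.elim (fun l => (z l : ℂ))
        (fun i => ∑ a, (A i a : ℂ) * ∑ j, (U (a, j) : ℂ) * lam j) := by
    intro U A z
    unfold pt2
    congr 1
    funext i
    simp only [TV.pt, mul2, Finset.sum_smul, Finset.mul_sum]
    rw [Finset.sum_comm]
    refine Finset.sum_congr rfl fun a _ => Finset.sum_congr rfl fun j _ => ?_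
    rw [mul_smul, smul_eq', smul_eq']
  set Bad : Set (Fin d × Fin r → Qa) := {U | ∃ (z : Fin N → Qa) (A : Fin n → Fin d → Qa),
    LinearIndependent Qa A ∧ eval (pt2 lam (mul2 (fun q => A q.1 q.2) U) z) P = 0 ∧
    ∃ v : Fin n → ℂ, eval (Sum.elim (fun l => (z l : ℂ)) v) P ≠ 0} with hBad
  obtain ⟨W, hWB, hW⟩ := FC.exists_ultra (fun U : Fin d × Fin r → Qa => U) Bad (by
    intro D hD
    obtain ⟨U, hU, z, A, hA, h0, v, hv⟩ := hcon D hD
    refine ⟨U, ⟨z, A, hA, ?_, v, hv⟩, hU⟩
    rw [hpt]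
    exact h0)
  have hch : ∀ U : Fin d × Fin r → Qa, ∃ (z : Fin N → Qa) (A : Fin n → Fin d → Qa), U ∈ Bad →
      LinearIndependent Qa A ∧ eval (pt2 lam (mul2 (fun q => A q.1 q.2) U) z) P = 0 ∧
      ∃ v : Fin n → ℂ, eval (Sum.elim (fun l => (z l : ℂ)) v) P ≠ 0 := by
    intro U
    by_cases hU : U ∈ Bad
    · obtain ⟨z, A, h⟩ := hU
      exact ⟨z, A, fun _ => h⟩
    · exact ⟨0, 0, fun h => absurd h hU⟩
  choose z A hzA using hch
  have hmul : ∀ᶠ U in (W : Filter (Fin d × Fin r → Qa)),
      ∃ x ∈ ({js : List (Fin n) | js.length ≤ P.totalDegree} ×ˢ (Set.univ : Set (Fin n))),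
        eval (pt2 lam (mul2 (fun q => A U q.1 q.2) U) (z U)) (ders x.1 P) = 0 ∧
        eval (pt2 lam (mul2 (fun q => A U q.1 q.2) U) (z U))
          (pderiv (Sum.inr x.2) (ders x.1 P)) ≠ 0 := by
    filter_upwards [hWB] with U hU
    obtain ⟨-, h0, v, hv⟩ := hzA U hU
    obtain ⟨js, i, hlen, h3, h4⟩ := exists_list P _ _ v h0 hv
    exact ⟨(js, i), ⟨hlen, Set.mem_univ _⟩, h3, h4⟩
  obtain ⟨⟨js, i0⟩, -, hji⟩ := eventually_fix W _
    ((List.finite_length_le _ _).prod Set.finite_univ) _ hmul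
  have htan := tangentI (fun U : Fin d × Fin r → Qa => U) W hW lam (ders js P)
    (fun U q => A U q.1 q.2) z (hji.mono fun U hU => hU.1)
  obtain ⟨U, ⟨hB, hj⟩, hT⟩ := ((hWB.and hji).and htan).exists
  obtain ⟨hA, -, -⟩ := hzA U hB
  refine countI C lam hC h2 U (A U) hA
    (fun i => eval (pt2 lam (mul2 (fun q => A U q.1 q.2) U) (z U))
      (pderiv (Sum.inr i) (ders js P)))
    (fun l => eval (pt2 lam (mul2 (fun q => A U q.1 q.2) U) (z U))
      (pderiv (Sum.inl l) (ders js P))) ?_ hT
  intro h0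
  exact hj.2 (congrFun h0 i0)

/-- The arithmetic of the number of conditions. -/
theorem arithI {n N d r k e : ℕ} (hnr : d + n ≤ r) (hkn : k ≤ n)
    (h : d + N + (n - k) * k < r) (he : 1 ≤ e) (hek : e ≤ k) :
    N + (n - k) * k + e * (e - 1) + e * d < r * e := by
  obtain ⟨f, rfl⟩ := Nat.exists_eq_add_of_le he
  rw [Nat.add_sub_cancel_left]
  obtain ⟨c, rfl⟩ := Nat.exists_eq_add_of_lt h
  have h1 : 1 + f + d ≤ d + N + (n - k) * k + c + 1 := by omega
  nlinarith [Nat.mul_le_mul_right f h1]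

/-- THEOREM (span of a generic tuple, arbitrary tuples in the span). Sharp constant as a hypothesis. -/
theorem royI_gen {n N d r : ℕ} (hnr : d + n ≤ r) (lam : Fin r → ℂ)
    (hC : ∀ (e : ℕ) (b : Fin e → ℂ), LinearIndependent Qa b →
      finrank Qa (LinearMap.ker (bT lam b)) ≤ e * (e - 1))
    (P : MvPolynomial (Fin N ⊕ Fin n) ℂ) :
    ∃ D : MvPolynomial (Fin d × Fin r) Qa, D ≠ 0 ∧
      ∀ U : Fin d × Fin r → Qa, eval U D ≠ 0 →
        ∀ (z : Fin N → Qa) (w : Fin n → ℂ),
          (∀ i, w i ∈ Submodule.span Qa (Set.range fun a => ∑ j, (U (a, j) : ℂ) * lam j)) →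
          d + N + (n - finrank Qa (Submodule.span Qa (Set.range w))) *
            finrank Qa (Submodule.span Qa (Set.range w)) < r →
          eval (Sum.elim (fun l => (z l : ℂ)) w) P = 0 →
          ∀ x : Fin n → ℂ, Rels w x → eval (Sum.elim (fun l => (z l : ℂ)) x) P = 0 := by
  classical
  let T : Type := Σ k : Fin (n + 1), (Fin (k : ℕ) ↪ Fin n)
  have key : ∀ t : T, ∃ D : MvPolynomial (Fin d × Fin r) Qa, D ≠ 0 ∧
      (d + N + (n - t.1) * t.1 < r → ∀ U : Fin d × Fin r → Qa, eval U D ≠ 0 →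
        ∀ (z : Fin (N + kp t.2) → Qa) (A : Fin (t.1 : ℕ) → Fin d → Qa),
          LinearIndependent Qa A →
          eval (Sum.elim (fun l => (z l : ℂ))
            (fun i => ∑ a, (A i a : ℂ) * ∑ j, (U (a, j) : ℂ) * lam j)) (PT t.2 P) = 0 →
          ∀ v : Fin (t.1 : ℕ) → ℂ, eval (Sum.elim (fun l => (z l : ℂ)) v) (PT t.2 P) = 0) := by
    intro t
    by_cases ht : d + N + (n - t.1) * t.1 < r
    · obtain ⟨D, hD, h⟩ := mainI (d := d) (fun e => e * (e - 1)) lam
        (fun e _ b hb => hC e b hb) (PT t.2 P) (fun e he1 he2 => by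
          rw [kp_eq]
          exact arithI hnr (le_of_emb t.2) ht he1 he2)
      exact ⟨D, hD, fun _ => h⟩
    · exact ⟨1, one_ne_zero, fun h => absurd h ht⟩
  choose D hD0 hD using key
  refine ⟨∏ t, D t, Finset.prod_ne_zero_iff.2 fun t _ => hD0 t, fun U hU z w hw hk h0 x hx => ?_⟩
  rw [map_prod, Finset.prod_ne_zero_iff] at hU
  obtain ⟨k, ι, A, hli, hA⟩ := exists_basis w
  have hspan : Submodule.span Qa (Set.range w) =
      Submodule.span Qa (Set.range fun j => w (ι j)) := by
    apply le_antisymm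
    · rw [Submodule.span_le]
      rintro _ ⟨i, rfl⟩
      rw [hA w (fun q hq => hq) i]
      exact Submodule.sum_mem _ fun j _ => Submodule.smul_mem _ _
        (Submodule.subset_span ⟨j, rfl⟩)
    · refine Submodule.span_mono ?_
      rintro _ ⟨j, rfl⟩
      exact ⟨ι j, rfl⟩
  have hrank : finrank Qa (Submodule.span Qa (Set.range w)) = k := by
    rw [hspan, finrank_span_eq_card hli, Fintype.card_fin]
  rw [hrank] at hk
  have hc : ∀ i, ∃ c : Fin d → Qa, ∑ a, c a • (∑ j, (U (a, j) : ℂ) * lam j) = w i := fun i =>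
    (Submodule.mem_span_range_iff_exists_fun Qa).1 (hw i)
  choose c hc using hc
  have hMli : LinearIndependent Qa (fun j => c (ι j)) := by
    rw [Fintype.linearIndependent_iff]
    intro a ha
    refine Fintype.linearIndependent_iff.1 hli a ?_
    calc ∑ j, a j • w (ι j) = ∑ a', (∑ j, a j • c (ι j)) a' • (∑ j', (U (a', j') : ℂ) * lam j') := by
          simp only [Finset.sum_apply, Pi.smul_apply, smul_eq_mul, Finset.sum_smul, mul_smul]
          rw [Finset.sum_comm]
          refine Finset.sum_congr rfl fun j _ => ?_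
          rw [← Finset.smul_sum, hc]
      _ = 0 := by
          rw [ha]
          simp
  have h2 := hD ⟨⟨k, by have := le_of_emb ι; omega⟩, ι⟩ hk U (hU _ (Finset.mem_univ _))
    (za ι z A) (fun j => c (ι j)) hMli (by
      have h3 : (fun i => ∑ a, (c (ι i) a : ℂ) * ∑ j, (U (a, j) : ℂ) * lam j) =
          fun j => w (ι j) := by
        funext i
        rw [← hc (ι i)]
        rfl
      rw [h3, eval_PT ι P z A w (hA w fun q hq => hq)]
      exact h0)
  rw [← eval_PT ι P z A x (hA x hx)]
  exact h2 _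

end MP60829e.FD
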