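import Pool.Agent.Lib.MP_60829e_nt.FD.Dim

/-! # Bounds for the dimension of the exceptional set of tuples -/

open MvPolynomial Module

namespace MP60829e.FD

open MP60829e.ST (Qa Lsp Lt)
open MP60829e.FR

private theorem smul_eq' (c : Qa) (z : ℂ) : c • z = (c : ℂ) * z := rfl

theorem exists_ultraJ {σ : Type} [DecidableEq σ] (J : Finset σ) (Bad : Set (σ → Qa))
    (h : ∀ D : MvPolynomial σ Qa, D ≠ 0 → D.vars ⊆ J → ∃ U ∈ Bad, eval U D ≠ 0) :
    ∃ W : Ultrafilter (σ → Qa), (∀ᶠ U in (W : Filter (σ → Qa)), U ∈ Bad) ∧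
      ∀ D : MvPolynomial J Qa, D ≠ 0 →
        ∀ᶠ U in (W : Filter (σ → Qa)), eval (fun s : J => U s) D ≠ 0 := by
  refine FC.exists_ultra (fun (U : σ → Qa) (s : J) => U s) Bad fun D hD => ?_
  obtain ⟨U, hU, h1⟩ := h (rename Subtype.val D)
    (fun h0 => hD (rename_injective _ Subtype.val_injective (by rw [h0, map_zero]))) (by
      refine (vars_rename _ _).trans ?_
      intro s hs
      rw [Finset.mem_image] at hs
      obtain ⟨t, -, rfl⟩ := hs
      exact t.2)
  refine ⟨U, hU, ?_⟩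
  rw [eval_rename] at h1
  exact h1

/-- a basis modulo the constants, with the orthogonality relations -/
theorem exists_h' {n : ℕ} (g : Fin n → ℂ) : ∃ (e : ℕ) (h : Fin e → ℂ)
    (ρ : Fin n → Fin e → Qa) (γ : Fin n → Qa) (q : Fin e → Fin n → Qa), e ≤ n ∧
    LinearIndependent Qa (Fin.snoc (α := fun _ => ℂ) h (-1) : Fin (e + 1) → ℂ) ∧
    (∀ i, g i = ∑ s, (ρ i s : ℂ) * h s + γ i) ∧
    ∀ s t, ∑ i, q s i * ρ i t = if t = s then 1 else 0 := by
  classical
  obtain ⟨e, h, ρ, γ, q, δ, hen, hh, hg, hq⟩ := exists_h g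
  refine ⟨e, h, ρ, γ, q, hen, hh, hg, fun s t => ?_⟩
  have h1 : ∑ t, ((∑ i, q s i * ρ i t) - (if t = s then 1 else 0) : Qa) • h t +
      (∑ i, q s i * γ i - δ s : Qa) • (1 : ℂ) = 0 := by
    have h2 := hq s
    have h3 : ∑ i, (q s i : ℂ) * g i =
        ∑ t, ((∑ i, q s i * ρ i t : Qa) : ℂ) * h t + ((∑ i, q s i * γ i : Qa) : ℂ) := by
      push_cast
      simp only [Finset.sum_mul]
      rw [Finset.sum_comm, ← Finset.sum_add_distrib]
      refine Finset.sum_congr rfl fun i _ => ?_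
      rw [hg i, mul_add, Finset.mul_sum]
      congr 1
      exact Finset.sum_congr rfl fun t _ => by ring
    rw [h3] at h2
    have h4 : ∑ t, ((if t = s then 1 else 0 : Qa) : ℂ) * h t = h s := by
      rw [Finset.sum_eq_single s]
      · rw [if_pos rfl, OneMemClass.coe_one, one_mul]
      · intro t _ ht
        rw [if_neg ht, ZeroMemClass.coe_zero, zero_mul]
      · intro hh
        exact absurd (Finset.mem_univ _) hh
    simp only [sub_smul, Finset.sum_sub_distrib, smul_eq']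
    rw [h4]
    linear_combination h2
  have h5 := Fintype.linearIndependent_iff.1 hh
    (Fin.snoc (α := fun _ => Qa) (fun t => (∑ i, q s i * ρ i t) - (if t = s then 1 else 0))
      (-(∑ i, q s i * γ i - δ s))) (by
      rw [Fin.sum_univ_castSucc]
      simp only [Fin.snoc_castSucc, Fin.snoc_last]
      rw [← h1]
      congr 1
      rw [smul_eq', smul_eq']
      push_cast
      ring) t.castSucc
  rw [Fin.snoc_castSucc] at h5
  exact sub_eq_zero.1 h5

/-- a basis of the span -/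
theorem exists_b {n : ℕ} (g : Fin n → ℂ) : ∃ (e : ℕ) (h : Fin e → ℂ)
    (ρ : Fin n → Fin e → Qa) (q : Fin e → Fin n → Qa), e ≤ n ∧ (e = 0 → g = 0) ∧
    LinearIndependent Qa h ∧ (∀ i, g i = ∑ s, (ρ i s : ℂ) * h s + 0) ∧
    ∀ s t, ∑ i, q s i * ρ i t = if t = s then 1 else 0 := by
  classical
  set G : Submodule Qa ℂ := Submodule.span Qa (Set.range g) with hG
  have hfin : FiniteDimensional Qa G := FiniteDimensional.span_of_finite Qa (Set.finite_range g)
  have hle : finrank Qa G ≤ n := by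
    have := finrank_range_le_card (R := Qa) g
    rwa [Fintype.card_fin] at this
  let B0 : Basis (Fin (finrank Qa G)) Qa G := finBasis Qa G
  set b : Fin (finrank Qa G) → ℂ := fun t => (B0 t : ℂ) with hb
  have hbli : LinearIndependent Qa b :=
    B0.linearIndependent.map' G.subtype (Submodule.ker_subtype G)
  have hmem : ∀ i, g i ∈ G := fun i => Submodule.subset_span ⟨i, rfl⟩
  have hρ : ∀ i, g i = ∑ t, B0.repr ⟨g i, hmem i⟩ t • b t := by
    intro i
    have h3 := congrArg G.subtype (B0.sum_repr ⟨g i, hmem i⟩)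
    rw [map_sum] at h3
    simp only [map_smul, Submodule.subtype_apply] at h3
    exact h3.symm
  have hq : ∀ t, ∃ q : Fin n → Qa, ∑ i, q i • g i = b t := by
    intro t
    exact (Submodule.mem_span_range_iff_exists_fun Qa).1 (B0 t).2
  choose q hq using hq
  refine ⟨finrank Qa G, b, fun i t => B0.repr ⟨g i, hmem i⟩ t, q, hle, fun h0 => ?_, hbli,
    fun i => ?_, fun s t => ?_⟩
  · have h3 : G = ⊥ := Submodule.finrank_eq_zero.1 h0
    funext i
    have h4 := hmem i
    rw [h3, Submodule.mem_bot] at h4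
    exact h4
  · rw [add_zero]
    exact hρ i
  · have h3 : ∑ t', (∑ i, q s i * B0.repr ⟨g i, hmem i⟩ t') • b t' =
        ∑ t', (if t' = s then (1 : Qa) else 0) • b t' := by
      calc ∑ t', (∑ i, q s i * B0.repr ⟨g i, hmem i⟩ t') • b t'
          = ∑ i, q s i • ∑ t', B0.repr ⟨g i, hmem i⟩ t' • b t' := by
            simp only [Finset.sum_smul, Finset.smul_sum, mul_smul]
            exact Finset.sum_comm
        _ = ∑ i, q s i • g i := Finset.sum_congr rfl fun i _ => by rw [← hρ]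
        _ = b s := hq s
        _ = _ := by simp [ite_smul]
    have h4 : ∑ t', ((∑ i, q s i * B0.repr ⟨g i, hmem i⟩ t') -
        (if t' = s then (1 : Qa) else 0)) • b t' = 0 := by
      simp only [sub_smul, Finset.sum_sub_distrib]
      rw [h3, sub_self]
    exact sub_eq_zero.1 (Fintype.linearIndependent_iff.1 hbli _ h4 t)

/-- value zero -/
theorem grad_zero {N n d r c : ℕ} (lam : Fin r → ℂ) (hli : LinearIndependent Qa lam)
    (hlog : ∀ j, lam j ∈ Lsp)
    (h2 : ∀ e, 1 ≤ e → e ≤ n → N + e * d + e * (e - 1) + d * r < c + e * r)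
    (U : Fin d × Fin r → Qa) (A : Fin n → Fin d → Qa) (hA : LinearIndependent Qa A)
    (g : Fin n → ℂ) (p : Fin N → ℂ)
    (hc : c ≤ finrank Qa (mot ⊥ lam U (fun x => A x.1 x.2) g p)) : g = 0 := by
  obtain ⟨e, h, ρ, q, hen, he0, hh, hg, hq⟩ := exists_b g
  by_cases he : e = 0
  · exact he0 he
  exfalso
  have h1 := finrank_mot ⊥ ⊥ lam U A hA g p h ρ (fun _ => 0) q (fun _ => Submodule.zero_mem _)
    (by
      intro c hc j
      rw [Submodule.mem_bot] at hc
      rw [hc, zero_mul]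
      exact Submodule.zero_mem _) hg hq
  have h3 := finrank_ker_sharp lam hli hlog h hh
  rw [Submodule.comap_bot] at h1
  have h4 := h2 e (by omega) hen
  omega

/-- value algebraic -/
theorem grad_one {N n d r c : ℕ} (lam : Fin r → ℂ) (hli : LinearIndependent Qa lam)
    (hlog : ∀ j, lam j ∈ Lsp)
    (h2 : ∀ e, 1 ≤ e → e ≤ n → N + e * d + ((e + 1) * e + 1) + d * r < c + e * r)
    (U : Fin d × Fin r → Qa) (A : Fin n → Fin d → Qa) (hA : LinearIndependent Qa A)
    (g : Fin n → ℂ) (p : Fin N → ℂ)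
    (hc : c ≤ finrank Qa (mot (Submodule.span Qa {(1 : ℂ)}) lam U (fun x => A x.1 x.2) g p)) :
    g = 0 := by
  obtain ⟨e, h, ρ, q, hen, he0, hh, hg, hq⟩ := exists_b g
  by_cases he : e = 0
  · exact he0 he
  exfalso
  have h1 := finrank_mot (Submodule.span Qa {(1 : ℂ)}) ⊥ lam U A hA g p h ρ (fun _ => 0) q
    (fun _ => Submodule.zero_mem _)
    (by
      intro c hc j
      rw [Submodule.mem_bot] at hc
      rw [hc, zero_mul]
      exact Submodule.zero_mem _) hg hq
  have h3 := finrank_comap_one lam hli hlog h hh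
  have h4 := h2 e (by omega) hen
  have h6 : e * (e - 1) ≤ (e + 1) * e := by
    rw [mul_comm]
    exact Nat.mul_le_mul_right _ (by omega)
  omega

/-- value a linear form in logarithms -/
theorem grad_Lt {N n d r c : ℕ} (lam : Fin r → ℂ) (hli : LinearIndependent Qa lam)
    (hlog : ∀ j, lam j ∈ Lsp)
    (h2 : ∀ e, 1 ≤ e → e ≤ n → N + e * d + ((e + 1) * e + 1) + d * r < c + e * r)
    (U : Fin d × Fin r → Qa) (A : Fin n → Fin d → Qa) (hA : LinearIndependent Qa A)
    (g : Fin n → ℂ) (p : Fin N → ℂ)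
    (hc : c ≤ finrank Qa (mot Lt lam U (fun x => A x.1 x.2) g p)) :
    ∀ i, ∃ γ : Qa, g i = (γ : ℂ) := by
  obtain ⟨e, h, ρ, γ, q, hen, hh, hg, hq⟩ := exists_h' g
  by_cases he : e = 0
  · subst he
    intro i
    refine ⟨γ i, ?_⟩
    rw [hg i]
    simp
  exfalso
  have hmem : ∀ c : Qa, (c : ℂ) ∈ Submodule.span Qa {(1 : ℂ)} := by
    intro c
    rw [Submodule.mem_span_singleton]
    exact ⟨c, by rw [smul_eq', mul_one]⟩
  have h1 := finrank_mot Lt (Submodule.span Qa {(1 : ℂ)}) lam U A hA g p h ρ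
    (fun i => (γ i : ℂ)) q (fun i => hmem _)
    (by
      intro c hc j
      rw [Submodule.mem_span_singleton] at hc
      obtain ⟨c, rfl⟩ := hc
      rw [smul_mul_assoc, one_mul]
      refine Lt.smul_mem _ ?_
      rw [Lt_eq]
      exact Submodule.mem_sup_right (hlog j)) hg hq
  have h3 := finrank_comap_Lt lam hli hlog h hh
  have h4 := h2 e (by omega) hen
  omega

theorem pt2_eq {N n d r : ℕ} (lam : Fin r → ℂ) (U : Fin d × Fin r → Qa)
    (A : Fin n → Fin d → Qa) (z : Fin N → Qa) :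
    pt2 lam (mul2 (fun q => A q.1 q.2) U) z = Sum.elim (fun l => (z l : ℂ))
      (fun i => ∑ a, (A i a : ℂ) * ∑ j, (U (a, j) : ℂ) * lam j) := by
  unfold pt2
  congr 1
  funext i
  simp only [TV.pt, mul2, Finset.sum_smul, Finset.mul_sum]
  rw [Finset.sum_comm]
  refine Finset.sum_congr rfl fun a _ => Finset.sum_congr rfl fun j _ => ?_
  rw [mul_smul, smul_eq', smul_eq']

/-- THEOREM (value zero). The exceptional matrices `U` are zeros of a nonzero polynomial in the
coordinates of `J`, if `J` is large. -/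
theorem mainJ {n N d r : ℕ} (J : Finset (Fin d × Fin r)) (lam : Fin r → ℂ)
    (hli : LinearIndependent Qa lam) (hlog : ∀ j, lam j ∈ Lsp)
    (P : MvPolynomial (Fin N ⊕ Fin n) ℂ)
    (h2 : ∀ e, 1 ≤ e → e ≤ n → N + e * d + e * (e - 1) + d * r < J.card + e * r) :
    ∃ D : MvPolynomial (Fin d × Fin r) Qa, D ≠ 0 ∧ D.vars ⊆ J ∧
      ∀ U : Fin d × Fin r → Qa, eval U D ≠ 0 →
        ∀ (z : Fin N → Qa) (A : Fin n → Fin d → Qa), LinearIndependent Qa A →
          eval (Sum.elim (fun l => (z l : ℂ))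
            (fun i => ∑ a, (A i a : ℂ) * ∑ j, (U (a, j) : ℂ) * lam j)) P = 0 →
          ∀ v : Fin n → ℂ, eval (Sum.elim (fun l => (z l : ℂ)) v) P = 0 := by
  classical
  by_contra hcon
  push Not at hcon
  set Bad : Set (Fin d × Fin r → Qa) := {U | ∃ (z : Fin N → Qa) (A : Fin n → Fin d → Qa),
    LinearIndependent Qa A ∧ eval (pt2 lam (mul2 (fun q => A q.1 q.2) U) z) P = 0 ∧
    ∃ v : Fin n → ℂ, eval (Sum.elim (fun l => (z l : ℂ)) v) P ≠ 0} with hBad
  obtain ⟨W, hWB, hW⟩ := exists_ultraJ J Bad (by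
    intro D hD hDJ
    obtain ⟨U, hU, z, A, hA, h0, v, hv⟩ := hcon D hD hDJ
    refine ⟨U, ⟨z, A, hA, ?_, v, hv⟩, hU⟩
    rw [pt2_eq]
    exact h0)
  have hch : ∀ U : Fin d × Fin r → Qa, ∃ (z : Fin N → Qa) (A : Fin n → Fin d → Qa), U ∈ Bad →
      LinearIndependent Qa A ∧ eval (pt2 lam (mul2 (fun q => A q.1 q.2) U) z) P = 0 ∧
      ∃ v : Fin n → ℂ, eval (Sum.elim (fun l => (z l : ℂ)) v) P ≠ 0 := by
    intro U
    by_cases hU : U ∈ Bad
    · obtain ⟨z, A, h⟩ := hU
      exact ⟨z, A, fun _ => h⟩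
    · exact ⟨0, 0, fun h => absurd h hU⟩
  choose z A hzA using hch
  have hmul : ∀ᶠ U in (W : Filter (Fin d × Fin r → Qa)),
      ∃ x ∈ ({js : List (Fin n) | js.length ≤ P.totalDegree} ×ˢ (Set.univ : Set (Fin n))),
        eval (pt2 lam (mul2 (fun q => A U q.1 q.2) U) (z U)) (ders x.1 P) = 0 ∧
        eval (pt2 lam (mul2 (fun q => A U q.1 q.2) U) (z U))
          (pderiv (Sum.inr x.2) (ders x.1 P)) ≠ 0 := by
    filter_upwards [hWB] with U hU
    obtain ⟨-, h0, v, hv⟩ := hzA U hU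
    obtain ⟨js, i, hlen, h3, h4⟩ := exists_list P _ _ v h0 hv
    exact ⟨(js, i), ⟨hlen, Set.mem_univ _⟩, h3, h4⟩
  obtain ⟨⟨js, i0⟩, -, hji⟩ := eventually_fix W _
    ((List.finite_length_le _ _).prod Set.finite_univ) _ hmul
  have htan := tangentJ ⊥ J (fun U : Fin d × Fin r → Qa => U) W hW lam (ders js P)
    (fun U q => A U q.1 q.2) z (hji.mono fun U hU => by
      rw [Submodule.mem_bot]
      exact hU.1)
  obtain ⟨U, ⟨hB, hj⟩, hT⟩ := ((hWB.and hji).and htan).exists
  obtain ⟨hA, -, -⟩ := hzA U hB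
  have h3 := grad_zero lam hli hlog h2 U (A U) hA _ _ hT
  exact hj.2 (congrFun h3 i0)

/-- THEOREM (values in `Lt`). The exceptional matrices `U` are zeros of a nonzero polynomial in the
coordinates of `J`, if `J` is large. -/
theorem mainLJ {n N d r : ℕ} (J : Finset (Fin d × Fin r)) (lam : Fin r → ℂ)
    (hli : LinearIndependent Qa lam) (hlog : ∀ j, lam j ∈ Lsp)
    (P : MvPolynomial (Fin N ⊕ Fin n) ℂ)
    (h2 : ∀ e, 1 ≤ e → e ≤ n → N + e * d + ((e + 1) * e + 1) + d * r < J.card + e * r) :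
    ∃ D : MvPolynomial (Fin d × Fin r) Qa, D ≠ 0 ∧ D.vars ⊆ J ∧
      ∀ U : Fin d × Fin r → Qa, eval U D ≠ 0 →
        ∀ (z : Fin N → Qa) (A : Fin n → Fin d → Qa), LinearIndependent Qa A →
          eval (Sum.elim (fun l => (z l : ℂ))
            (fun i => ∑ a, (A i a : ℂ) * ∑ j, (U (a, j) : ℂ) * lam j)) P ∈ Lt →
          ∃ (c : ℂ) (γ : Fin n → Qa), ∀ v : Fin n → ℂ,
            eval (Sum.elim (fun l => (z l : ℂ)) v) P = c + ∑ i, (γ i : ℂ) * v i := by
  classical
  by_contra hcon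
  push Not at hcon
  set Bad : Set (Fin d × Fin r → Qa) := {U | ∃ (z : Fin N → Qa) (A : Fin n → Fin d → Qa),
    LinearIndependent Qa A ∧ eval (pt2 lam (mul2 (fun q => A q.1 q.2) U) z) P ∈ Lt ∧
    ∀ (c : ℂ) (γ : Fin n → Qa), ∃ v : Fin n → ℂ,
      eval (Sum.elim (fun l => (z l : ℂ)) v) P ≠ c + ∑ i, (γ i : ℂ) * v i} with hBad
  obtain ⟨W, hWB, hW⟩ := exists_ultraJ J Bad (by
    intro D hD hDJ
    obtain ⟨U, hU, z, A, hA, h0, hv⟩ := hcon D hD hDJ
    refine ⟨U, ⟨z, A, hA, ?_, hv⟩, hU⟩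
    rw [pt2_eq]
    exact h0)
  have hch : ∀ U : Fin d × Fin r → Qa, ∃ (z : Fin N → Qa) (A : Fin n → Fin d → Qa), U ∈ Bad →
      LinearIndependent Qa A ∧ eval (pt2 lam (mul2 (fun q => A q.1 q.2) U) z) P ∈ Lt ∧
      ∀ (c : ℂ) (γ : Fin n → Qa), ∃ v : Fin n → ℂ,
        eval (Sum.elim (fun l => (z l : ℂ)) v) P ≠ c + ∑ i, (γ i : ℂ) * v i := by
    intro U
    by_cases hU : U ∈ Bad
    · obtain ⟨z, A, h⟩ := hU
      exact ⟨z, A, fun _ => h⟩
    · exact ⟨0, 0, fun h => absurd h hU⟩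
  choose z A hzA using hch
  have hgrad : ∀ᶠ U in (W : Filter (Fin d × Fin r → Qa)), ∀ i, ∃ γ : Qa,
      eval (pt2 lam (mul2 (fun q => A U q.1 q.2) U) (z U)) (pderiv (Sum.inr i) P) =
        (γ : ℂ) := by
    have htan := tangentJ Lt J (fun U : Fin d × Fin r → Qa => U) W hW lam P
      (fun U q => A U q.1 q.2) z (hWB.mono fun U hU => (hzA U hU).2.1)
    filter_upwards [hWB, htan] with U hU hT
    exact grad_Lt lam hli hlog h2 U (A U) (hzA U hU).1 _ _ hT
  have hnext : ∀ js : List (Fin n), (∀ᶠ U in (W : Filter (Fin d × Fin r → Qa)),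
      eval (pt2 lam (mul2 (fun q => A U q.1 q.2) U) (z U)) (ders js P) ∈
        Submodule.span Qa {(1 : ℂ)}) →
      ∀ᶠ U in (W : Filter (Fin d × Fin r → Qa)), ∀ i,
        eval (pt2 lam (mul2 (fun q => A U q.1 q.2) U) (z U)) (ders (i :: js) P) = 0 := by
    intro js hjs
    have htan := tangentJ (Submodule.span Qa {(1 : ℂ)}) J (fun U : Fin d × Fin r → Qa => U) W hW
      lam (ders js P) (fun U q => A U q.1 q.2) z hjs
    filter_upwards [hWB, htan] with U hU hT i
    have h3 := grad_one lam hli hlog h2 U (A U) (hzA U hU).1 _ _ hT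
    exact congrFun h3 i
  have hmem : ∀ c : Qa, (c : ℂ) ∈ Submodule.span Qa {(1 : ℂ)} := by
    intro c
    rw [Submodule.mem_span_singleton]
    exact ⟨c, by rw [smul_eq', mul_one]⟩
  have hall : ∀ js : List (Fin n), 1 ≤ js.length →
      ∀ᶠ U in (W : Filter (Fin d × Fin r → Qa)), ∀ i,
        eval (pt2 lam (mul2 (fun q => A U q.1 q.2) U) (z U)) (ders (i :: js) P) = 0 := by
    intro js
    induction js with
    | nil =>
      intro h
      simp at h
    | cons j js ih =>
      intro _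
      apply hnext
      rcases Nat.lt_or_ge js.length 1 with h | h
      · have h3 : js = [] := List.length_eq_zero_iff.1 (by omega)
        subst h3
        filter_upwards [hgrad] with U hU
        obtain ⟨γ, hγ⟩ := hU j
        rw [ders_cons, ders_nil, hγ]
        exact hmem γ
      · filter_upwards [ih h] with U hU
        rw [hU j]
        exact Submodule.zero_mem _
  have hfin : ∀ᶠ U in (W : Filter (Fin d × Fin r → Qa)),
      ∀ js ∈ {js : List (Fin n) | js.length ≤ P.totalDegree}, 2 ≤ js.length →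
        eval (pt2 lam (mul2 (fun q => A U q.1 q.2) U) (z U)) (ders js P) = 0 := by
    rw [Filter.eventually_all_finite (List.finite_length_le _ _)]
    intro js _
    rcases Nat.lt_or_ge js.length 2 with h | h
    · exact Filter.Eventually.of_forall fun U h' => absurd h' (by omega)
    · cases js with
      | nil => simp at h
      | cons j js =>
        rw [List.length_cons] at h
        filter_upwards [hall js (by omega)] with U hU _
        exact hU j
  obtain ⟨U, ⟨hB, hg⟩, hf⟩ := ((hWB.and hgrad).and hfin).exists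
  obtain ⟨-, -, hbad⟩ := hzA U hB
  choose γ hγ using hg
  have h3 := affine_of P (fun l => (z U l : ℂ))
    (TV.pt lam (mul2 (fun q => A U q.1 q.2) U)) (fun i => (γ i : ℂ)) hγ (by
      intro js hjs
      by_cases hlen : js.length ≤ P.totalDegree
      · exact hf js hlen hjs
      · have h4 : ders js P = 0 := by
          by_contra hne
          have := length_le js P hne
          omega
        rw [h4, map_zero])
  obtain ⟨v, hv⟩ := hbad _ γ
  exact hv (h3 v)

end MP60829e.FD
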