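import Mathlib

/-! # Iterated derivatives and the multiplicity of a zero -/

open MvPolynomial

namespace MP60829e.FD

/-- Iterated derivatives in the second group of variables. -/
noncomputable def ders {N n : ℕ} (js : List (Fin n)) (P : MvPolynomial (Fin N ⊕ Fin n) ℂ) :
    MvPolynomial (Fin N ⊕ Fin n) ℂ :=
  js.foldr (fun i Q => pderiv (Sum.inr i) Q) P

theorem ders_nil {N n : ℕ} (P : MvPolynomial (Fin N ⊕ Fin n) ℂ) : ders [] P = P := rfl

theorem ders_cons {N n : ℕ} (i : Fin n) (js : List (Fin n))
    (P : MvPolynomial (Fin N ⊕ Fin n) ℂ) :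
    ders (i :: js) P = pderiv (Sum.inr i) (ders js P) := rfl

theorem ders_append {N n : ℕ} (i : Fin n) (js : List (Fin n))
    (P : MvPolynomial (Fin N ⊕ Fin n) ℂ) :
    ders js (pderiv (Sum.inr i) P) = ders (js ++ [i]) P := by
  unfold ders
  rw [List.foldr_append]
  rfl

theorem totalDegree_pderiv_lt {σ : Type*} {P : MvPolynomial σ ℂ} (s : σ)
    (h : pderiv s P ≠ 0) : (pderiv s P).totalDegree + 1 ≤ P.totalDegree := by
  classical
  have key : ∀ a ∈ (pderiv s P).support, (a.sum fun _ e => e) + 1 ≤ P.totalDegree := by
    intro a ha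
    rw [MvPolynomial.mem_support_iff, coeff_pderiv] at ha
    have h2 : a + Finsupp.single s 1 ∈ P.support := by
      rw [MvPolynomial.mem_support_iff]
      exact left_ne_zero_of_mul ha
    have h3 := le_totalDegree h2
    rw [Finsupp.sum_add_index' (fun _ => rfl) (fun _ _ _ => rfl),
      Finsupp.sum_single_index rfl] at h3
    exact h3
  obtain ⟨a, ha⟩ := MvPolynomial.support_nonempty.2 h
  have h4 : 1 ≤ P.totalDegree := le_trans (by omega) (key a ha)
  have h5 : (pderiv s P).totalDegree ≤ P.totalDegree - 1 :=
    Finset.sup_le fun a ha => by have := key a ha; omega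
  omega

theorem length_le {N n : ℕ} (js : List (Fin n)) (P : MvPolynomial (Fin N ⊕ Fin n) ℂ)
    (h : ders js P ≠ 0) : (ders js P).totalDegree + js.length ≤ P.totalDegree := by
  induction js with
  | nil => simp [ders_nil]
  | cons i js ih =>
    rw [ders_cons] at h ⊢
    have h1 : ders js P ≠ 0 := by
      intro h2
      rw [h2, map_zero] at h
      exact h rfl
    have h2 := ih h1
    have h3 := totalDegree_pderiv_lt _ h
    rw [List.length_cons]
    omega

theorem eval_aeval_poly {σ : Type*} (g : σ → Polynomial ℂ) (Q : MvPolynomial σ ℂ) (t : ℂ) :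
    Polynomial.eval t (aeval g Q) = eval (fun s => Polynomial.eval t (g s)) Q := by
  induction Q using MvPolynomial.induction_on with
  | C a => simp
  | add p q hp hq => rw [map_add, Polynomial.eval_add, hp, hq, map_add]
  | mul_X p i hp => rw [map_mul, Polynomial.eval_mul, hp, aeval_X, map_mul, eval_X]

theorem derivative_aeval {σ : Type*} [Fintype σ] (g : σ → Polynomial ℂ)
    (Q : MvPolynomial σ ℂ) : Polynomial.derivative (aeval g Q) =
      ∑ i, aeval g (pderiv i Q) * Polynomial.derivative (g i) := by
  classical
  induction Q using MvPolynomial.induction_on with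
  | C a => simp
  | add p q hp hq => simp only [map_add, hp, hq, add_mul, Finset.sum_add_distrib]
  | mul_X p j hp =>
    rw [map_mul, Polynomial.derivative_mul, hp, aeval_X]
    have h1 : ∀ i, aeval g (pderiv i (p * X j)) * Polynomial.derivative (g i) =
        aeval g (pderiv i p) * Polynomial.derivative (g i) * g j +
          (if i = j then aeval g p * Polynomial.derivative (g i) else 0) := by
      intro i
      rw [Derivation.leibniz, pderiv_X, smul_eq_mul, smul_eq_mul, map_add, map_mul, map_mul,
        aeval_X]
      by_cases hij : i = j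
      · subst hij
        simp only [Pi.single_eq_same, map_one, if_true]
        ring
      · rw [Pi.single_eq_of_ne (Ne.symm hij), map_zero, if_neg hij]
        ring
    rw [Finset.sum_congr rfl fun i _ => h1 i, Finset.sum_add_distrib, ← Finset.sum_mul,
      Finset.sum_ite_eq' Finset.univ j, if_pos (Finset.mem_univ j)]

/-- If the gradient in the second group of variables vanishes identically on the slice over `z`
then the polynomial is constant on the slice. -/
theorem const_of_grad {N n : ℕ} (Q : MvPolynomial (Fin N ⊕ Fin n) ℂ) (z : Fin N → ℂ)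
    (h : ∀ (i : Fin n) (v : Fin n → ℂ), eval (Sum.elim z v) (pderiv (Sum.inr i) Q) = 0)
    (w v : Fin n → ℂ) : eval (Sum.elim z v) Q = eval (Sum.elim z w) Q := by
  set g : Fin N ⊕ Fin n → Polynomial ℂ := Sum.elim (fun l => Polynomial.C (z l))
    (fun i => Polynomial.C (w i) + Polynomial.C (v i - w i) * Polynomial.X) with hg
  have hev : ∀ (R : MvPolynomial (Fin N ⊕ Fin n) ℂ) (t : ℂ),
      Polynomial.eval t (aeval g R) =
        eval (Sum.elim z (fun i => w i + (v i - w i) * t)) R := by
    intro R t
    rw [eval_aeval_poly]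
    congr 2
    funext s
    rcases s with l | i
    · simp [hg]
    · simp [hg]
  have hd : Polynomial.derivative (aeval g Q) = 0 := by
    rw [derivative_aeval, Fintype.sum_sum_type]
    have h1 : ∀ l : Fin N, aeval g (pderiv (Sum.inl l) Q) *
        Polynomial.derivative (g (Sum.inl l)) = 0 := by
      intro l
      simp [hg]
    have h2 : ∀ i : Fin n, aeval g (pderiv (Sum.inr i) Q) = 0 := by
      intro i
      apply Polynomial.funext
      intro t
      rw [hev, h, Polynomial.eval_zero]
    rw [Finset.sum_eq_zero fun l _ => h1 l, zero_add]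
    refine Finset.sum_eq_zero fun i _ => ?_
    rw [h2, zero_mul]
  have h3 := Polynomial.derivative_eq_zero.1 hd
  have h4 := Polynomial.eq_C_of_natDegree_eq_zero h3
  have h5 : Polynomial.eval 1 (aeval g Q) = Polynomial.eval 0 (aeval g Q) := by
    rw [h4, Polynomial.eval_C, Polynomial.eval_C]
  rw [hev, hev] at h5
  have e1 : (fun i => w i + (v i - w i) * 1) = v := by funext i; ring
  have e2 : (fun i => w i + (v i - w i) * 0) = w := by funext i; ring
  rw [e1, e2] at h5
  exact h5

/-- A polynomial all of whose iterated derivatives vanish at a point of the slice vanishes on the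
slice. -/
theorem taylor {N n : ℕ} (z : Fin N → ℂ) (w : Fin n → ℂ) (d : ℕ) :
    ∀ P : MvPolynomial (Fin N ⊕ Fin n) ℂ, P.totalDegree ≤ d →
      (∀ js : List (Fin n), eval (Sum.elim z w) (ders js P) = 0) →
      ∀ v : Fin n → ℂ, eval (Sum.elim z v) P = 0 := by
  induction d with
  | zero =>
    intro P hP h v
    have h1 : P = C (coeff 0 P) := totalDegree_eq_zero_iff_eq_C.1 (Nat.le_zero.1 hP)
    have h2 := h []
    rw [ders_nil, h1, eval_C] at h2
    rw [h1, eval_C, h2]
  | succ d ih =>
    intro P hP h v
    have h1 : ∀ (i : Fin n) (u : Fin n → ℂ),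
        eval (Sum.elim z u) (pderiv (Sum.inr i) P) = 0 := by
      intro i u
      by_cases h0 : pderiv (Sum.inr i) P = 0
      · rw [h0, map_zero]
      · refine ih _ ?_ ?_ u
        · have := totalDegree_pderiv_lt _ h0
          omega
        · intro js
          rw [ders_append]
          exact h _
    rw [const_of_grad P z h1 w v]
    exact h []

/-- A zero of finite multiplicity. -/
theorem exists_list {N n : ℕ} (P : MvPolynomial (Fin N ⊕ Fin n) ℂ) (z : Fin N → ℂ)
    (w v : Fin n → ℂ) (h0 : eval (Sum.elim z w) P = 0) (hv : eval (Sum.elim z v) P ≠ 0) :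
    ∃ (js : List (Fin n)) (i : Fin n), js.length ≤ P.totalDegree ∧
      eval (Sum.elim z w) (ders js P) = 0 ∧
      eval (Sum.elim z w) (pderiv (Sum.inr i) (ders js P)) ≠ 0 := by
  have h1 : ∃ js : List (Fin n), eval (Sum.elim z w) (ders js P) ≠ 0 := by
    by_contra hcon
    push Not at hcon
    exact hv (taylor z w _ P le_rfl hcon v)
  obtain ⟨js, hjs⟩ := h1
  induction js with
  | nil => exact absurd h0 hjs
  | cons i js ih =>
    by_cases h2 : eval (Sum.elim z w) (ders js P) = 0
    · refine ⟨js, i, ?_, h2, hjs⟩
      have h3 : ders (i :: js) P ≠ 0 := by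
        intro h4
        rw [h4, map_zero] at hjs
        exact hjs rfl
      have h4 := length_le _ _ h3
      rw [List.length_cons] at h4
      omega
    · exact ih h2

end MP60829e.FD
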