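import Pool.Agent.Lib.MP_60829e_nt.FD.Main
import Pool.Agent.Lib.MP_60829e_nt.FR.Dep

/-! # Spaces of finite dimension: arbitrary tuples -/

open MvPolynomial Module

namespace MP60829e.FD

open MP60829e.ST (Qa Lsp Lt)
open MP60829e.FR

/-- The arithmetic of the number of conditions. -/
theorem arith {n N m k e : ℕ} (hnm : n ≤ m) (hkn : k ≤ n) (h : N + (n - k) * k < m)
    (he : 1 ≤ e) (hek : e ≤ k) : N + (n - k) * k + e * (e - 1) < m * e := by
  obtain ⟨d, rfl⟩ := Nat.exists_eq_add_of_le he
  rw [Nat.add_sub_cancel_left]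
  obtain ⟨c, rfl⟩ := Nat.exists_eq_add_of_lt h
  have h1 : 1 + d ≤ N + (n - k) * k + c + 1 := le_trans (le_trans hek hkn) hnm
  nlinarith [Nat.mul_le_mul_right d h1]

/-- THEOREM. Let `lam` be numbers for which the hyperplane theorem holds with the sharp constant,
`P` any polynomial in `N + n` variables, `m ≥ n`. For all functionals `Φ` with values in `m` dimensional
space outside the zeros of a nonzero polynomial: if `w` is any `n`-tuple in the kernel, of rank `k`
with `N + k (n - k) < m`, and `P (z, w) = 0`, then `P (z, x) = 0` for all `x` which satisfy the linear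
relations of `w`. -/
theorem roy_gen {n N m r : ℕ} (hnm : n ≤ m) (lam : Fin r → ℂ)
    (hC : ∀ (e : ℕ) (b : Fin e → ℂ), LinearIndependent Qa b →
      finrank Qa (LinearMap.ker (bT lam b)) ≤ e * (e - 1))
    (P : MvPolynomial (Fin N ⊕ Fin n) ℂ) :
    ∃ D : MvPolynomial (Fin m × Fin r) Qa, D ≠ 0 ∧
      ∀ Φ : Fin m × Fin r → Qa, eval Φ D ≠ 0 →
        ∀ (z : Fin N → Qa) (w : Fin n → ℂ),
          (∀ i, ∃ c : Fin r → Qa, (∀ s, ∑ j, c j * Φ (s, j) = 0) ∧
            w i = ∑ j, (c j : ℂ) * lam j) →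
          N + (n - finrank Qa (Submodule.span Qa (Set.range w))) *
            finrank Qa (Submodule.span Qa (Set.range w)) < m →
          eval (Sum.elim (fun l => (z l : ℂ)) w) P = 0 →
          ∀ x : Fin n → ℂ, Rels w x → eval (Sum.elim (fun l => (z l : ℂ)) x) P = 0 := by
  classical
  let T : Type := Σ k : Fin (n + 1), (Fin (k : ℕ) ↪ Fin n)
  have key : ∀ t : T, ∃ D : MvPolynomial (Fin m × Fin r) Qa, D ≠ 0 ∧
      (N + (n - t.1) * t.1 < m → ∀ Φ : Fin m × Fin r → Qa, eval Φ D ≠ 0 →
        ∀ (z : Fin (N + kp t.2) → Qa) (M : Fin (t.1 : ℕ) → Fin r → Qa),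
          LinearIndependent Qa M → (∀ i s, ∑ j, M i j * Φ (s, j) = 0) →
          eval (Sum.elim (fun l => (z l : ℂ)) (fun i => ∑ j, (M i j : ℂ) * lam j))
            (PT t.2 P) = 0 →
          ∀ v : Fin (t.1 : ℕ) → ℂ, eval (Sum.elim (fun l => (z l : ℂ)) v) (PT t.2 P) = 0) := by
    intro t
    by_cases ht : N + (n - t.1) * t.1 < m
    · obtain ⟨D, hD, h⟩ := main_gen (m := m) (fun e => e * (e - 1)) lam
        (fun e _ b hb => hC e b hb) (PT t.2 P) (fun e he1 he2 => by
          rw [kp_eq]
          exact arith hnm (le_of_emb t.2) ht he1 he2)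
      exact ⟨D, hD, fun _ => h⟩
    · exact ⟨1, one_ne_zero, fun h => absurd h ht⟩
  choose D hD0 hD using key
  refine ⟨∏ t, D t, Finset.prod_ne_zero_iff.2 fun t _ => hD0 t, fun Φ hΦ z w hw hk h0 x hx => ?_⟩
  rw [map_prod, Finset.prod_ne_zero_iff] at hΦ
  obtain ⟨k, ι, A, hli, hA⟩ := exists_basis w
  -- the rank
  have hspan : Submodule.span Qa (Set.range w) =
      Submodule.span Qa (Set.range fun j => w (ι j)) := by
    apply le_antisymm
    · rw [Submodule.span_le]
      rintro _ ⟨i, rfl⟩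
      rw [hA w (fun q hq => hq) i]
      exact Submodule.sum_mem _ fun j _ => Submodule.smul_mem _ _
        (Submodule.subset_span ⟨j, rfl⟩)
    · refine Submodule.span_mono ?_
      rintro _ ⟨j, rfl⟩
      exact ⟨ι j, rfl⟩
  have hrank : finrank Qa (Submodule.span Qa (Set.range w)) = k := by
    rw [hspan, finrank_span_eq_card hli, Fintype.card_fin]
  rw [hrank] at hk
  choose c hc1 hc2 using hw
  have hMli : LinearIndependent Qa (fun j => c (ι j)) := by
    rw [Fintype.linearIndependent_iff]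
    intro a ha
    refine Fintype.linearIndependent_iff.1 hli a ?_
    have h1 : ∀ j, w (ι j) = ∑ j', (c (ι j) j' : ℂ) * lam j' := fun j => hc2 _
    calc ∑ j, a j • w (ι j) = ∑ j', ((∑ j, a j • c (ι j)) j' : ℂ) * lam j' := by
          simp only [Finset.sum_apply, Pi.smul_apply, smul_eq_mul]
          push_cast
          simp only [Finset.sum_mul]
          rw [Finset.sum_comm]
          refine Finset.sum_congr rfl fun j _ => ?_
          rw [h1, Algebra.smul_def, Finset.mul_sum]
          refine Finset.sum_congr rfl fun j' _ => ?_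
          rw [mul_assoc]
          rfl
      _ = 0 := by
          rw [ha]
          simp
  have h2 := hD ⟨⟨k, by have := le_of_emb ι; omega⟩, ι⟩ hk Φ (hΦ _ (Finset.mem_univ _))
    (za ι z A) (fun j => c (ι j)) hMli (fun j s => hc1 _ s) (by
      have h3 : (fun j => ∑ j', (c (ι j) j' : ℂ) * lam j') = fun j => w (ι j) :=
        funext fun j => (hc2 _).symm
      rw [h3, eval_PT ι P z A w (hA w fun q hq => hq)]
      exact h0)
  rw [← eval_PT ι P z A x (hA x hx)]
  exact h2 _

end MP60829e.FD
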