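import Pool.Agent.Lib.MP_60829e_nt.FD.MainI
import Pool.Agent.Lib.MP_60829e_nt.HS.Main

/-! # The sharp constants; kernels modulo the linear forms in logarithms -/

open MvPolynomial Module

namespace MP60829e.FD

open MP60829e.ST (Qa Lsp Lt)
open MP60829e.FR

private theorem smul_eq' (c : Qa) (z : ℂ) : c • z = (c : ℂ) * z := rfl

/-- The kernel has dimension at most `e (e - 1)`. -/
theorem finrank_ker_sharp {e r : ℕ} (lam : Fin r → ℂ) (hli : LinearIndependent Qa lam)
    (hlog : ∀ j, lam j ∈ Lsp) (b : Fin e → ℂ) (hb : LinearIndependent Qa b) :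
    finrank Qa (LinearMap.ker (bT lam b)) ≤ e * (e - 1) := by
  obtain ⟨hfin, hle⟩ := HS.hps b hb ((LinearMap.ker (bT lam b)).map (vT lam))
    (by
      rintro _ ⟨T, -, rfl⟩ i
      rw [vT_apply]
      exact Submodule.sum_mem _ fun j _ => Lsp.smul_mem _ (hlog j))
    (by
      rintro _ ⟨T, hT, rfl⟩
      have h1 : bT lam b T = 0 := hT
      rw [bT_apply] at h1
      simpa [vT_apply] using h1)
  rwa [LinearEquiv.finrank_eq (Submodule.equivMapOfInjective (vT lam) (vT_injective lam hli)
    (LinearMap.ker (bT lam b)))]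

theorem finrank_comap_sup_le {V W : Type*} [AddCommGroup V] [Module Qa V] [AddCommGroup W]
    [Module Qa W] [FiniteDimensional Qa V] (f : V →ₗ[Qa] W) (S L : Submodule Qa W)
    [FiniteDimensional Qa S] :
    finrank Qa ((S ⊔ L).comap f) ≤ finrank Qa S + finrank Qa (L.comap f) := by
  have h1 : (S ⊔ L).comap f = (S.map L.mkQ).comap (L.mkQ ∘ₗ f) := by
    ext v
    rw [Submodule.mem_comap, Submodule.mem_comap, LinearMap.comp_apply, Submodule.mem_sup,
      Submodule.mem_map]
    constructor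
    · rintro ⟨y, hy, l, hl, h⟩
      refine ⟨y, hy, ?_⟩
      rw [← h, map_add, (Submodule.Quotient.mk_eq_zero L).2 hl |> fun h : L.mkQ l = 0 => h,
        add_zero]
    · rintro ⟨y, hy, h⟩
      refine ⟨y, hy, f v - y, ?_, by abel⟩
      rw [← Submodule.Quotient.mk_eq_zero, ← Submodule.mkQ_apply, map_sub, h, sub_self]
  have h2 : LinearMap.ker (L.mkQ ∘ₗ f) = L.comap f := by
    rw [LinearMap.ker_comp, Submodule.ker_mkQ]
  rw [h1]
  have h3 := finrank_comap_le (L.mkQ ∘ₗ f) (S.map L.mkQ)
  rw [h2] at h3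
  exact h3.trans (Nat.add_le_add_right (Submodule.finrank_map_le _ _) _)

/-- The combinations which are linear forms in logarithms. -/
theorem finrank_comap_Lsp {e r : ℕ} (lam : Fin r → ℂ) (hli : LinearIndependent Qa lam)
    (hlog : ∀ j, lam j ∈ Lsp) (h : Fin e → ℂ)
    (hh : LinearIndependent Qa (Fin.snoc (α := fun _ => ℂ) h (-1) : Fin (e + 1) → ℂ)) :
    finrank Qa (Lsp.comap (bT lam h)) ≤ (e + 1) * e := by
  -- the map to the vectors with `e + 1` coordinates
  let F : (Fin e → Fin r → Qa) →ₗ[Qa] (Fin (e + 1) → ℂ) :=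
    { toFun := fun T => Fin.snoc (α := fun _ => ℂ) (vT lam T) (bT lam h T)
      map_add' := fun S T => by
        funext i
        refine Fin.lastCases ?_ (fun s => ?_) i
        · simp only [Pi.add_apply, Fin.snoc_last, map_add]
        · simp only [Pi.add_apply, Fin.snoc_castSucc, map_add]
      map_smul' := fun c T => by
        funext i
        refine Fin.lastCases ?_ (fun s => ?_) i
        · simp only [Pi.smul_apply, Fin.snoc_last, map_smul, RingHom.id_apply]
        · simp only [Pi.smul_apply, Fin.snoc_castSucc, map_smul, RingHom.id_apply] }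
  have hF0 : ∀ T, F T = Fin.snoc (α := fun _ => ℂ) (vT lam T) (bT lam h T) := fun _ => rfl
  have hF1 : ∀ T (s : Fin e), F T s.castSucc = vT lam T s := fun T s => by
    rw [hF0]
    exact Fin.snoc_castSucc (α := fun _ => ℂ) _ _ _
  have hF2 : ∀ T, F T (Fin.last e) = bT lam h T := fun T => by
    rw [hF0]
    exact Fin.snoc_last (α := fun _ => ℂ) _ _
  have hFinj : Function.Injective F := by
    intro S T hST
    apply vT_injective lam hli
    funext s
    rw [← hF1, ← hF1, hST]
  obtain ⟨-, hle⟩ := HS.hps _ hh ((Lsp.comap (bT lam h)).map F)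
    (by
      rintro _ ⟨T, hT, rfl⟩ i
      refine Fin.lastCases ?_ (fun s => ?_) i
      · rw [hF2]
        exact hT
      · rw [hF1, vT_apply]
        exact Submodule.sum_mem _ fun j _ => Lsp.smul_mem _ (hlog j))
    (by
      rintro _ ⟨T, hT, rfl⟩
      rw [Fin.sum_univ_castSucc]
      simp only [Fin.snoc_castSucc, Fin.snoc_last, hF1, hF2]
      rw [bT_apply]
      simp only [vT_apply]
      ring)
  rw [Nat.add_sub_cancel] at hle
  rwa [LinearEquiv.finrank_eq (Submodule.equivMapOfInjective F hFinj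
    (Lsp.comap (bT lam h)))]

theorem Lt_eq : Lt = Submodule.span Qa {(1 : ℂ)} ⊔ Lsp := by
  unfold ST.Lsp ST.Lt
  rw [Submodule.span_union]

/-- The combinations which are inhomogeneous linear forms in logarithms. -/
theorem finrank_comap_Lt {e r : ℕ} (lam : Fin r → ℂ) (hli : LinearIndependent Qa lam)
    (hlog : ∀ j, lam j ∈ Lsp) (h : Fin e → ℂ)
    (hh : LinearIndependent Qa (Fin.snoc (α := fun _ => ℂ) h (-1) : Fin (e + 1) → ℂ)) :
    finrank Qa (Lt.comap (bT lam h)) ≤ (e + 1) * e + 1 := by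
  have h1 : FiniteDimensional Qa (Submodule.span Qa {(1 : ℂ)}) :=
    FiniteDimensional.span_singleton Qa _
  have h2 := finrank_comap_sup_le (bT lam h) (Submodule.span Qa {(1 : ℂ)}) Lsp
  rw [← Lt_eq] at h2
  have h3 : finrank Qa (Submodule.span Qa {(1 : ℂ)}) ≤ 1 := by
    have := finrank_span_le_card (R := Qa) ({(1 : ℂ)} : Set ℂ)
    simpa using this
  have h4 := finrank_comap_Lsp lam hli hlog h hh
  omega

/-- The combinations which are algebraic. -/
theorem finrank_comap_one {e r : ℕ} (lam : Fin r → ℂ) (hli : LinearIndependent Qa lam)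
    (hlog : ∀ j, lam j ∈ Lsp) (b : Fin e → ℂ) (hb : LinearIndependent Qa b) :
    finrank Qa ((Submodule.span Qa {(1 : ℂ)}).comap (bT lam b)) ≤ e * (e - 1) + 1 := by
  have h1 : FiniteDimensional Qa (Submodule.span Qa {(1 : ℂ)}) :=
    FiniteDimensional.span_singleton Qa _
  have h2 := finrank_comap_le (bT lam b) (Submodule.span Qa {(1 : ℂ)})
  have h3 : finrank Qa (Submodule.span Qa {(1 : ℂ)}) ≤ 1 := by
    have := finrank_span_le_card (R := Qa) ({(1 : ℂ)} : Set ℂ)
    simpa using this
  have h4 := finrank_ker_sharp lam hli hlog b hb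
  omega

/-- a basis modulo the constants -/
theorem exists_h {n : ℕ} (g : Fin n → ℂ) : ∃ (e : ℕ) (h : Fin e → ℂ)
    (ρ : Fin n → Fin e → Qa) (γ : Fin n → Qa) (q : Fin e → Fin n → Qa) (δ : Fin e → Qa), e ≤ n ∧
    LinearIndependent Qa (Fin.snoc (α := fun _ => ℂ) h (-1) : Fin (e + 1) → ℂ) ∧
    (∀ i, g i = ∑ s, (ρ i s : ℂ) * h s + γ i) ∧
    ∀ s, ∑ i, (q s i : ℂ) * g i = h s + δ s := by
  classical
  set N : Submodule Qa ℂ := Submodule.span Qa {1} with hN
  set g' : Fin n → ℂ ⧸ N := fun i => N.mkQ (g i) with hg'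
  set G : Submodule Qa (ℂ ⧸ N) := Submodule.span Qa (Set.range g') with hG
  have hfin : FiniteDimensional Qa G := FiniteDimensional.span_of_finite Qa (Set.finite_range g')
  let b := finBasis Qa G
  have hle : finrank Qa G ≤ n := by
    have := finrank_range_le_card (R := Qa) g'
    rw [Fintype.card_fin] at this
    exact this
  have hsurj : ∀ s, ∃ z : ℂ, N.mkQ z = (b s : ℂ ⧸ N) := fun s => N.mkQ_surjective _
  choose h hh using hsurj
  have hmem : ∀ i, g' i ∈ G := fun i => Submodule.subset_span ⟨i, rfl⟩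
  have hli : LinearIndependent Qa (fun s => (b s : ℂ ⧸ N)) :=
    b.linearIndependent.map' G.subtype (Submodule.ker_subtype G)
  have hconst : ∀ y : ℂ, N.mkQ y = 0 → ∃ γ : Qa, y = (γ : ℂ) := by
    intro y hy
    rw [Submodule.mkQ_apply, Submodule.Quotient.mk_eq_zero, hN,
      Submodule.mem_span_singleton] at hy
    obtain ⟨γ, rfl⟩ := hy
    exact ⟨γ, by rw [smul_eq', mul_one]⟩
  have hzero : ∀ γ : Qa, N.mkQ (γ : ℂ) = 0 := by
    intro γ
    rw [Submodule.mkQ_apply, Submodule.Quotient.mk_eq_zero, hN, Submodule.mem_span_singleton]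
    exact ⟨γ, by rw [smul_eq', mul_one]⟩
  have hγ : ∀ i, ∃ γ : Qa, g i - ∑ s, (b.repr ⟨g' i, hmem i⟩ s : ℂ) * h s = (γ : ℂ) := by
    intro i
    apply hconst
    have h1 := congrArg G.subtype (b.sum_repr ⟨g' i, hmem i⟩)
    rw [map_sum] at h1
    simp only [map_smul, Submodule.subtype_apply] at h1
    rw [map_sub, map_sum]
    have h2 : ∀ s, N.mkQ ((b.repr ⟨g' i, hmem i⟩ s : ℂ) * h s) =
        b.repr ⟨g' i, hmem i⟩ s • (b s : ℂ ⧸ N) := by
      intro s
      rw [← smul_eq', map_smul, hh]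
    simp only [h2]
    rw [h1, sub_self]
  choose γ hγ using hγ
  have hq : ∀ s, ∃ q : Fin n → Qa, ∑ i, q i • g' i = (b s : ℂ ⧸ N) := fun s =>
    (Submodule.mem_span_range_iff_exists_fun Qa).1 (b s).2
  choose q hq using hq
  have hδ : ∀ s, ∃ δ : Qa, ∑ i, (q s i : ℂ) * g i - h s = (δ : ℂ) := by
    intro s
    apply hconst
    rw [map_sub, map_sum, hh, ← hq s]
    have h2 : ∀ i, N.mkQ ((q s i : ℂ) * g i) = q s i • g' i := by
      intro i
      rw [← smul_eq', map_smul]
    simp only [h2, sub_self]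
  choose δ hδ using hδ
  refine ⟨finrank Qa G, h, fun i s => b.repr ⟨g' i, hmem i⟩ s, γ, q, δ, hle, ?_,
    fun i => ?_, fun s => ?_⟩
  · rw [Fintype.linearIndependent_iff]
    intro c hc
    rw [Fin.sum_univ_castSucc] at hc
    simp only [Fin.snoc_castSucc, Fin.snoc_last, smul_eq'] at hc
    have h1 : ∑ s, c s.castSucc • (b s : ℂ ⧸ N) = 0 := by
      have h2 := congrArg N.mkQ hc
      rw [map_add, map_sum, map_zero] at h2
      have h3 : N.mkQ ((c (Fin.last _) : ℂ) * -1) = 0 := by
        have h4 : (c (Fin.last _) : ℂ) * -1 = ((-c (Fin.last _) : Qa) : ℂ) := by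
          push_cast
          ring
        rw [h4]
        exact hzero _
      rw [h3, add_zero] at h2
      rw [← h2]
      refine Finset.sum_congr rfl fun s _ => ?_
      rw [← smul_eq', map_smul, hh]
    have h4 := Fintype.linearIndependent_iff.1 hli (fun s => c s.castSucc) h1
    intro i
    refine Fin.lastCases ?_ (fun s => h4 s) i
    simp only [h4, ZeroMemClass.coe_zero, zero_mul, Finset.sum_const_zero, zero_add] at hc
    have h5 : (c (Fin.last _) : ℂ) = 0 := by linear_combination -hc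
    exact Subtype.ext h5
  · rw [← hγ i]
    ring
  · rw [← hδ s]
    ring

end MP60829e.FD
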