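import Pool.Agent.Lib.MP_60829e_nt.FC.Poly
import Pool.Agent.Lib.MP_60829e_nt.FD.Multi

/-! # The tangent space at a generic point, all values of the functional moving -/

open MvPolynomial Module

namespace MP60829e.FD

open MP60829e.ST (Qa Lsp Lt)
open MP60829e.FC (forms gs_gen)

/-- The polynomial in the coefficients `(M, z)` obtained by substituting `z` for the first group and
`M lam` for the second group of variables. -/
noncomputable def sub2 {N n r : ℕ} (lam : Fin r → ℂ) (G : MvPolynomial (Fin N ⊕ Fin n) ℂ) :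
    MvPolynomial ((Fin n × Fin r) ⊕ Fin N) ℂ :=
  aeval (Sum.elim (fun l => X (Sum.inr l)) (fun i => ∑ j, C (lam j) * X (Sum.inl (i, j)))) G

/-- The point `(z, M lam)`. -/
noncomputable def pt2 {N n r : ℕ} (lam : Fin r → ℂ) (M : Fin n × Fin r → Qa)
    (z : Fin N → Qa) : Fin N ⊕ Fin n → ℂ :=
  Sum.elim (fun l => (z l : ℂ)) (TV.pt lam M)

theorem ev_sub2 {N n r : ℕ} (lam : Fin r → ℂ) (G : MvPolynomial (Fin N ⊕ Fin n) ℂ)
    (M : Fin n × Fin r → Qa) (z : Fin N → Qa) :
    TV.ev (Sum.elim M z) (sub2 lam G) = eval (pt2 lam M z) G := by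
  induction G using MvPolynomial.induction_on with
  | C a =>
    unfold sub2
    rw [algHom_C, algebraMap_eq, TV.ev_C, eval_C]
  | add p q hp hq =>
    have h1 : sub2 lam (p + q) = sub2 lam p + sub2 lam q := map_add _ _ _
    rw [h1, map_add, hp, hq, map_add]
  | mul_X p i hp =>
    have h1 : sub2 lam (p * X i) = sub2 lam p * sub2 lam (X i) := map_mul _ _ _
    rw [h1, TV.ev_mul, hp, map_mul, eval_X]
    congr 1
    rcases i with l | i
    · have h2 : sub2 lam (X (Sum.inl l) : MvPolynomial (Fin N ⊕ Fin n) ℂ) = X (Sum.inr l) :=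
        aeval_X _ _
      rw [h2, TV.ev_X]
      rfl
    · have h2 : sub2 lam (X (Sum.inr i) : MvPolynomial (Fin N ⊕ Fin n) ℂ) =
        ∑ j, C (lam j) * X (Sum.inl (i, j)) := aeval_X _ _
      rw [h2, map_sum]
      unfold pt2 TV.pt
      rw [Sum.elim_inr]
      refine Finset.sum_congr rfl fun j _ => ?_
      rw [TV.ev_mul, TV.ev_C, TV.ev_X, Algebra.smul_def, mul_comm]
      rfl

theorem dv_sub2 {N n r : ℕ} (lam : Fin r → ℂ) (G : MvPolynomial (Fin N ⊕ Fin n) ℂ)
    (M T : Fin n × Fin r → Qa) (z h : Fin N → Qa) :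
    TV.dv (Sum.elim M z) (Sum.elim T h) (sub2 lam G) =
      ∑ l, eval (pt2 lam M z) (pderiv (Sum.inl l) G) * (h l : ℂ) +
        ∑ i, eval (pt2 lam M z) (pderiv (Sum.inr i) G) * TV.pt lam T i := by
  classical
  -- the direction
  set u : Fin N ⊕ Fin n → ℂ := Sum.elim (fun l => (h l : ℂ)) (TV.pt lam T) with hu
  have key : TV.dv (Sum.elim M z) (Sum.elim T h) (sub2 lam G) =
      ∑ s, eval (pt2 lam M z) (pderiv s G) * u s := by
    induction G using MvPolynomial.induction_on with
    | C a =>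
      have h1 : sub2 lam (C a : MvPolynomial (Fin N ⊕ Fin n) ℂ) = C a := algHom_C _ a
      rw [h1, TV.dv_C]
      symm
      refine Finset.sum_eq_zero fun i _ => ?_
      rw [pderiv_C, map_zero, zero_mul]
    | add p q hp hq =>
      have h1 : sub2 lam (p + q) = sub2 lam p + sub2 lam q := map_add _ _ _
      rw [h1, TV.dv_add, hp, hq, ← Finset.sum_add_distrib]
      refine Finset.sum_congr rfl fun i _ => ?_
      rw [map_add, map_add, add_mul]
    | mul_X p i hp =>
      have h1 : sub2 lam (p * X i) = sub2 lam p * sub2 lam (X i) := map_mul _ _ _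
      have h3 : TV.dv (Sum.elim M z) (Sum.elim T h) (sub2 lam (X i)) = u i := by
        rcases i with l | i
        · have h2 : sub2 lam (X (Sum.inl l) : MvPolynomial (Fin N ⊕ Fin n) ℂ) =
            X (Sum.inr l) := aeval_X _ _
          rw [h2, TV.dv_X]
          rfl
        · have h2 : sub2 lam (X (Sum.inr i) : MvPolynomial (Fin N ⊕ Fin n) ℂ) =
            ∑ j, C (lam j) * X (Sum.inl (i, j)) := aeval_X _ _
          rw [h2, TV.dv_sum, hu, Sum.elim_inr]
          unfold TV.pt
          refine Finset.sum_congr rfl fun j _ => ?_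
          rw [TV.dv_mul, TV.dv_C, zero_mul, zero_add, TV.ev_C, TV.dv_X, Algebra.smul_def,
            mul_comm]
          rfl
      have h5 : ∀ i', eval (pt2 lam M z) (pderiv i' (p * X i)) * u i' =
          eval (pt2 lam M z) (pderiv i' p) * u i' * pt2 lam M z i +
            (if i' = i then eval (pt2 lam M z) p * u i' else 0) := by
        intro i'
        rw [pderiv_mul, map_add, map_mul, map_mul, eval_X]
        split_ifs with h
        · subst h
          rw [pderiv_X_self, map_one]
          ring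
        · rw [pderiv_X_of_ne (Ne.symm h), map_zero]
          ring
      rw [h1, TV.dv_mul, hp, h3, ev_sub2, ev_sub2, eval_X,
        Finset.sum_congr rfl fun i' _ => h5 i', Finset.sum_add_distrib, Finset.sum_ite_eq',
        if_pos (Finset.mem_univ i), Finset.sum_mul]
  rw [key, Fintype.sum_sum_type]
  rfl

private theorem ev_rename {K R : Type} [Field K] [CommRing R] [Algebra K R] {σ τ : Type}
    (f : σ → τ) (c : τ → K) (p : MvPolynomial σ R) :
    TV.ev c (rename f p) = TV.ev (fun s => c (f s)) p := by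
  induction p using MvPolynomial.induction_on with
  | C a => rw [rename_C, TV.ev_C, TV.ev_C]
  | add p q hp hq => rw [map_add, map_add, map_add, hp, hq]
  | mul_X p i hp => rw [map_mul, TV.ev_mul, TV.ev_mul, hp, rename_X, TV.ev_X, TV.ev_X]

private theorem dv_rename {K R : Type} [Field K] [CommRing R] [Algebra K R] {σ τ : Type}
    [Fintype σ] [Fintype τ] (f : σ → τ) (c v : τ → K) (p : MvPolynomial σ R) :
    TV.dv c v (rename f p) = TV.dv (fun s => c (f s)) (fun s => v (f s)) p := by
  induction p using MvPolynomial.induction_on with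
  | C a => rw [rename_C, TV.dv_C, TV.dv_C]
  | add p q hp hq => rw [map_add, TV.dv_add, TV.dv_add, hp, hq]
  | mul_X p i hp =>
    rw [map_mul, TV.dv_mul, TV.dv_mul, hp, rename_X, TV.dv_X, TV.dv_X, ev_rename, TV.ev_X,
      TV.ev_X]

private theorem ev_eq_eval {K : Type} [Field K] {σ : Type} (c : σ → K) (p : MvPolynomial σ K) :
    TV.ev c p = eval c p := by
  induction p using MvPolynomial.induction_on with
  | C a => rw [TV.ev_C, eval_C]
  | add p q hp hq => rw [map_add, map_add, hp, hq]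
  | mul_X p i hp =>
    rw [TV.ev_mul, hp, TV.ev_X, map_mul, eval_X]
    rfl

private theorem dv_eq_sum {K : Type} [Field K] {σ : Type} [Fintype σ] (c v : σ → K)
    (p : MvPolynomial σ K) : TV.dv c v p = ∑ s, v s * eval c (pderiv s p) := by
  unfold TV.dv
  exact Finset.sum_congr rfl fun s _ => by rw [ev_eq_eval, smul_eq_mul]

/-- The tangent directions at a generic point. -/
theorem tangent {N n m r : ℕ} {I : Type} (Y : I → Fin m × Fin r → Qa) (U : Ultrafilter I)
    (hU : ∀ D : MvPolynomial (Fin m × Fin r) Qa, D ≠ 0 →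
      ∀ᶠ a in (U : Filter I), eval (Y a) D ≠ 0)
    (lam : Fin r → ℂ) (G : MvPolynomial (Fin N ⊕ Fin n) ℂ)
    (M : I → Fin n × Fin r → Qa) (z : I → Fin N → Qa)
    (h1 : ∀ᶠ a in (U : Filter I), ∀ i s, ∑ j, M a (i, j) * Y a (s, j) = 0)
    (h2 : ∀ᶠ a in (U : Filter I), eval (pt2 lam (M a) (z a)) G = 0) :
    ∀ᶠ a in (U : Filter I), ∀ ψ : Fin m × Fin r → Qa,
      ∃ (T : Fin n × Fin r → Qa) (h : Fin N → Qa),
        (∀ i s, ∑ j, T (i, j) * Y a (s, j) = -∑ j, M a (i, j) * ψ (s, j)) ∧
        ∑ l, eval (pt2 lam (M a) (z a)) (pderiv (Sum.inl l) G) * (h l : ℂ) +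
          ∑ i, eval (pt2 lam (M a) (z a)) (pderiv (Sum.inr i) G) * TV.pt lam T i = 0 := by
  classical
  obtain ⟨q, P', hP1, hP2⟩ := forms (⊥ : Submodule Qa ℂ) (sub2 lam G)
  let P : (Fin n × Fin m) ⊕ Fin q →
      MvPolynomial ((Fin m × Fin r) ⊕ ((Fin n × Fin r) ⊕ Fin N)) Qa :=
    Sum.elim (fun p => ∑ j : Fin r, X (Sum.inr (Sum.inl (p.1, j))) * X (Sum.inl (p.2, j)))
      (fun j => rename Sum.inr (P' j))
  have h3 : ∀ᶠ a in (U : Filter I), ∀ j,
      eval (Sum.elim (Y a) (Sum.elim (M a) (z a))) (P j) = 0 := by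
    filter_upwards [h1, h2] with a ha1 ha2
    rintro (⟨i, s⟩ | j)
    · rw [← ha1 i s]
      simp only [P, Sum.elim_inl, map_sum, map_mul, eval_X, Sum.elim_inr]
    · have h4 : TV.ev (Sum.elim (M a) (z a)) (sub2 lam G) ∈ (⊥ : Submodule Qa ℂ) := by
        rw [ev_sub2, Submodule.mem_bot]
        exact ha2
      have h5 := hP1 _ h4 j
      rw [← h5]
      simp only [P, Sum.elim_inr]
      rw [← ev_eq_eval, ev_rename, ev_eq_eval]
      rfl
  have h4 := gs_gen U Y hU P (fun a => Sum.elim (M a) (z a)) h3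
  filter_upwards [h4] with a ha ψ
  obtain ⟨η, hη⟩ := ha ψ
  have hη' : ∀ j, TV.dv (Sum.elim (Y a) (Sum.elim (M a) (z a))) (Sum.elim ψ η) (P j) = 0 := by
    intro j
    rw [dv_eq_sum, Fintype.sum_sum_type]
    exact hη j
  refine ⟨fun p => η (Sum.inl p), fun j => η (Sum.inr j), fun i s => ?_, ?_⟩
  · have h5 := hη' (Sum.inl (i, s))
    simp only [P, Sum.elim_inl] at h5
    rw [TV.dv_sum] at h5
    simp only [TV.dv_mul, TV.dv_X, TV.ev_X, Sum.elim_inl, Sum.elim_inr,
      Algebra.algebraMap_self, RingHom.id_apply, Finset.sum_add_distrib] at h5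
    linear_combination h5
  · have h5 : TV.dv (Sum.elim (M a) (z a)) η (sub2 lam G) ∈ (⊥ : Submodule Qa ℂ) := by
      refine hP2 _ _ fun j => ?_
      have h6 := hη' (Sum.inr j)
      simp only [P, Sum.elim_inr] at h6
      rw [dv_rename, dv_eq_sum] at h6
      exact h6
    have h6 : η = Sum.elim (fun p => η (Sum.inl p)) (fun j => η (Sum.inr j)) := by
      funext t
      rcases t with t | t <;> rfl
    rw [h6, dv_sub2, Submodule.mem_bot] at h5
    exact h5

end MP60829e.FD
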